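import Mathlib

/-!
# MP_032401_al: periodic biprimitively finite groups whose finite subgroups are metabelian with
abelian Sylow subgroups. Definitions and closure properties.
-/

set_option autoImplicit false

namespace Pool.Agent.Lib.MP_032401_al

open Subgroup
open scoped commutatorElement

/-- Biprimitively finite groups (as in the frozen statement). -/
def BF (G : Type) [Group G] : Prop :=
  ∀ H : Subgroup G, (H : Set G).Finite →
    ∀ x y : G, x ∈ Subgroup.normalizer (H : Set G) → y ∈ Subgroup.normalizer (H : Set G) →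
      (∃ p : ℕ, p.Prime ∧ x ∉ H ∧ x ^ p ∈ H) →
      (∃ q : ℕ, q.Prime ∧ y ∉ H ∧ y ^ q ∈ H) →
      ((Subgroup.closure ((H : Set G) ∪ {x, y}) : Subgroup G) : Set G).Finite

/-- The class of groups considered here. -/
structure Cls (G : Type) [Group G] : Prop where
  per : ∀ g : G, IsOfFinOrder g
  bf : BF G
  met : ∀ F : Subgroup G, (F : Set G).Finite → ∀ a ∈ F, ∀ b ∈ F, ∀ c ∈ F, ∀ d ∈ F,
    ⁅a, b⁆ * ⁅c, d⁆ = ⁅c, d⁆ * ⁅a, b⁆
  abp : ∀ p : ℕ, p.Prime → ∀ P : Subgroup G, (P : Set G).Finite →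
    (∀ x ∈ P, ∃ k : ℕ, x ^ p ^ k = 1) → ∀ a ∈ P, ∀ b ∈ P, a * b = b * a

variable {G : Type} [Group G]

theorem Cls.of_injective {K : Type} [Group K] (hG : Cls G) (f : K →* G)
    (hf : Function.Injective f) : Cls K where
  per g := by
    obtain ⟨n, hn, h⟩ := isOfFinOrder_iff_pow_eq_one.1 (hG.per (f g))
    refine isOfFinOrder_iff_pow_eq_one.2 ⟨n, hn, hf ?_⟩
    rw [map_pow, h, map_one]
  bf H hH x y hx hy hxp hyq := by
    obtain ⟨p, hp, hxH, hxp⟩ := hxp
    obtain ⟨q, hq, hyH, hyq⟩ := hyq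
    have hN : ∀ z, z ∈ Subgroup.normalizer (H : Set K) →
        f z ∈ Subgroup.normalizer ((H.map f : Subgroup G) : Set G) := by
      intro z hz
      exact Subgroup.le_normalizer_map f ⟨z, hz, rfl⟩
    have hfin : ((H.map f : Subgroup G) : Set G).Finite := by
      rw [Subgroup.coe_map]; exact hH.image f
    have hnot : ∀ z, z ∉ H → f z ∉ H.map f := by
      rintro z hz ⟨w, hw, hwz⟩
      exact hz (by rw [← hf hwz]; exact hw)
    have h1 := hG.bf (H.map f) hfin (f x) (f y) (hN x hx) (hN y hy)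
      ⟨p, hp, hnot x hxH, ⟨x ^ p, hxp, map_pow f x p⟩⟩
      ⟨q, hq, hnot y hyH, ⟨y ^ q, hyq, map_pow f y q⟩⟩
    have h2 : ((H.map f : Subgroup G) : Set G) ∪ {f x, f y} = f '' ((H : Set K) ∪ {x, y}) := by
      rw [Set.image_union, Set.image_pair, Subgroup.coe_map]
    rw [h2, ← MonoidHom.map_closure, Subgroup.coe_map] at h1
    exact h1.of_finite_image hf.injOn
  met F hF a ha b hb c hc d hd := by
    have hfin : ((F.map f : Subgroup G) : Set G).Finite := by
      rw [Subgroup.coe_map]; exact hF.image f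
    have h := hG.met (F.map f) hfin (f a) ⟨a, ha, rfl⟩ (f b) ⟨b, hb, rfl⟩ (f c) ⟨c, hc, rfl⟩
      (f d) ⟨d, hd, rfl⟩
    apply hf
    rw [map_mul, map_mul, map_commutatorElement, map_commutatorElement]
    exact h
  abp p hp P hP hk a ha b hb := by
    have hfin : ((P.map f : Subgroup G) : Set G).Finite := by
      rw [Subgroup.coe_map]; exact hP.image f
    have h := hG.abp p hp (P.map f) hfin (by
      rintro _ ⟨x, hx, rfl⟩
      obtain ⟨k, hk⟩ := hk x hx
      exact ⟨k, by rw [← map_pow, hk, map_one]⟩) (f a) ⟨a, ha, rfl⟩ (f b) ⟨b, hb, rfl⟩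
    apply hf
    rw [map_mul, map_mul]
    exact h

theorem Cls.subgroup (hG : Cls G) (K : Subgroup G) : Cls K :=
  hG.of_injective K.subtype K.subtype_injective

theorem Cls.of_surjective {Q : Type} [Group Q] (hG : Cls G) (f : G →* Q)
    (hf : Function.Surjective f) (hk : (f.ker : Set G).Finite) : Cls Q := by
  have hpre : ∀ A : Subgroup Q, (A : Set Q).Finite → ((A.comap f : Subgroup G) : Set G).Finite := by
    intro A hA
    rw [Subgroup.coe_comap]
    refine hA.preimage' fun b _ => ?_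
    obtain ⟨g, rfl⟩ := hf b
    refine (hk.image (fun z => g * z)).subset ?_
    intro z hz
    refine ⟨g⁻¹ * z, ?_, by simp⟩
    have hz' : f z = f g := hz
    show g⁻¹ * z ∈ f.ker
    rw [MonoidHom.mem_ker, map_mul, map_inv, hz', inv_mul_cancel]
  refine ⟨?_, ?_, ?_, ?_⟩
  · intro g
    obtain ⟨g, rfl⟩ := hf g
    exact f.isOfFinOrder (hG.per g)
  · intro H hH x y hx hy hxp hyq
    obtain ⟨p, hp, hxH, hxp⟩ := hxp
    obtain ⟨q, hq, hyH, hyq⟩ := hyq
    obtain ⟨x, rfl⟩ := hf x
    obtain ⟨y, rfl⟩ := hf y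
    have h1 := hG.bf (H.comap f) (hpre H hH) x y
      (Subgroup.le_normalizer_comap f hx) (Subgroup.le_normalizer_comap f hy)
      ⟨p, hp, hxH, by rw [Subgroup.mem_comap, map_pow]; exact hxp⟩
      ⟨q, hq, hyH, by rw [Subgroup.mem_comap, map_pow]; exact hyq⟩
    have h2 : f '' (((H.comap f : Subgroup G) : Set G) ∪ {x, y}) = (H : Set Q) ∪ {f x, f y} := by
      rw [Set.image_union, Set.image_pair, Subgroup.coe_comap, Set.image_preimage_eq _ hf]
    rw [← h2, ← MonoidHom.map_closure, Subgroup.coe_map]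
    exact h1.image f
  · intro F hF a ha b hb c hc d hd
    obtain ⟨a, rfl⟩ := hf a
    obtain ⟨b, rfl⟩ := hf b
    obtain ⟨c, rfl⟩ := hf c
    obtain ⟨d, rfl⟩ := hf d
    have h := hG.met (F.comap f) (hpre F hF) a ha b hb c hc d hd
    rw [← map_commutatorElement, ← map_commutatorElement, ← map_mul, ← map_mul, h]
  · intro p hp P hP hk' a ha b hb
    have hfact : Fact p.Prime := ⟨hp⟩
    have hFfin : Finite (P.comap f) := (hpre P hP).to_subtype
    have hPfin : Finite P := hP.to_subtype
    have hsur : Function.Surjective (f.subgroupComap P) :=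
      f.subgroupComap_surjective_of_surjective P hf
    let S : Sylow p (P.comap f) := default
    have hPp : IsPGroup p P := by
      intro x
      obtain ⟨k, hk⟩ := hk' x.1 x.2
      exact ⟨k, Subtype.ext (by simpa using hk)⟩
    have hS : ((S.mapSurjective hsur : Sylow p P) : Subgroup P) = ⊤ := by
      have h3 := (S.mapSurjective hsur).is_maximal' (Q := ⊤)
        (IsPGroup.of_equiv hPp Subgroup.topEquiv.symm) le_top
      exact h3.symm
    rw [Sylow.coe_mapSurjective] at hS
    have hlift : ∀ z : P, ∃ w : P.comap f, w ∈ (S : Subgroup (P.comap f)) ∧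
        f.subgroupComap P w = z := by
      intro z
      have hz : z ∈ Subgroup.map (f.subgroupComap P) (S : Subgroup (P.comap f)) := by
        rw [hS]; trivial
      exact hz
    obtain ⟨w, hw, hwa⟩ := hlift ⟨a, ha⟩
    obtain ⟨v, hv, hvb⟩ := hlift ⟨b, hb⟩
    have hSmap : (((S : Subgroup (P.comap f)).map (P.comap f).subtype : Subgroup G) :
        Set G).Finite := (hpre P hP).subset (Subgroup.map_subtype_le _)
    have h4 := hG.abp p hp ((S : Subgroup (P.comap f)).map (P.comap f).subtype) hSmap (by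
      rintro _ ⟨x, hx, rfl⟩
      obtain ⟨k, hk⟩ := S.2 ⟨x, hx⟩
      refine ⟨k, ?_⟩
      have h5 := congrArg (fun z : S => ((z : P.comap f) : G)) hk
      simpa using h5) w.1 ⟨w, hw, rfl⟩ v.1 ⟨v, hv, rfl⟩
    have ha' : f w.1 = a := congrArg Subtype.val hwa
    have hb' : f v.1 = b := congrArg Subtype.val hvb
    rw [← ha', ← hb', ← map_mul, ← map_mul, h4]

/-- The section `N_G(H)/H`. -/
theorem Cls.section (hG : Cls G) (H : Subgroup G) (hH : (H : Set G).Finite) :
    Cls ((Subgroup.normalizer (H : Set G)) ⧸ (H.subgroupOf (Subgroup.normalizer (H : Set G)))) := by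
  refine (hG.subgroup (Subgroup.normalizer (H : Set G))).of_surjective
    (QuotientGroup.mk' _) (QuotientGroup.mk'_surjective _) ?_
  rw [QuotientGroup.ker_mk']
  have h := hH.preimage (f := (Subtype.val : Subgroup.normalizer (H : Set G) → G))
    (Subtype.val_injective.injOn)
  exact h

end Pool.Agent.Lib.MP_032401_al
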