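import Pool.Agent.Lib.MP_032401_al.LemmaA

/-!
# MP_032401_al: elements of the same prime order generate a locally finite subgroup
-/

set_option autoImplicit false

namespace Pool.Agent.Lib.MP_032401_al

open Subgroup
open scoped commutatorElement

variable {G : Type} [Group G]

/-- **Step 2.** -/
theorem Cls.dagger (hG : Cls G) {p : ℕ} (hp : p.Prime) (n : ℕ) : ∀ S : Set G, S.Finite →
    S.ncard ≤ n → (∀ x ∈ S, x ^ p = 1) → ((closure S : Subgroup G) : Set G).Finite := by
  induction n with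
  | zero =>
    intro S hS hn _
    have h1 : S = ∅ := (Set.ncard_eq_zero hS).1 (Nat.le_zero.1 hn)
    rw [h1, Subgroup.closure_empty]
    simp
  | succ n ih =>
    intro S hS hn hSp
    rcases S.eq_empty_or_nonempty with h0 | ⟨t, htS⟩
    · rw [h0, Subgroup.closure_empty]
      simp
    have ht := hSp t htS
    have hstep : ∀ y : G, ∃ m h : G, y ^ p = 1 →
        m ∈ ⁅closure {t, y}, closure {t, y}⁆ ∧ y = m * h ∧ h * t = t * h ∧ h ^ p = 1 := by
      intro y
      by_cases hy : y ^ p = 1
      · obtain ⟨_, _, _, m, hm, h, _, h1, h2, h3⟩ := hG.step1 hp ht hy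
        exact ⟨m, h, fun _ => ⟨hm, h1, h2, h3⟩⟩
      · exact ⟨1, 1, fun h => absurd h hy⟩
    choose m h hmh using hstep
    have hS' : (S \ {t}).Finite := hS.subset Set.sdiff_subset
    have hcard : (S \ {t}).ncard ≤ n := by
      have h1 := Set.ncard_sdiff_singleton_add_one htS hS
      omega
    have hYf := ih (h '' (S \ {t})) (hS'.image h) ((Set.ncard_image_le hS').trans hcard) (by
      rintro _ ⟨y, hy, rfl⟩
      exact (hmh y (hSp y hy.1)).2.2.2)
    set Y := closure (h '' (S \ {t})) with hYd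
    have hYt : ∀ y ∈ Y, y * t = t * y := by
      intro y hy
      refine closure_comm2 (S := h '' (S \ {t})) (T := {t}) ?_ y hy t (subset_closure rfl)
      rintro _ ⟨y, hy, rfl⟩ z hz
      rw [Set.mem_singleton_iff] at hz
      rw [hz]
      exact (hmh y (hSp y hy.1)).2.2.1
    let E : Set G := {z | ∃ g ∈ Y, ∃ y ∈ S \ {t}, ∃ d ∈ ⁅closure {t, y}, closure {t, y}⁆,
      g * d * g⁻¹ = z}
    have hfpf : ∀ y ∈ S \ {t}, Fpf t ⁅closure {t, y}, closure {t, y}⁆ := fun y hy =>
      (hG.step1 hp ht (hSp y hy.1)).2.1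
    have hEf : E.Finite := by
      have h1 : (⋃ y ∈ S \ {t}, ((⁅closure {t, y}, closure {t, y}⁆ : Subgroup G) :
          Set G)).Finite := hS'.biUnion fun y hy => (hfpf y hy).fin
      refine (Set.Finite.image (fun z : G × G => z.1 * z.2 * z.1⁻¹) (hYf.prod h1)).subset ?_
      rintro z ⟨g, hg, y, hy, d, hd, rfl⟩
      refine ⟨(g, d), ⟨hg, ?_⟩, rfl⟩
      simp only [Set.mem_iUnion]
      exact ⟨y, hy, hd⟩
    have hconj : ∀ g ∈ Y, ∀ y ∈ S \ {t},
        Fpf t ((⁅closure {t, y}, closure {t, y}⁆ : Subgroup G).map (MulAut.conj g).toMonoidHom) := by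
      intro g hg y hy
      have h1 := (hfpf y hy).conjg g
      have h2 : g * t * g⁻¹ = t := by rw [hYt g hg]; group
      rw [h2] at h1
      exact h1
    have hEc : ∀ x ∈ E, ∀ y ∈ E, x * y = y * x := by
      rintro _ ⟨g, hg, y, hy, d, hd, rfl⟩ _ ⟨g', hg', y', hy', d', hd', rfl⟩
      exact hG.lemmaA hp ht (hconj g hg y hy) (hconj g' hg' y' hy') _ ⟨d, hd, rfl⟩ _
        ⟨d', hd', rfl⟩
    have hDf := finite_of_comm hG.per hEf hEc
    have hYD : Y ≤ normalizer ((closure E : Subgroup G) : Set G) := by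
      rw [Subgroup.le_normalizer_closure_iff]
      rintro k hk _ ⟨g, hg, y, hy, d, hd, rfl⟩
      exact subset_closure ⟨k * g, mul_mem hk hg, y, hy, d, hd, by group⟩
    have htD : zpowers t ≤ normalizer ((closure E : Subgroup G) : Set G) := by
      apply zpowers_le_normalizer hDf
      intro a ha
      induction ha using closure_induction with
      | mem z hz =>
        obtain ⟨g, hg, y, hy, d, hd, rfl⟩ := hz
        refine subset_closure ⟨g, hg, y, hy, t * d * t⁻¹, (hfpf y hy).inv d hd, ?_⟩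
        have h1 := hYt g hg
        have h2 : t⁻¹ * g⁻¹ = g⁻¹ * t⁻¹ := by rw [← mul_inv_rev, ← mul_inv_rev, h1]
        calc g * (t * d * t⁻¹) * g⁻¹ = (g * t) * d * (t⁻¹ * g⁻¹) := by group
          _ = (t * g) * d * (g⁻¹ * t⁻¹) := by rw [h1, h2]
          _ = t * (g * d * g⁻¹) * t⁻¹ := by group
      | one => rw [mul_one, mul_inv_cancel]; exact one_mem _
      | mul x y _ _ hx hy =>
        have h1 : t * (x * y) * t⁻¹ = (t * x * t⁻¹) * (t * y * t⁻¹) := by group
        rw [h1]; exact mul_mem hx hy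
      | inv x _ hx =>
        have h1 : t * x⁻¹ * t⁻¹ = (t * x * t⁻¹)⁻¹ := by group
        rw [h1]; exact inv_mem hx
    have hYtf : ((Y ⊔ zpowers t : Subgroup G) : Set G).Finite := by
      refine sup_finite hYf (hG.per t).finite_zpowers (zpowers_le_normalizer hYf ?_)
      intro a ha
      rw [← hYt a ha, mul_inv_cancel_right]
      exact ha
    have hL := sup_finite hDf hYtf (sup_le hYD htD)
    refine hL.subset ?_
    have h1 : closure S ≤ closure E ⊔ (Y ⊔ zpowers t) := by
      rw [closure_le]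
      intro y hy
      by_cases hyt : y = t
      · rw [hyt]
        exact (le_sup_right : _ ≤ closure E ⊔ (Y ⊔ zpowers t))
          ((le_sup_right : _ ≤ Y ⊔ zpowers t) (mem_zpowers t))
      · have hy' : y ∈ S \ {t} := ⟨hy, hyt⟩
        obtain ⟨h2, h3, _, _⟩ := hmh y (hSp y hy)
        have h4 : m y ∈ closure E := subset_closure ⟨1, one_mem _, y, hy', m y, h2, by group⟩
        have h5 : h y ∈ Y := subset_closure ⟨y, hy', rfl⟩
        have h6 : m y * h y ∈ closure E ⊔ (Y ⊔ zpowers t) :=
          mul_mem ((le_sup_left : _ ≤ closure E ⊔ (Y ⊔ zpowers t)) h4)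
            ((le_sup_right : _ ≤ closure E ⊔ (Y ⊔ zpowers t))
              ((le_sup_left : _ ≤ Y ⊔ zpowers t) h5))
        rw [← h3] at h6
        exact h6
    exact h1

end Pool.Agent.Lib.MP_032401_al
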