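import Pool.Agent.Lib.MP_032401_al.LF

/-!
# MP_032401_al: the group is locally finite
-/

set_option autoImplicit false

namespace Pool.Agent.Lib.MP_032401_al

open Subgroup
open scoped commutatorElement

variable {G : Type} [Group G]

/-- two elements of `q`-power order: commutators are `q'`-elements of the derived subgroup -/
theorem Cls.comm_pprime (hG : Cls G) {q : ℕ} (hq : q.Prime) {x y : G}
    (hx : ∃ j : ℕ, x ^ q ^ j = 1) (hy : ∃ j : ℕ, y ^ q ^ j = 1)
    (hL : ((closure {x, y} : Subgroup G) : Set G).Finite) :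
    ∃ m : ℕ, ¬ q ∣ m ∧ ⁅x, y⁆ ^ m = 1 := by
  have hAc := hG.der_comm hL
  have hKN := le_normalizer_der (closure {x, y})
  have hpow : ∀ k ∈ closure {x, y}, ∃ j : ℕ, k ^ q ^ j ∈ ⁅closure {x, y}, closure {x, y}⁆ := by
    intro k hk
    induction hk using closure_induction with
    | mem z hz =>
      rcases hz with rfl | hz
      · obtain ⟨j, hj⟩ := hx
        exact ⟨j, by rw [hj]; exact one_mem _⟩
      · rw [Set.mem_singleton_iff] at hz
        obtain ⟨j, hj⟩ := hy
        exact ⟨j, by rw [hz, hj]; exact one_mem _⟩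
    | one => exact ⟨0, by rw [one_pow]; exact one_mem _⟩
    | mul a b ha hb iha ihb =>
      obtain ⟨i, hi⟩ := iha
      obtain ⟨j, hj⟩ := ihb
      obtain ⟨d, hd, h1⟩ := mul_pow_mod (hKN ha) (hKN hb)
        (Subgroup.commutator_mem_commutator ha hb) (q ^ (i + j))
      refine ⟨i + j, ?_⟩
      rw [h1]
      refine mul_mem hd (mul_mem ?_ ?_)
      · rw [pow_add, pow_mul]; exact pow_mem hi _
      · rw [add_comm, pow_add, pow_mul]; exact pow_mem hj _
    | inv a ha iha =>
      obtain ⟨i, hi⟩ := iha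
      exact ⟨i, by rw [inv_pow]; exact inv_mem hi⟩
  let O := pprime ⁅closure {x, y}, closure {x, y}⁆ hAc q hq
  have hOfin : (O : Set G).Finite := (hL.subset (der_le _)).subset fun a ha => ha.1
  have hKO : closure {x, y} ≤ normalizer (O : Set G) := by
    rw [Subgroup.le_normalizer_iff]
    rintro h hh k ⟨hk, m, hm, hkm⟩
    refine ⟨der_conj hh hk, m, hm, ?_⟩
    rw [conj_pow, hkm]
    group
  have hO := hG.quot_comm hq hOfin hL hKO (by
    intro k hk
    obtain ⟨i, hi⟩ := hpow k hk
    obtain ⟨j, m, hm, hjm⟩ := Nat.exists_eq_pow_mul_and_not_dvd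
      (n := orderOf (k ^ q ^ i)) ((orderOf_pos_iff.2 (hG.per _)).ne') q hq.one_lt.ne'
    refine ⟨i + j, ?_⟩
    rw [pow_add, pow_mul]
    refine ⟨pow_mem hi _, m, hm, ?_⟩
    rw [← pow_mul, ← hjm, pow_orderOf_eq_one])
  exact (hO x (subset_closure (by simp)) y (subset_closure (by simp))).2

/-- if the commutator of two elements is central in the finite group generated by them, then
they commute -/
theorem Cls.comm_of_central (hG : Cls G) {b c : G} (hb : ⁅b, c⁆ * b = b * ⁅b, c⁆)
    (hc : ⁅b, c⁆ * c = c * ⁅b, c⁆) (hF : ((closure {b, c} : Subgroup G) : Set G).Finite) :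
    b * c = c * b := by
  have hbc : ∀ i j : ℕ, ⁅b ^ i, c ^ j⁆ = ⁅b, c⁆ ^ (i * j) := by
    have h1 : ∀ i : ℕ, ⁅b ^ i, c⁆ = ⁅b, c⁆ ^ i := by
      intro i
      induction i with
      | zero => rw [pow_zero, pow_zero, commutatorElement_one_left]
      | succ i ih =>
        have h2 : ⁅b ^ (i + 1), c⁆ = b ^ i * ⁅b, c⁆ * (b ^ i)⁻¹ * ⁅b ^ i, c⁆ := by
          rw [pow_succ, commutatorElement_def, commutatorElement_def, commutatorElement_def]
          group
        have h3 : Commute ⁅b, c⁆ (b ^ i) := (show Commute ⁅b, c⁆ b from hb).pow_right i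
        rw [h2, ih, ← h3.eq, mul_inv_cancel_right, pow_succ']
    have h2 : ∀ i j : ℕ, ⁅b ^ i, c ^ j⁆ = ⁅b ^ i, c⁆ ^ j := by
      intro i j
      induction j with
      | zero => rw [pow_zero, pow_zero, commutatorElement_one_right]
      | succ j ih =>
        have h2 : ⁅b ^ i, c ^ (j + 1)⁆ = ⁅b ^ i, c ^ j⁆ * (c ^ j * ⁅b ^ i, c⁆ * (c ^ j)⁻¹) := by
          rw [pow_succ, commutatorElement_def, commutatorElement_def, commutatorElement_def]
          group
        have h3 : Commute ⁅b ^ i, c⁆ (c ^ j) := by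
          rw [h1 i]
          exact ((show Commute ⁅b, c⁆ c from hc).pow_right j).pow_left i
        rw [h2, ih, ← h3.eq, mul_inv_cancel_right, pow_succ]
    intro i j
    rw [h2, h1, pow_mul]
  by_contra hne
  have hz : ⁅b, c⁆ ≠ 1 := fun h => hne (commutatorElement_eq_one_iff_mul_comm.1 h)
  have hz1 : orderOf ⁅b, c⁆ ≠ 1 := fun h => hz (orderOf_eq_one_iff.1 h)
  obtain ⟨q, hq, hqd⟩ := Nat.exists_prime_and_dvd hz1
  obtain ⟨i, m, hm, him⟩ := Nat.exists_eq_pow_mul_and_not_dvd
    (n := orderOf b) ((orderOf_pos_iff.2 (hG.per _)).ne') q hq.one_lt.ne'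
  obtain ⟨j, l, hl, hjl⟩ := Nat.exists_eq_pow_mul_and_not_dvd
    (n := orderOf c) ((orderOf_pos_iff.2 (hG.per _)).ne') q hq.one_lt.ne'
  have hbm : ∃ k : ℕ, (b ^ m) ^ q ^ k = 1 :=
    ⟨i, by rw [← pow_mul, mul_comm, ← him, pow_orderOf_eq_one]⟩
  have hcl : ∃ k : ℕ, (c ^ l) ^ q ^ k = 1 :=
    ⟨j, by rw [← pow_mul, mul_comm, ← hjl, pow_orderOf_eq_one]⟩
  have hF' : ((closure {b ^ m, c ^ l} : Subgroup G) : Set G).Finite := by
    refine hF.subset ?_
    have h1 : closure {b ^ m, c ^ l} ≤ closure {b, c} := by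
      rw [closure_le]
      rintro x (rfl | hx)
      · exact pow_mem (subset_closure (by simp)) m
      · rw [Set.mem_singleton_iff] at hx
        rw [hx]
        exact pow_mem (subset_closure (by simp)) l
    exact h1
  obtain ⟨n, hn, hn1⟩ := hG.comm_pprime hq hbm hcl hF'
  rw [hbc, ← pow_mul] at hn1
  have h1 := hqd.trans (orderOf_dvd_of_pow_eq_one hn1)
  rcases hq.dvd_mul.1 h1 with h | h
  · rcases hq.dvd_mul.1 h with h | h
    · exact hm h
    · exact hl h
  · exact hn h

/-- a section version of Step 2 -/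
theorem Cls.dagger_section (hG : Cls G) {q : ℕ} (hq : q.Prime) {H : Subgroup G}
    (hH : (H : Set G).Finite) {T : Set G} (hT : T.Finite)
    (hTN : ∀ x ∈ T, x ∈ normalizer (H : Set G)) (hTq : ∀ x ∈ T, x ^ q ∈ H) :
    ((closure T : Subgroup G) : Set G).Finite := by
  have hQ := hG.section H hH
  let π := QuotientGroup.mk' (H.subgroupOf (normalizer (H : Set G)))
  let ι : normalizer (H : Set G) → G := Subtype.val
  let T' : Set (normalizer (H : Set G)) := ι ⁻¹' T
  have hT' : T'.Finite := hT.preimage Subtype.val_injective.injOn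
  have hTT' : ι '' T' = T := by
    ext x
    constructor
    · rintro ⟨y, hy, rfl⟩
      exact hy
    · intro hx
      exact ⟨⟨x, hTN x hx⟩, hx, rfl⟩
  have h1 := hQ.dagger hq (π '' T').ncard (π '' T') (hT'.image π) (le_refl _) (by
    rintro _ ⟨y, hy, rfl⟩
    rw [← map_pow, ← MonoidHom.mem_ker, QuotientGroup.ker_mk']
    exact hTq y.1 hy)
  rw [← MonoidHom.map_closure, Subgroup.coe_map] at h1
  have hker : (π.ker : Set (normalizer (H : Set G))).Finite := by
    rw [QuotientGroup.ker_mk']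
    exact hH.preimage (f := (Subtype.val : normalizer (H : Set G) → G))
      (Subtype.val_injective.injOn)
  have h2 : ((closure T' : Subgroup (normalizer (H : Set G))) :
      Set (normalizer (H : Set G))).Finite := by
    refine (h1.preimage' (f := π) fun b hb => ?_).subset (Set.subset_preimage_image π _)
    obtain ⟨g, _, rfl⟩ := hb
    refine (hker.image (fun z => g * z)).subset ?_
    intro z hz
    refine ⟨g⁻¹ * z, ?_, by simp⟩
    have hz' : π z = π g := hz
    show g⁻¹ * z ∈ π.ker
    rw [MonoidHom.mem_ker, map_mul, map_inv, hz', inv_mul_cancel]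
  have h3 : closure T = (closure T').map (normalizer (H : Set G)).subtype := by
    rw [MonoidHom.map_closure]
    congr 1
    exact hTT'.symm
  rw [h3, Subgroup.coe_map]
  exact h2.image _

end Pool.Agent.Lib.MP_032401_al
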