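import Pool.Agent.Lib.MP_032401_al.Basic

/-!
# MP_032401_al: finite abelian subgroups on which an element acts without fixed points
-/

set_option autoImplicit false

namespace Pool.Agent.Lib.MP_032401_al

open Subgroup
open scoped commutatorElement

variable {G : Type} [Group G]

/-- `N` is a finite abelian subgroup, normalised by `t`, and `C_N(t) = 1`. -/
structure Fpf (t : G) (N : Subgroup G) : Prop where
  fin : (N : Set G).Finite
  comm : ∀ a ∈ N, ∀ b ∈ N, a * b = b * a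
  inv : ∀ a ∈ N, t * a * t⁻¹ ∈ N
  fix : ∀ a ∈ N, a * t = t * a → a = 1

theorem mem_of_pow_mem {D : Subgroup G} {x : G} {a b : ℕ} (ha : x ^ a ∈ D) (hb : x ^ b ∈ D)
    (hab : Nat.Coprime a b) : x ∈ D := by
  have h := Nat.gcd_eq_gcd_ab a b
  rw [hab] at h
  have h2 : x = (x ^ a) ^ (a.gcdA b) * (x ^ b) ^ (a.gcdB b) := by
    rw [← zpow_natCast x a, ← zpow_natCast x b, ← zpow_mul, ← zpow_mul, ← zpow_add, ← h]
    simp
  rw [h2]
  exact D.mul_mem (D.zpow_mem ha _) (D.zpow_mem hb _)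

theorem eq_one_of_pow {x : G} {a b : ℕ} (ha : x ^ a = 1) (hb : x ^ b = 1)
    (hab : Nat.Coprime a b) : x = 1 := by
  have h := mem_of_pow_mem (D := (⊥ : Subgroup G)) (x := x) (a := a) (b := b)
    (by rw [Subgroup.mem_bot]; exact ha) (by rw [Subgroup.mem_bot]; exact hb) hab
  exact Subgroup.mem_bot.1 h

/-- conjugation is onto on finite invariant subgroups -/
theorem inv_of_finite {N : Subgroup G} {t : G} (hfin : (N : Set G).Finite)
    (h : ∀ a ∈ N, t * a * t⁻¹ ∈ N) : ∀ a ∈ N, t⁻¹ * a * t ∈ N := by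
  have hf : Finite N := hfin.to_subtype
  let f : N → N := fun a => ⟨t * a.1 * t⁻¹, h a.1 a.2⟩
  have hinj : Function.Injective f := by
    intro a b hab
    have h1 : t * a.1 * t⁻¹ = t * b.1 * t⁻¹ := congrArg Subtype.val hab
    exact Subtype.ext (mul_left_cancel (mul_right_cancel h1))
  have hsur := Finite.surjective_of_injective hinj
  intro a ha
  obtain ⟨b, hb⟩ := hsur ⟨a, ha⟩
  have h1 : t * b.1 * t⁻¹ = a := congrArg Subtype.val hb
  have h2 : t⁻¹ * a * t = b.1 := by rw [← h1]; group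
  rw [h2]
  exact b.2

theorem comm_hom {N : Subgroup G} {t : G} (hc : ∀ a ∈ N, ∀ b ∈ N, a * b = b * a)
    (h : ∀ a ∈ N, t * a * t⁻¹ ∈ N) {a b : G} (ha : a ∈ N) (hb : b ∈ N) :
    ⁅a * b, t⁆ = ⁅a, t⁆ * ⁅b, t⁆ := by
  rw [commutatorElement_def, commutatorElement_def, commutatorElement_def]
  have h1 : t * a⁻¹ * t⁻¹ ∈ N := h _ (N.inv_mem ha)
  have h2 : t * b⁻¹ * t⁻¹ ∈ N := h _ (N.inv_mem hb)
  have h3 : b * (t * b⁻¹ * t⁻¹) * (t * a⁻¹ * t⁻¹) = (t * a⁻¹ * t⁻¹) * (b * (t * b⁻¹ * t⁻¹)) :=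
    hc _ (N.mul_mem hb h2) _ h1
  calc a * b * t * (a * b)⁻¹ * t⁻¹ = a * (b * (t * b⁻¹ * t⁻¹) * (t * a⁻¹ * t⁻¹)) := by group
    _ = a * ((t * a⁻¹ * t⁻¹) * (b * (t * b⁻¹ * t⁻¹))) := by rw [h3]
    _ = a * t * a⁻¹ * t⁻¹ * (b * t * b⁻¹ * t⁻¹) := by group

theorem comm_mem {N : Subgroup G} {t : G} (h : ∀ a ∈ N, t * a * t⁻¹ ∈ N) {a : G} (ha : a ∈ N) :
    ⁅a, t⁆ ∈ N := by
  have h1 := N.mul_mem ha (h _ (N.inv_mem ha))
  have h2 : ⁅a, t⁆ = a * (t * a⁻¹ * t⁻¹) := by rw [commutatorElement_def]; group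
  rw [h2]
  exact h1

/-- no fixed points if and only if every element is a commutator with `t` -/
theorem surj_of_fix {N : Subgroup G} {t : G} (hfin : (N : Set G).Finite)
    (hc : ∀ a ∈ N, ∀ b ∈ N, a * b = b * a) (h : ∀ a ∈ N, t * a * t⁻¹ ∈ N)
    (hfix : ∀ a ∈ N, a * t = t * a → a = 1) : ∀ a ∈ N, ∃ b ∈ N, ⁅b, t⁆ = a := by
  have hf : Finite N := hfin.to_subtype
  let f : N → N := fun a => ⟨⁅a.1, t⁆, comm_mem h a.2⟩
  have hinj : Function.Injective f := by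
    intro a b hab
    have h1 : ⁅a.1, t⁆ = ⁅b.1, t⁆ := congrArg Subtype.val hab
    have h2 := comm_hom hc h (N.mul_mem a.2 (N.inv_mem b.2)) b.2
    rw [inv_mul_cancel_right, h1] at h2
    have h3 : ⁅a.1 * b.1⁻¹, t⁆ = 1 := by
      have h4 : ⁅a.1 * b.1⁻¹, t⁆ * ⁅b.1, t⁆ = 1 * ⁅b.1, t⁆ := by rw [one_mul]; exact h2.symm
      exact mul_right_cancel h4
    have h5 := hfix _ (N.mul_mem a.2 (N.inv_mem b.2)) (commutatorElement_eq_one_iff_mul_comm.1 h3)
    exact Subtype.ext (mul_inv_eq_one.1 h5)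
  have hsur := Finite.surjective_of_injective hinj
  intro a ha
  obtain ⟨b, hb⟩ := hsur ⟨a, ha⟩
  exact ⟨b.1, b.2, congrArg Subtype.val hb⟩

theorem fix_of_surj {N : Subgroup G} {t : G} (hfin : (N : Set G).Finite)
    (h : ∀ a ∈ N, t * a * t⁻¹ ∈ N)
    (hs : ∀ a ∈ N, ∃ b ∈ N, ⁅b, t⁆ = a) : ∀ a ∈ N, a * t = t * a → a = 1 := by
  have hf : Finite N := hfin.to_subtype
  let f : N → N := fun a => ⟨⁅a.1, t⁆, comm_mem h a.2⟩
  have hsur : Function.Surjective f := by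
    intro a
    obtain ⟨b, hb, hba⟩ := hs a.1 a.2
    exact ⟨⟨b, hb⟩, Subtype.ext hba⟩
  have hinj := Finite.injective_iff_surjective.2 hsur
  intro a ha hat
  have h1 : f ⟨a, ha⟩ = f 1 := by
    apply Subtype.ext
    show ⁅a, t⁆ = ⁅(1 : G), t⁆
    rw [commutatorElement_one_left, commutatorElement_eq_one_iff_mul_comm.2 hat]
  exact congrArg Subtype.val (hinj h1)

namespace Fpf

variable {t : G} {N : Subgroup G}

theorem surj (h : Fpf t N) : ∀ a ∈ N, ∃ b ∈ N, ⁅b, t⁆ = a := surj_of_fix h.fin h.comm h.inv h.fix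

theorem inv' (h : Fpf t N) : ∀ a ∈ N, t⁻¹ * a * t ∈ N := inv_of_finite h.fin h.inv

theorem conj (h : Fpf t N) : ∀ a ∈ N, ∃ n ∈ N, n * t * n⁻¹ = a * t := by
  intro a ha
  obtain ⟨n, hn, hna⟩ := h.surj a ha
  refine ⟨n, hn, ?_⟩
  rw [← hna, commutatorElement_def]
  group

theorem pow (h : Fpf t N) {n : ℕ} (ht : t ^ n = 1) {a : G} (ha : a ∈ N) : (a * t) ^ n = 1 := by
  obtain ⟨m, _, hm⟩ := h.conj a ha
  rw [← hm, conj_pow, ht]
  group

theorem mul_left (h : Fpf t N) {a : G} (ha : a ∈ N) : Fpf (a * t) N where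
  fin := h.fin
  comm := h.comm
  inv b hb := by
    have h1 := N.mul_mem (N.mul_mem ha (h.inv b hb)) (N.inv_mem ha)
    have h2 : a * t * b * (a * t)⁻¹ = a * (t * b * t⁻¹) * a⁻¹ := by group
    rw [h2]
    exact h1
  fix b hb hbt := by
    apply h.fix b hb
    have h1 := h.comm b hb a ha
    have h2 : a * (b * t) = a * (t * b) := by
      calc a * (b * t) = (a * b) * t := by group
        _ = (b * a) * t := by rw [h1]
        _ = b * (a * t) := by group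
        _ = a * t * b := hbt
        _ = a * (t * b) := by group
    exact mul_left_cancel h2

theorem of_le (h : Fpf t N) {M : Subgroup G} (hM : M ≤ N) (hi : ∀ a ∈ M, t * a * t⁻¹ ∈ M) :
    Fpf t M where
  fin := h.fin.subset hM
  comm a ha b hb := h.comm a (hM ha) b (hM hb)
  inv := hi
  fix a ha := h.fix a (hM ha)

theorem one_eq (h : Fpf (1 : G) N) : ∀ a ∈ N, a = 1 := fun a ha => h.fix a ha (by simp)

/-- conjugates -/
theorem conjg (h : Fpf t N) (g : G) : Fpf (g * t * g⁻¹) (N.map (MulAut.conj g).toMonoidHom) where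
  fin := by rw [Subgroup.coe_map]; exact h.fin.image _
  comm := by
    rintro _ ⟨a, ha, rfl⟩ _ ⟨b, hb, rfl⟩
    rw [← map_mul, ← map_mul, h.comm a ha b hb]
  inv := by
    rintro _ ⟨a, ha, rfl⟩
    refine ⟨t * a * t⁻¹, h.inv a ha, ?_⟩
    show g * (t * a * t⁻¹) * g⁻¹ = g * t * g⁻¹ * (g * a * g⁻¹) * (g * t * g⁻¹)⁻¹
    group
  fix := by
    rintro _ ⟨a, ha, rfl⟩ hat
    have h1 : g * a * g⁻¹ * (g * t * g⁻¹) = g * t * g⁻¹ * (g * a * g⁻¹) := hat
    have h2 : a * t = t * a := by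
      have h3 : g * (a * t) * g⁻¹ = g * (t * a) * g⁻¹ := by
        calc g * (a * t) * g⁻¹ = g * a * g⁻¹ * (g * t * g⁻¹) := by group
          _ = g * t * g⁻¹ * (g * a * g⁻¹) := h1
          _ = g * (t * a) * g⁻¹ := by group
      exact mul_left_cancel (mul_right_cancel h3)
    show g * a * g⁻¹ = 1
    rw [h.fix a ha h2]
    group

end Fpf

end Pool.Agent.Lib.MP_032401_al
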