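import Pool.Agent.Lib.MP_032401_al.Reduce

/-!
# MP_032401_al: good pairs
-/

set_option autoImplicit false

namespace Pool.Agent.Lib.MP_032401_al

open Subgroup
open scoped commutatorElement

variable {G : Type} [Group G]

theorem pow_mem_der {x y : G} {p : ℕ} (hx : x ^ p = 1) (hy : y ^ p = 1) :
    ∀ k ∈ closure {x, y}, k ^ p ∈ ⁅closure {x, y}, closure {x, y}⁆ := by
  have hKN := le_normalizer_der (closure {x, y})
  intro k hk
  induction hk using closure_induction with
  | mem z hz =>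
    rcases hz with rfl | hz
    · rw [hx]; exact one_mem _
    · rw [Set.mem_singleton_iff] at hz
      rw [hz, hy]; exact one_mem _
  | one => rw [one_pow]; exact one_mem _
  | mul a b ha hb iha ihb =>
    obtain ⟨d, hd, h1⟩ := mul_pow_mod (hKN ha) (hKN hb)
      (Subgroup.commutator_mem_commutator ha hb) p
    rw [h1]
    exact mul_mem hd (mul_mem iha ihb)
  | inv a ha iha => rw [inv_pow]; exact inv_mem iha

/-- finite `s`-groups are abelian, in a convenient form -/
theorem Cls.pgroup_comm (hG : Cls G) {s : ℕ} (hs : s.Prime) {V : Subgroup G}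
    (hV : (V : Set G).Finite) (hVs : ∀ v ∈ V, ∃ k : ℕ, v ^ s ^ k = 1) {a : G}
    (ha : ∃ k : ℕ, a ^ s ^ k = 1) (hn : ∀ v ∈ V, a * v * a⁻¹ ∈ V) : ∀ v ∈ V, v * a = a * v := by
  have hN : zpowers a ≤ normalizer (V : Set G) := zpowers_le_normalizer hV hn
  have hL := sup_finite hV (hG.per a).finite_zpowers hN
  obtain ⟨k, hk⟩ := ha
  have hLs : ∀ x ∈ V ⊔ zpowers a, ∃ j : ℕ, x ^ s ^ j = 1 := by
    intro x hx
    have hx' : x ∈ ((V ⊔ zpowers a : Subgroup G) : Set G) := hx
    rw [Subgroup.coe_mul_of_right_le_normalizer_left V (zpowers a) hN] at hx'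
    obtain ⟨v, hv, b, hb, rfl⟩ := hx'
    have hbN := hN hb
    have hvN : v ∈ normalizer (V : Set G) := le_normalizer hv
    have hc : ⁅v, b⁆ ∈ V := by
      have h1 : ⁅v, b⁆ = v * (b * v⁻¹ * b⁻¹) := by rw [commutatorElement_def]; group
      rw [h1]
      exact V.mul_mem hv ((mem_normalizer_iff.1 hbN _).1 (V.inv_mem hv))
    obtain ⟨d, hd, h1⟩ := mul_pow_mod hvN hbN hc (s ^ k)
    have hb1 : b ^ s ^ k = 1 := by
      obtain ⟨i, rfl⟩ := hb
      show (a ^ i) ^ s ^ k = 1
      rw [← zpow_natCast, ← zpow_mul, mul_comm, zpow_mul, zpow_natCast, hk, one_zpow]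
    rw [hb1, mul_one] at h1
    obtain ⟨j, hj⟩ := hVs _ (V.mul_mem hd (V.pow_mem hv (s ^ k)))
    refine ⟨k + j, ?_⟩
    show (v * b) ^ s ^ (k + j) = 1
    rw [pow_add, pow_mul, h1, hj]
  intro v hv
  exact hG.abp s hs _ hL hLs v ((le_sup_left : V ≤ V ⊔ zpowers a) hv) a
    ((le_sup_right : zpowers a ≤ V ⊔ zpowers a) (mem_zpowers a))

theorem Fpf.prime_ne (hG : Cls G) {p s : ℕ} (hp : p.Prime) {t : G}
    (ht : t ^ p = 1) {N : Subgroup G} (hN : Fpf t N) (hs : ∀ a ∈ N, a ^ s = 1) (hne : N ≠ ⊥) :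
    s ≠ p := by
  rintro rfl
  apply hne
  rw [eq_bot_iff]
  intro a ha
  rw [Subgroup.mem_bot]
  apply hN.fix a ha
  exact hG.pgroup_comm hp hN.fin (fun v hv => ⟨1, by rw [pow_one]; exact hs v hv⟩)
    ⟨1, by rw [pow_one]; exact ht⟩ hN.inv a ha

/-- the subgroup of the commutators of the derived subgroup with one element -/
theorem Cls.exists_dsub (hG : Cls G) {K : Subgroup G} (hK : (K : Set G).Finite) {u : G}
    (hu : u ∈ K) : ∃ D : Subgroup G, D ≤ ⁅K, K⁆ ∧ K ≤ normalizer (D : Set G) ∧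
      ∀ d, d ∈ D ↔ ∃ k ∈ ⁅K, K⁆, ⁅k, u⁆ = d := by
  have hAc := hG.der_comm hK
  have hinv : ∀ a ∈ ⁅K, K⁆, u * a * u⁻¹ ∈ ⁅K, K⁆ := fun a ha => der_conj hu ha
  let D : Subgroup G :=
    { carrier := {d | ∃ k ∈ ⁅K, K⁆, ⁅k, u⁆ = d}
      one_mem' := ⟨1, one_mem _, commutatorElement_one_left u⟩
      mul_mem' := by
        rintro _ _ ⟨k, hk, rfl⟩ ⟨l, hl, rfl⟩
        exact ⟨k * l, mul_mem hk hl, comm_hom hAc hinv hk hl⟩
      inv_mem' := by
        rintro _ ⟨k, hk, rfl⟩
        refine ⟨k⁻¹, inv_mem hk, ?_⟩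
        have h1 := comm_hom hAc hinv hk (inv_mem hk)
        rw [mul_inv_cancel, commutatorElement_one_left] at h1
        exact eq_inv_of_mul_eq_one_right h1.symm }
  have hDmem : ∀ d, d ∈ D ↔ ∃ k ∈ ⁅K, K⁆, ⁅k, u⁆ = d := fun d => Iff.rfl
  refine ⟨D, ?_, ?_, hDmem⟩
  · rintro _ ⟨k, hk, rfl⟩
    exact comm_mem hinv hk
  · rw [Subgroup.le_normalizer_iff]
    rintro g hg _ ⟨k, hk, rfl⟩
    rw [hDmem]
    refine ⟨g * k * g⁻¹, der_conj hg hk, ?_⟩
    have hm : ⁅g, u⁆ ∈ ⁅K, K⁆ := Subgroup.commutator_mem_commutator hg hu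
    have hk' : g * k * g⁻¹ ∈ ⁅K, K⁆ := der_conj hg hk
    have h1 : g * ⁅k, u⁆ * g⁻¹ = ⁅g * k * g⁻¹, ⁅g, u⁆ * u⁆ := by
      simp only [commutatorElement_def]; group
    have h2 : ⁅g * k * g⁻¹, ⁅g, u⁆ * u⁆ = ⁅g * k * g⁻¹, u⁆ := by
      have h3 := hAc _ hm _ (mul_mem hk' (hinv _ (inv_mem hk')))
      calc ⁅g * k * g⁻¹, ⁅g, u⁆ * u⁆
          = (g * k * g⁻¹ * ⁅g, u⁆) * (u * (g * k * g⁻¹)⁻¹ * u⁻¹) * ⁅g, u⁆⁻¹ := by
            rw [commutatorElement_def (g * k * g⁻¹)]; group
        _ = (⁅g, u⁆ * (g * k * g⁻¹)) * (u * (g * k * g⁻¹)⁻¹ * u⁻¹) * ⁅g, u⁆⁻¹ := by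
            rw [hAc _ hk' _ hm]
        _ = ⁅g, u⁆ * ((g * k * g⁻¹) * (u * (g * k * g⁻¹)⁻¹ * u⁻¹)) * ⁅g, u⁆⁻¹ := by group
        _ = ((g * k * g⁻¹) * (u * (g * k * g⁻¹)⁻¹ * u⁻¹)) * ⁅g, u⁆ * ⁅g, u⁆⁻¹ := by rw [h3]
        _ = ⁅g * k * g⁻¹, u⁆ := by rw [commutatorElement_def (g * k * g⁻¹)]; group
    rw [h1, h2]

/-- two elements of different prime orders -/
theorem Cls.coprime_pair (hG : Cls G) {s s' : ℕ} (hs : s.Prime) (hs' : s'.Prime) (hne : s ≠ s')
    {a b : G} (ha : a ^ s = 1) (hb : b ^ s' = 1) : (b * a⁻¹) ^ (s * s') = 1 := by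
  set J : Subgroup G := closure {a, b} with hJdef
  have hJ : (J : Set G).Finite := hG.pair hs hs' ha hb
  have haJ : a ∈ J := subset_closure (by simp)
  have hbJ : b ∈ J := subset_closure (by simp)
  have hcJ : b * a⁻¹ ∈ J := mul_mem hbJ (inv_mem haJ)
  have hAfin : ((⁅J, J⁆ : Subgroup G) : Set G).Finite := hJ.subset (der_le J)
  have hAc := hG.der_comm hJ
  have hJN := le_normalizer_der J
  obtain ⟨D, hDle, hJD, hD⟩ := hG.exists_dsub hJ hcJ
  have hba : ⁅b, a⁻¹⁆ ∈ ⁅J, J⁆ := Subgroup.commutator_mem_commutator hbJ (inv_mem haJ)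
  -- generators modulo the derived subgroup
  let S : Set G := {b * a⁻¹} ∪ ((⁅J, J⁆ : Subgroup G) : Set G)
  have hAS : ⁅J, J⁆ ≤ closure S := fun x hx => subset_closure (Or.inr hx)
  have hcS : b * a⁻¹ ∈ closure S := subset_closure (Or.inl rfl)
  have haS : a ∈ closure S := by
    obtain ⟨d, hd, h1⟩ := mul_pow_mod (hJN hbJ) (hJN (inv_mem haJ)) hba s'
    rw [hb, one_mul, inv_pow] at h1
    have h2 : a ^ s' ∈ closure S := by
      have h3 : a ^ s' = ((b * a⁻¹) ^ s')⁻¹ * d := by rw [h1]; group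
      rw [h3]
      exact mul_mem (inv_mem (pow_mem hcS _)) (hAS hd)
    refine mem_of_pow_mem (a := s) (b := s') (by rw [ha]; exact one_mem _) h2 ?_
    exact (Nat.coprime_primes hs hs').2 hne
  have hbS : b ∈ closure S := by
    have h1 : b = b * a⁻¹ * a := by group
    rw [h1]
    exact mul_mem hcS haS
  have hJS : J ≤ closure S := by
    rw [hJdef, closure_le]
    rintro x (rfl | hx)
    · exact haS
    · rw [Set.mem_singleton_iff] at hx
      rw [hx]; exact hbS
  have hcomm : ∀ x ∈ closure S, ∀ y ∈ closure S, ⁅x, y⁆ ∈ D := by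
    have hkc : ∀ k ∈ ⁅J, J⁆, ⁅k, b * a⁻¹⁆ ∈ D := fun k hk => (hD _).2 ⟨k, hk, rfl⟩
    apply comm_mod
    · rintro x (hx | hx)
      · rw [Set.mem_singleton_iff] at hx
        rw [hx]; exact hJD hcJ
      · exact hJD (der_le J hx)
    · rintro x (hx | hx) y (hy | hy)
      · rw [Set.mem_singleton_iff] at hx hy
        rw [hx, hy, commutatorElement_self]; exact one_mem _
      · rw [Set.mem_singleton_iff] at hx
        rw [hx, ← commutatorElement_inv]
        exact inv_mem (hkc y hy)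
      · rw [Set.mem_singleton_iff] at hy
        rw [hy]
        exact hkc x hx
      · rw [commutatorElement_eq_one_iff_mul_comm.2 (hAc x hx y hy)]
        exact one_mem _
  have hAD : ⁅J, J⁆ ≤ D := by
    rw [Subgroup.commutator_le]
    exact fun x hx y hy => hcomm x (hJS hx) y (hJS hy)
  have hfix := fix_of_surj hAfin (fun x hx => der_conj hcJ hx) (fun x hx => (hD x).1 (hAD hx))
  apply hfix
  · obtain ⟨d, hd, h1⟩ := mul_pow_mod (hJN hbJ) (hJN (inv_mem haJ)) hba (s * s')
    rw [h1, inv_pow, pow_mul a, ha, one_pow, inv_one, mul_one, mul_comm s s', pow_mul, hb,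
      one_pow, mul_one]
    exact hd
  · exact ((Commute.refl (b * a⁻¹)).pow_left _).eq

/-- the relation for a good pair -/
theorem Cls.rel (hG : Cls G) {p : ℕ} (hp : p.Prime) {t : G} (ht : t ^ p = 1) {N N' : Subgroup G}
    (hN : Fpf t N) (hN' : Fpf t N') {a b : G} (ha : a ∈ N) (hb : b ∈ N')
    (hgood : ∃ m : ℕ, ¬ p ∣ m ∧ (b * a) ^ m = 1) :
    ⁅t * a * t⁻¹, b⁆ = ⁅a⁻¹, (t * b * t⁻¹)⁻¹⁆ := by
  have hat : (a⁻¹ * t) ^ p = 1 := hN.pow ht (N.inv_mem ha)
  have hbt : (b * t) ^ p = 1 := hN'.pow ht hb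
  have hK : ((closure {a⁻¹ * t, b * t} : Subgroup G) : Set G).Finite := hG.pair hp hp hat hbt
  have haK : a⁻¹ * t ∈ closure {a⁻¹ * t, b * t} := subset_closure (by simp)
  have hbK : b * t ∈ closure {a⁻¹ * t, b * t} := subset_closure (by simp)
  have hcK : b * a ∈ closure {a⁻¹ * t, b * t} := by
    have h1 : b * a = (b * t) * (a⁻¹ * t)⁻¹ := by group
    rw [h1]
    exact mul_mem hbK (inv_mem haK)
  obtain ⟨m, hm, hcm⟩ := hgood
  have hc := mem_of_pow_mem (pow_mem_der hat hbt _ hcK) (b := m) (by rw [hcm]; exact one_mem _)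
    ((hp.coprime_iff_not_dvd).2 hm)
  have h1 := hG.der_comm hK _ hc _ (der_conj haK hc)
  have h2 : t * a * t⁻¹ * a = a * (t * a * t⁻¹) := hN.comm _ (hN.inv a ha) _ ha
  have h3 : b * (t * b * t⁻¹) = t * b * t⁻¹ * b := hN'.comm _ hb _ (hN'.inv b hb)
  have h4 : a * (t * b * t⁻¹) * b * (t * a * t⁻¹) = (t * b * t⁻¹) * a * (t * a * t⁻¹) * b := by
    calc a * (t * b * t⁻¹) * b * (t * a * t⁻¹)
        = a * (t * b * t⁻¹ * b) * (t * a * t⁻¹) := by group
      _ = a * (b * (t * b * t⁻¹)) * (t * a * t⁻¹) := by rw [h3]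
      _ = a * (b * a * (a⁻¹ * t * (b * a) * (a⁻¹ * t)⁻¹)) * a⁻¹ := by group
      _ = a * (a⁻¹ * t * (b * a) * (a⁻¹ * t)⁻¹ * (b * a)) * a⁻¹ := by rw [h1]
      _ = (t * b * t⁻¹) * (t * a * t⁻¹ * a) * b := by group
      _ = (t * b * t⁻¹) * a * (t * a * t⁻¹) * b := by rw [h2]; group
  rw [commutatorElement_def, commutatorElement_def]
  calc t * a * t⁻¹ * b * (t * a * t⁻¹)⁻¹ * b⁻¹
      = ((t * b * t⁻¹) * a)⁻¹ * ((t * b * t⁻¹) * a * (t * a * t⁻¹) * b) *
        (b * (t * a * t⁻¹))⁻¹ := by group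
    _ = ((t * b * t⁻¹) * a)⁻¹ * (a * (t * b * t⁻¹) * b * (t * a * t⁻¹)) *
        (b * (t * a * t⁻¹))⁻¹ := by rw [h4]
    _ = a⁻¹ * (t * b * t⁻¹)⁻¹ * a⁻¹⁻¹ * ((t * b * t⁻¹)⁻¹)⁻¹ := by group

/-- iteration of the relation -/
theorem iter_rel {p : ℕ} (hp : Odd p) {t : G} (ht : t ^ p = 1) {N N' : Subgroup G}
    (hN : Fpf t N) (hN' : Fpf t N')
    (h : ∀ a ∈ N, ∀ b ∈ N', ⁅t * a * t⁻¹, b⁆ = ⁅a⁻¹, (t * b * t⁻¹)⁻¹⁆) :
    ∀ a ∈ N, ∀ b ∈ N', ⁅a, b⁆ = ⁅a⁻¹, b⁻¹⁆ := by
  obtain ⟨j, hj⟩ := hp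
  have hinvN : ∀ k : ℕ, ∀ a ∈ N, t ^ k * a * (t ^ k)⁻¹ ∈ N := by
    intro k
    induction k with
    | zero => intro a ha; simpa using ha
    | succ k ih =>
      intro a ha
      have h1 := hN.inv _ (ih a ha)
      have h2 : t ^ (k + 1) * a * (t ^ (k + 1))⁻¹ = t * (t ^ k * a * (t ^ k)⁻¹) * t⁻¹ := by
        rw [pow_succ']; group
      rw [h2]; exact h1
  have hinvN' : ∀ k : ℕ, ∀ a ∈ N', t ^ k * a * (t ^ k)⁻¹ ∈ N' := by
    intro k
    induction k with
    | zero => intro a ha; simpa using ha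
    | succ k ih =>
      intro a ha
      have h1 := hN'.inv _ (ih a ha)
      have h2 : t ^ (k + 1) * a * (t ^ (k + 1))⁻¹ = t * (t ^ k * a * (t ^ k)⁻¹) * t⁻¹ := by
        rw [pow_succ']; group
      rw [h2]; exact h1
  have htwo : ∀ a ∈ N, ∀ b ∈ N', ⁅t * (t * a * t⁻¹) * t⁻¹, b⁆ = ⁅a, t * (t * b * t⁻¹) * t⁻¹⁆ := by
    intro a ha b hb
    rw [h _ (hN.inv a ha) b hb]
    have h1 : (t * a * t⁻¹)⁻¹ = t * a⁻¹ * t⁻¹ := by group
    rw [h1, h _ (N.inv_mem ha) _ (N'.inv_mem (hN'.inv b hb))]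
    have h2 : (t * (t * b * t⁻¹)⁻¹ * t⁻¹)⁻¹ = t * (t * b * t⁻¹) * t⁻¹ := by simp [mul_assoc]
    rw [h2, inv_inv]
  have hiter : ∀ k : ℕ, ∀ a ∈ N, ∀ b ∈ N',
      ⁅t ^ (2 * k) * a * (t ^ (2 * k))⁻¹, b⁆ = ⁅a, t ^ (2 * k) * b * (t ^ (2 * k))⁻¹⁆ := by
    intro k
    induction k with
    | zero => intro a _ b _; simp
    | succ k ih =>
      intro a ha b hb
      have e1 : t ^ (2 * (k + 1)) * a * (t ^ (2 * (k + 1)))⁻¹ =
          t * (t * (t ^ (2 * k) * a * (t ^ (2 * k))⁻¹) * t⁻¹) * t⁻¹ := by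
        rw [show 2 * (k + 1) = 2 * k + 1 + 1 by ring, pow_succ', pow_succ']; group
      have e2 : t ^ (2 * (k + 1)) * b * (t ^ (2 * (k + 1)))⁻¹ =
          t ^ (2 * k) * (t * (t * b * t⁻¹) * t⁻¹) * (t ^ (2 * k))⁻¹ := by
        rw [show 2 * (k + 1) = 2 * k + 1 + 1 by ring, pow_succ, pow_succ]; group
      rw [e1, htwo _ (hinvN _ a ha) b hb, e2]
      exact ih a ha _ (hN'.inv _ (hN'.inv b hb))
  intro a ha b hb
  have h5 : t ^ (2 * j) = t⁻¹ := by
    rw [hj, pow_succ] at ht
    exact eq_inv_of_mul_eq_one_left ht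
  have h6 := hiter j (t * a * t⁻¹) (hN.inv a ha) b hb
  rw [h5] at h6
  have e3 : t⁻¹ * (t * a * t⁻¹) * t⁻¹⁻¹ = a := by group
  rw [e3] at h6
  rw [h6]
  have hb' : t⁻¹ * b * t⁻¹⁻¹ ∈ N' := by rw [inv_inv]; exact hN'.inv' b hb
  rw [h a ha _ hb']
  congr 1
  group

theorem odd_engel {a b : G} {k : ℕ} (hk : a ^ (2 * k + 1) = 1) (h1 : ⁅a, b⁆ = ⁅a⁻¹, b⁻¹⁆)
    (h2 : ⁅a ^ 2, b⁆ = ⁅(a ^ 2)⁻¹, b⁻¹⁆) : Commute a (b * a * b⁻¹) := by
  have key : ∀ x : G, ⁅x, b⁆ = ⁅x⁻¹, b⁻¹⁆ → x * x = (b⁻¹ * x * b) * (b * x * b⁻¹) := by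
    intro x hx
    simp only [commutatorElement_def, inv_inv] at hx
    calc x * x = x * (x * b * x⁻¹ * b⁻¹) * (b * x * b⁻¹) := by group
      _ = x * (x⁻¹ * b⁻¹ * x * b) * (b * x * b⁻¹) := by rw [hx]
      _ = (b⁻¹ * x * b) * (b * x * b⁻¹) := by group
  have k1 := key a h1
  have k2 := key (a ^ 2) h2
  set P := b * a * b⁻¹ with hP
  set Q := b⁻¹ * a * b with hQ
  have e1 : b⁻¹ * a ^ 2 * b = Q * Q := by rw [hQ, sq]; group
  have e2 : b * a ^ 2 * b⁻¹ = P * P := by rw [hP, sq]; group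
  have e3 : a ^ 2 * a ^ 2 = Q * P * (Q * P) := by rw [← k1, sq]
  rw [e1, e2, e3] at k2
  have hPQ : P * Q = Q * P := by
    have h3 : Q * (P * Q) * P = Q * (Q * P) * P := by
      calc Q * (P * Q) * P = Q * P * (Q * P) := by group
        _ = Q * Q * (P * P) := k2
        _ = Q * (Q * P) * P := by group
    exact mul_left_cancel (mul_right_cancel h3)
  have hc : Commute (a * a) P := by
    rw [k1]
    show Q * P * P = P * (Q * P)
    calc Q * P * P = P * Q * P := by rw [hPQ]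
      _ = P * (Q * P) := by group
  have ha : a = (a * a) ^ (k + 1) := by
    rw [← sq, ← pow_mul, show 2 * (k + 1) = (2 * k + 1) + 1 by ring, pow_succ, hk, one_mul]
  rw [ha]
  exact hc.pow_left _

/-- the conclusion for good pairs when one of the two primes is odd -/
theorem Cls.good_comm (hG : Cls G) {s s' : ℕ} (hs : s.Prime) (hs' : s'.Prime)
    (h22 : ¬ (s = 2 ∧ s' = 2)) {N N' : Subgroup G} (he : ∀ a ∈ N, a ^ s = 1)
    (he' : ∀ b ∈ N', b ^ s' = 1) (h : ∀ a ∈ N, ∀ b ∈ N', ⁅a, b⁆ = ⁅a⁻¹, b⁻¹⁆) : Comm2 N N' := by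
  have h' : ∀ b ∈ N', ∀ a ∈ N, ⁅b, a⁆ = ⁅b⁻¹, a⁻¹⁆ := by
    intro b hb a ha
    rw [← commutatorElement_inv, h a ha b hb, commutatorElement_inv]
  have two : ∀ {x y : G} {k : ℕ}, x ^ 2 = 1 → y ^ (2 * k + 1) = 1 → ⁅x, y⁆ = ⁅x⁻¹, y⁻¹⁆ →
      Commute x y := by
    intro x y k hx hy hxy
    have hx' : x⁻¹ = x := by
      rw [sq] at hx
      exact inv_eq_of_mul_eq_one_left hx
    rw [hx'] at hxy
    simp only [commutatorElement_def, inv_inv, hx'] at hxy
    have h1 : Commute x (y * y) := by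
      show x * (y * y) = y * y * x
      calc x * (y * y) = y * (x⁻¹ * (x * y⁻¹ * x * y)) * y := by group
        _ = y * (x⁻¹ * (x * y * x * y⁻¹)) * y := by rw [hxy]
        _ = y * y * x := by group
    have h2 : y = (y * y) ^ (k + 1) := by
      rw [← sq, ← pow_mul, show 2 * (k + 1) = (2 * k + 1) + 1 by ring, pow_succ, hy, one_mul]
    rw [h2]
    exact h1.pow_right _
  intro a ha b hb
  rcases hs.eq_two_or_odd' with h2 | hodd
  · rcases hs'.eq_two_or_odd' with h2' | hodd'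
    · exact absurd ⟨h2, h2'⟩ h22
    · obtain ⟨k, hk⟩ := hodd'
      subst h2
      exact two (he a ha) (by rw [← hk]; exact he' b hb) (h a ha b hb)
  · obtain ⟨k, hk⟩ := hodd
    rcases hs'.eq_two_or_odd' with h2' | hodd'
    · subst h2'
      exact (two (he' b hb) (by rw [← hk]; exact he a ha) (h' b hb a ha)).symm.eq
    · obtain ⟨k', hk'⟩ := hodd'
      have c1 : Commute a (b * a * b⁻¹) :=
        odd_engel (by rw [← hk]; exact he a ha) (h a ha b hb) (h _ (N.pow_mem ha 2) b hb)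
      have c2 : Commute b (a * b * a⁻¹) :=
        odd_engel (by rw [← hk']; exact he' b hb) (h' b hb a ha) (h' _ (N'.pow_mem hb 2) a ha)
      set d := ⁅a, b⁆ with hd
      have cda : Commute a d := by
        have e1 : d = a * (b * a * b⁻¹)⁻¹ := by rw [hd, commutatorElement_def]; group
        rw [e1]
        exact (Commute.refl a).mul_right c1.inv_right
      have cdb : Commute b d := by
        have e1 : d = (a * b * a⁻¹) * b⁻¹ := by rw [hd, commutatorElement_def]
        rw [e1]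
        exact c2.mul_right (Commute.refl b).inv_right
      have d1 : d ^ s = 1 := by
        have e2 : ∀ n : ℕ, a ^ n * b = d ^ n * b * a ^ n := by
          intro n
          induction n with
          | zero => simp
          | succ n ih =>
            have e3 : a * b = d * b * a := by rw [hd, commutatorElement_def]; group
            calc a ^ (n + 1) * b = a * (a ^ n * b) := by rw [pow_succ']; group
              _ = a * (d ^ n * b * a ^ n) := by rw [ih]
              _ = (a * d ^ n) * b * a ^ n := by group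
              _ = (d ^ n * a) * b * a ^ n := by rw [(cda.pow_right n).eq]
              _ = d ^ n * (a * b) * a ^ n := by group
              _ = d ^ n * (d * b * a) * a ^ n := by rw [e3]
              _ = d ^ (n + 1) * b * a ^ (n + 1) := by rw [pow_succ, pow_succ' a]; group
        have e4 := e2 s
        rw [he a ha, one_mul, mul_one] at e4
        exact mul_eq_right.1 e4.symm
      have d2 : d ^ s' = 1 := by
        have e2 : ∀ n : ℕ, a * b ^ n = d ^ n * b ^ n * a := by
          intro n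
          induction n with
          | zero => simp
          | succ n ih =>
            have e3 : a * b = d * b * a := by rw [hd, commutatorElement_def]; group
            calc a * b ^ (n + 1) = (a * b ^ n) * b := by rw [pow_succ]; group
              _ = d ^ n * b ^ n * a * b := by rw [ih]
              _ = d ^ n * b ^ n * (a * b) := by group
              _ = d ^ n * (b ^ n * d) * b * a := by rw [e3]; group
              _ = d ^ n * (d * b ^ n) * b * a := by rw [(cdb.pow_left n).eq]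
              _ = d ^ (n + 1) * b ^ (n + 1) * a := by rw [pow_succ, pow_succ b]; group
        have e4 := e2 s'
        rw [he' b hb, mul_one, mul_one] at e4
        exact mul_eq_right.1 e4.symm
      by_cases hss : s = s'
      · subst hss
        -- both primes are equal: a finite s-group
        have hK := hG.pair hs hs (he a ha) (he' b hb)
        have haK : a ∈ closure {a, b} := subset_closure (by simp)
        have hbK : b ∈ closure {a, b} := subset_closure (by simp)
        have hz : ⁅closure {a, b}, closure {a, b}⁆ ≤ zpowers d := by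
          rw [Subgroup.commutator_le]
          apply comm_mod
          · rintro x (rfl | hx)
            · rw [mem_normalizer_iff]
              intro y
              constructor
              · rintro ⟨i, rfl⟩
                have := (cda.zpow_right i).eq
                refine ⟨i, ?_⟩
                show d ^ i = x * d ^ i * x⁻¹
                rw [this, mul_inv_cancel_right]
              · rintro ⟨i, hi⟩
                have h3 := (cda.zpow_right i).eq
                have hi' : d ^ i = x * y * x⁻¹ := hi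
                refine ⟨i, ?_⟩
                show d ^ i = y
                rw [hi'] at h3
                have h4 : x * (x * y * x⁻¹) = x * y := by rw [h3]; group
                rw [hi']
                exact mul_left_cancel h4
            · rw [Set.mem_singleton_iff] at hx
              subst hx
              rw [mem_normalizer_iff]
              intro y
              constructor
              · rintro ⟨i, rfl⟩
                have := (cdb.zpow_right i).eq
                refine ⟨i, ?_⟩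
                show d ^ i = x * d ^ i * x⁻¹
                rw [this, mul_inv_cancel_right]
              · rintro ⟨i, hi⟩
                have h3 := (cdb.zpow_right i).eq
                have hi' : d ^ i = x * y * x⁻¹ := hi
                refine ⟨i, ?_⟩
                show d ^ i = y
                rw [hi'] at h3
                have h4 : x * (x * y * x⁻¹) = x * y := by rw [h3]; group
                rw [hi']
                exact mul_left_cancel h4
          · rintro x (rfl | hx) y (rfl | hy)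
            · rw [commutatorElement_self]; exact one_mem _
            · rw [Set.mem_singleton_iff] at hy
              rw [hy]; exact mem_zpowers d
            · rw [Set.mem_singleton_iff] at hx
              rw [hx, ← commutatorElement_inv]; exact inv_mem (mem_zpowers d)
            · rw [Set.mem_singleton_iff] at hx hy
              rw [hx, hy, commutatorElement_self]; exact one_mem _
        refine hG.abp s hs _ hK ?_ a haK b hbK
        intro x hx
        obtain ⟨i, hi⟩ := hz (pow_mem_der (he a ha) (he' b hb) x hx)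
        refine ⟨2, ?_⟩
        have hi' : d ^ i = x ^ s := hi
        rw [sq, pow_mul, ← hi', ← zpow_natCast, ← zpow_mul, mul_comm, zpow_mul, zpow_natCast, d1,
          one_zpow]
      · have hd1 : d = 1 := eq_one_of_pow d1 d2 ((Nat.coprime_primes hs hs').2 hss)
        exact commutatorElement_eq_one_iff_mul_comm.1 hd1

/-- cyclic subgroups normalised by `t` -/
theorem Cls.comm_cyc (hG : Cls G) {s s' : ℕ} (hs : s.Prime) (hs' : s'.Prime) {t a b : G}
    {N N' : Subgroup G} (hN : Fpf t N) (hN' : Fpf t N') (ha : a ∈ N) (hb : b ∈ N')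
    (has : a ^ s = 1) (hbs : b ^ s' = 1) (hta : t * a * t⁻¹ ∈ zpowers a)
    (htb : t * b * t⁻¹ ∈ zpowers b) : a * b = b * a := by
  have hJ := hG.pair hs hs' has hbs
  have haJ : a ∈ closure {a, b} := subset_closure (by simp)
  have hbJ : b ∈ closure {a, b} := subset_closure (by simp)
  have hcyc : ∀ x : G, t * x * t⁻¹ ∈ zpowers x → ∀ y ∈ zpowers x, t * y * t⁻¹ ∈ zpowers x := by
    rintro x hx _ ⟨i, rfl⟩
    have h1 : t * x ^ i * t⁻¹ = (t * x * t⁻¹) ^ i := (conj_zpow).symm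
    show t * x ^ i * t⁻¹ ∈ zpowers x
    rw [h1]
    exact zpow_mem hx i
  have hinv : ∀ x ∈ closure {a, b}, t * x * t⁻¹ ∈ closure {a, b} := by
    intro x hx
    have h3 : closure {a, b} ≤ (closure {a, b}).comap (MulAut.conj t).toMonoidHom := by
      rw [closure_le]
      rintro y (rfl | hy)
      · exact (zpowers_le.2 haJ) hta
      · rw [Set.mem_singleton_iff] at hy
        rw [hy]
        exact (zpowers_le.2 hbJ) htb
    exact h3 hx
  have hL := sup_finite hJ (hG.per t).finite_zpowers (zpowers_le_normalizer hJ hinv)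
  have h1 := hG.comm_of_fin hL (le_sup_right (a := closure {a, b}) (mem_zpowers t))
    (hN.of_le (zpowers_le.2 ha) (hcyc a hta)) (hN'.of_le (zpowers_le.2 hb) (hcyc b htb))
    ((zpowers_le.2 haJ).trans le_sup_left) ((zpowers_le.2 hbJ).trans le_sup_left)
  exact h1 a (mem_zpowers a) b (mem_zpowers b)

theorem Fpf.inv_of_sq {t : G} (ht : t ^ 2 = 1) {N : Subgroup G} (hN : Fpf t N) :
    ∀ a ∈ N, t * a * t⁻¹ = a⁻¹ := by
  intro a ha
  have h1 := hN.fix (a * (t * a * t⁻¹)) (N.mul_mem ha (hN.inv a ha)) (by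
    have h2 := hN.comm a ha _ (hN.inv a ha)
    have h3 : t⁻¹ = t := by
      rw [sq] at ht
      exact inv_eq_of_mul_eq_one_left ht
    calc a * (t * a * t⁻¹) * t = (t * a * t⁻¹) * a * t := by rw [h2]
      _ = t * a * t * a * t := by rw [h3]
      _ = t * (a * (t * a * t)) := by group
      _ = t * (a * (t * a * t⁻¹)) := by rw [h3])
  exact eq_inv_of_mul_eq_one_right h1

/-- **(S1)** subgroups of coprime orders commute. -/
theorem Cls.coprime (hG : Cls G) {p : ℕ} (hp : p.Prime) {t : G} (ht : t ^ p = 1)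
    {N N' : Subgroup G} (hN : Fpf t N) (hN' : Fpf t N')
    (hc : Nat.Coprime (Nat.card N) (Nat.card N')) : Comm2 N N' := by
  refine reduce (fun a b => Nat.Coprime a b) (fun a b h => h.symm)
    (fun a b a' b' ha hb h => (h.coprime_dvd_left ha).coprime_dvd_right hb) p ?_ _ G hG t ht N N'
    hN hN' hc (le_refl _)
  intro G _ hG t ht N N' hN hN' hi hi' hc
  obtain ⟨s, hs, hsd, he⟩ := hi.exists_prime hN
  obtain ⟨s', hs', hsd', he'⟩ := hi'.exists_prime hN'
  have hne : s ≠ s' := by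
    rintro rfl
    have h1 : s ∣ 1 := by
      rw [← hc]
      exact Nat.dvd_gcd hsd hsd'
    exact hs.one_lt.ne' (Nat.dvd_one.1 h1)
  rcases hp.eq_two_or_odd' with h2 | hodd
  · subst h2
    intro a ha b hb
    refine hG.comm_cyc hs hs' hN hN' ha hb (he a ha) (he' b hb) ?_ ?_
    · rw [hN.inv_of_sq ht a ha]; exact inv_mem (mem_zpowers a)
    · rw [hN'.inv_of_sq ht b hb]; exact inv_mem (mem_zpowers b)
  · have hsp : s ≠ p := hN.prime_ne hG hp ht he hi.ne
    have hsp' : s' ≠ p := hN'.prime_ne hG hp ht he' hi'.ne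
    refine hG.good_comm hs hs' (fun h => hne (h.1.trans h.2.symm)) he he' ?_
    refine iter_rel hodd ht hN hN' fun a ha b hb => hG.rel hp ht hN hN' ha hb ?_
    refine ⟨s * s', fun h => ?_, ?_⟩
    · rcases hp.dvd_mul.1 h with h | h
      · exact hsp ((Nat.prime_dvd_prime_iff_eq hp hs).1 h).symm
      · exact hsp' ((Nat.prime_dvd_prime_iff_eq hp hs').1 h).symm
    · have h1 := hG.coprime_pair hs hs' hne (a := a⁻¹) (b := b)
        (by rw [inv_pow, he a ha, inv_one]) (he' b hb)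
      rw [inv_inv] at h1
      exact h1

end Pool.Agent.Lib.MP_032401_al
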