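import Pool.Agent.Lib.MP_032401_al.NB3

/-!
# MP_032401_al: Lemma A
-/

set_option autoImplicit false

namespace Pool.Agent.Lib.MP_032401_al

open Subgroup
open scoped commutatorElement

variable {G : Type} [Group G]

/-- two elements of order `s`: if `p` divides the order of the product there is an element of
order `p` in the derived subgroup -/
theorem exists_p_elt {p s : ℕ} (hp : p.Prime) (hs : s.Prime) (hps : s ≠ p) {a b : G}
    (ha : a ^ s = 1) (hb : b ^ s = 1) (hfin : IsOfFinOrder (b * a))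
    (hbad : ¬ ∃ m : ℕ, ¬ p ∣ m ∧ (b * a) ^ m = 1) :
    ∃ i : ℕ, (b * a) ^ i ≠ 1 ∧ ((b * a) ^ i) ^ p = 1 ∧
      (b * a) ^ i ∈ ⁅closure {a, b}, closure {a, b}⁆ := by
  have hdvd : p ∣ orderOf (b * a) := by
    by_contra h
    exact hbad ⟨_, h, pow_orderOf_eq_one _⟩
  obtain ⟨i, hi⟩ := hdvd
  have hpos : 0 < orderOf (b * a) := orderOf_pos_iff.2 hfin
  have hi0 : 0 < i := by
    rcases Nat.eq_zero_or_pos i with h | h
    · rw [h, mul_zero] at hi
      omega
    · exact h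
  have h1 : (b * a) ^ i ≠ 1 := by
    intro h
    have h2 := orderOf_dvd_of_pow_eq_one h
    have h3 := Nat.le_of_dvd hi0 h2
    rw [hi] at h3
    have h4 := hp.two_le
    nlinarith
  have h2 : ((b * a) ^ i) ^ p = 1 := by
    rw [← pow_mul, mul_comm, ← hi, pow_orderOf_eq_one]
  refine ⟨i, h1, h2, ?_⟩
  have hbaK : b * a ∈ closure {a, b} :=
    mul_mem (subset_closure (by simp)) (subset_closure (by simp))
  exact mem_of_pow_mem (pow_mem_der ha hb _ (pow_mem hbaK i)) (b := p)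
    (by rw [h2]; exact one_mem _) ((Nat.coprime_primes hs hp).2 hps)

/-- good pairs for odd `s` -/
theorem Cls.good_odd (hG : Cls G) {p s : ℕ} (hp : p.Prime) (hs : s.Prime) (hps : s ≠ p)
    (hs2 : s ≠ 2) {t : G} (ht : t ^ p = 1) {N N' : Subgroup G} (hN : Fpf t N) (hN' : Fpf t N')
    (hi : Irr t N) (hi' : Irr t N') (he : ∀ n ∈ N, n ^ s = 1) (he' : ∀ n ∈ N', n ^ s = 1)
    (hnc : (∃ n1 ∈ N, ∃ n2 ∈ N, n2 ≠ 1 ∧ n1 ∉ zpowers n2) ∨
      (∃ n1 ∈ N', ∃ n2 ∈ N', n2 ≠ 1 ∧ n1 ∉ zpowers n2)) {a b : G} (ha : a ∈ N) (hb : b ∈ N') :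
    ∃ m : ℕ, ¬ p ∣ m ∧ (b * a) ^ m = 1 := by
  by_contra hbad
  obtain ⟨i, h1, h2, h3⟩ := exists_p_elt hp hs hps (he a ha) (he' b hb) (hG.per _) hbad
  obtain ⟨_, hKa, hKb, _⟩ := hG.step1 hs (he a ha) (he' b hb)
  let X : Subgroup G :=
    { carrier := {x | x ∈ ⁅closure {a, b}, closure {a, b}⁆ ∧ x ^ p = 1}
      one_mem' := ⟨one_mem _, one_pow p⟩
      mul_mem' := by
        rintro x y ⟨hx, hx'⟩ ⟨hy, hy'⟩
        refine ⟨mul_mem hx hy, ?_⟩
        rw [(show Commute x y from hKa.comm x hx y hy).mul_pow, hx', hy', one_mul]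
      inv_mem' := by
        rintro x ⟨hx, hx'⟩
        exact ⟨inv_mem hx, by rw [inv_pow, hx', inv_one]⟩ }
  have hXa : Fpf a X := by
    refine hKa.of_le (fun x hx => hx.1) ?_
    rintro x ⟨hx, hx'⟩
    exact ⟨hKa.inv x hx, by rw [conj_pow, hx']; group⟩
  have hXb : Fpf b X := by
    refine hKb.of_le (fun x hx => hx.1) ?_
    rintro x ⟨hx, hx'⟩
    exact ⟨hKb.inv x hx, by rw [conj_pow, hx']; group⟩
  rcases hnc with h | h
  · exact h1 (hG.NB hp hs hps hs2 ht hN hi he h ha hXa (fun x hx => hx.2) _ ⟨h3, h2⟩)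
  · exact h1 (hG.NB hp hs hps hs2 ht hN' hi' he' h hb hXb (fun x hx => hx.2) _ ⟨h3, h2⟩)

/-- good pairs for `s = 2` -/
theorem Cls.good_two (hG : Cls G) {p : ℕ} (hp : p.Prime) (hp2 : p ≠ 2) {t : G} (ht : t ^ p = 1)
    {N N' : Subgroup G} (hN : Fpf t N) (hN' : Fpf t N') (he : ∀ n ∈ N, n ^ 2 = 1)
    (he' : ∀ n ∈ N', n ^ 2 = 1) {a b : G} (ha : a ∈ N) (hb : b ∈ N') :
    ∃ m : ℕ, ¬ p ∣ m ∧ (b * a) ^ m = 1 := by
  by_contra hbad
  obtain ⟨i, h1, h2, _⟩ := exists_p_elt hp Nat.prime_two (fun h => hp2 h.symm) (he a ha)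
    (he' b hb) (hG.per _) hbad
  set z := (b * a) ^ i with hz
  have hainv : a⁻¹ = a := by
    have h := he a ha
    rw [sq] at h
    exact inv_eq_of_mul_eq_one_left h
  have hbinv : b⁻¹ = b := by
    have h := he' b hb
    rw [sq] at h
    exact inv_eq_of_mul_eq_one_left h
  -- a inverts z
  have haz : a⁻¹ * z * a = z⁻¹ := by
    have h3 : a⁻¹ * (b * a) * a = (b * a)⁻¹ := by
      rw [mul_inv_rev, hbinv, hainv]
      have h4 : a * a = 1 := by rw [← sq]; exact he a ha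
      calc a * (b * a) * a = a * b * (a * a) := by group
        _ = a * b := by rw [h4, mul_one]
    have h5 : a⁻¹ * z * a = (a⁻¹ * (b * a) * a) ^ i := by
      have h6 := conj_pow (a := a⁻¹) (b := b * a) (i := i)
      rw [inv_inv] at h6
      rw [h6]
    rw [h5, h3, inv_pow]
  -- in the group generated by a t and b t
  have hat : (a * t) ^ p = 1 := hN.pow ht ha
  have hbt : (b * t) ^ p = 1 := hN'.pow ht hb
  obtain ⟨hpp, _, _, _⟩ := hG.step1 hp hat hbt
  have haK : a * t ∈ closure {a * t, b * t} := subset_closure (by simp)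
  have hbK : b * t ∈ closure {a * t, b * t} := subset_closure (by simp)
  have hzK : z ∈ closure {a * t, b * t} := by
    refine pow_mem ?_ i
    have h3 : b * a = (b * t) * (a * t)⁻¹ := by
      rw [mul_inv_rev, hainv]; group
    rw [h3]
    exact mul_mem hbK (inv_mem haK)
  obtain ⟨m, hm, hm1⟩ := hpp ⁅z, a * t⁆ (Subgroup.commutator_mem_commutator hzK haK)
  -- in the group generated by t and z
  obtain ⟨hpp2, _, _, _⟩ := hG.step1 hp ht h2
  have htF : t ∈ closure {t, z} := subset_closure (by simp)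
  have hzF : z ∈ closure {t, z} := subset_closure (by simp)
  have hw : a⁻¹ * ⁅z, a * t⁆ * a = z⁻¹ * (t * z⁻¹ * t⁻¹) := by
    calc a⁻¹ * ⁅z, a * t⁆ * a = (a⁻¹ * z * a) * (t * z⁻¹ * t⁻¹) := by
          rw [commutatorElement_def]; group
      _ = z⁻¹ * (t * z⁻¹ * t⁻¹) := by rw [haz]
  have hwm : (z⁻¹ * (t * z⁻¹ * t⁻¹)) ^ m = 1 := by
    rw [← hw]
    have h3 := conj_pow (a := a⁻¹) (b := ⁅z, a * t⁆) (i := m)
    rw [inv_inv] at h3
    rw [h3, hm1]
    group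
  have hwF : z⁻¹ * (t * z⁻¹ * t⁻¹) ∈ closure {t, z} :=
    mul_mem (inv_mem hzF) (mul_mem (mul_mem htF (inv_mem hzF)) (inv_mem htF))
  have hwD : z⁻¹ * (t * z⁻¹ * t⁻¹) ∈ ⁅closure {t, z}, closure {t, z}⁆ :=
    mem_of_pow_mem (pow_mem_der ht h2 _ hwF) (b := m) (by rw [hwm]; exact one_mem _)
      ((hp.coprime_iff_not_dvd).2 hm)
  have hz2 : z ^ 2 ∈ ⁅closure {t, z}, closure {t, z}⁆ := by
    have h3 : z ^ 2 = (z⁻¹ * (t * z⁻¹ * t⁻¹))⁻¹ * (z⁻¹ * ⁅t, z⁻¹⁆ * z⁻¹⁻¹) := by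
      rw [sq, commutatorElement_def]
      group
    rw [h3]
    exact mul_mem (inv_mem hwD)
      (der_conj (inv_mem hzF) (Subgroup.commutator_mem_commutator htF (inv_mem hzF)))
  obtain ⟨m2, hm2, hzm2⟩ := hpp2 _ hz2
  apply h1
  refine eq_one_of_pow h2 (b := 2 * m2) (by rw [pow_mul]; exact hzm2) ?_
  refine (hp.coprime_iff_not_dvd).2 fun h => ?_
  rcases hp.dvd_mul.1 h with h | h
  · exact hp2 ((Nat.prime_dvd_prime_iff_eq hp Nat.prime_two).1 h)
  · exact hm2 h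

theorem inv_comm_of_sq {x y : G} (hx : x * x = 1) (hx' : x⁻¹ = x) (hy' : y⁻¹ = y) :
    x * ⁅x, y⁆ * x⁻¹ = ⁅x, y⁆⁻¹ := by
  have h1 : ⁅x, y⁆ = x * y * x * y := by rw [commutatorElement_def, hx', hy']
  have h2 : (x * y * x * y)⁻¹ = y * x * y * x := by
    rw [mul_inv_rev, mul_inv_rev, mul_inv_rev, hx', hy']
    group
  rw [h1, h2, hx']
  calc x * (x * y * x * y) * x = (x * x) * y * x * y * x := by group
    _ = y * x * y * x := by rw [hx, one_mul]

theorem Cls.comm_two (hG : Cls G) {p : ℕ} (hp : p.Prime) (hodd : Odd p) {t : G}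
    (ht : t ^ p = 1) {N N' : Subgroup G} (hN : Fpf t N) (hN' : Fpf t N')
    (he : ∀ n ∈ N, n ^ 2 = 1) (he' : ∀ n ∈ N', n ^ 2 = 1)
    (h : ∀ a ∈ N, ∀ b ∈ N', ⁅t * a * t⁻¹, b⁆ = ⁅a⁻¹, (t * b * t⁻¹)⁻¹⁆) : Comm2 N N' := by
  have hinvN : ∀ x ∈ N, x⁻¹ = x := by
    intro x hx
    have h1 := he x hx
    rw [sq] at h1
    exact inv_eq_of_mul_eq_one_left h1
  have hinvN' : ∀ x ∈ N', x⁻¹ = x := by
    intro x hx
    have h1 := he' x hx
    rw [sq] at h1
    exact inv_eq_of_mul_eq_one_left h1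
  intro a ha b hb
  have haa : a * a = 1 := by rw [← sq]; exact he a ha
  have hbb : b * b = 1 := by rw [← sq]; exact he' b hb
  have hNk : ∀ k : ℕ, t ^ k * a * (t ^ k)⁻¹ ∈ N := by
    intro k
    induction k with
    | zero => simpa using ha
    | succ k ih =>
      have h2 : t ^ (k + 1) * a * (t ^ (k + 1))⁻¹ = t * (t ^ k * a * (t ^ k)⁻¹) * t⁻¹ := by
        rw [pow_succ']; group
      rw [h2]; exact hN.inv _ ih
  have hN'k : ∀ k : ℕ, (t ^ k)⁻¹ * b * t ^ k ∈ N' := by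
    intro k
    induction k with
    | zero => simpa using hb
    | succ k ih =>
      have h2 : (t ^ (k + 1))⁻¹ * b * t ^ (k + 1) = t⁻¹ * ((t ^ k)⁻¹ * b * t ^ k) * t := by
        rw [pow_succ]; group
      rw [h2]; exact hN'.inv' _ ih
  have hE : ∀ k : ℕ, ⁅t ^ k * a * (t ^ k)⁻¹, (t ^ k)⁻¹ * b * t ^ k⁆ = ⁅a, b⁆ := by
    intro k
    induction k with
    | zero => simp
    | succ k ih =>
      have h2 : t ^ (k + 1) * a * (t ^ (k + 1))⁻¹ = t * (t ^ k * a * (t ^ k)⁻¹) * t⁻¹ := by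
        rw [pow_succ']; group
      have h3 : (t ^ (k + 1))⁻¹ * b * t ^ (k + 1) ∈ N' := hN'k (k + 1)
      have h4 : t * ((t ^ (k + 1))⁻¹ * b * t ^ (k + 1)) * t⁻¹ = (t ^ k)⁻¹ * b * t ^ k := by
        rw [pow_succ]; group
      rw [h2, h _ (hNk k) _ h3, h4, hinvN _ (hNk k), hinvN' _ (hN'k k)]
      exact ih
  set α := ⁅a, b⁆ with hα
  -- the conjugates of a invert α
  have hinv : ∀ k : ℕ, (t ^ k * a * (t ^ k)⁻¹) * α * (t ^ k * a * (t ^ k)⁻¹)⁻¹ = α⁻¹ := by
    intro k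
    rw [← hE k]
    have hx := he _ (hNk k)
    rw [sq] at hx
    exact inv_comm_of_sq hx (hinvN _ (hNk k)) (hinvN' _ (hN'k k))
  -- the product of the conjugates is trivial
  have hw : ∀ k : ℕ, ((a * t) ^ k * (t ^ k)⁻¹) * α * ((a * t) ^ k * (t ^ k)⁻¹)⁻¹ =
      α ^ ((-1 : ℤ) ^ k) := by
    intro k
    induction k with
    | zero => simp
    | succ k ih =>
      have h2 : (a * t) ^ (k + 1) * (t ^ (k + 1))⁻¹ =
          ((a * t) ^ k * (t ^ k)⁻¹) * (t ^ k * a * (t ^ k)⁻¹) := by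
        rw [pow_succ (a * t), pow_succ t]
        group
      rw [h2]
      have h3 : ((a * t) ^ k * (t ^ k)⁻¹) * (t ^ k * a * (t ^ k)⁻¹) * α *
          (((a * t) ^ k * (t ^ k)⁻¹) * (t ^ k * a * (t ^ k)⁻¹))⁻¹ =
          ((a * t) ^ k * (t ^ k)⁻¹) * ((t ^ k * a * (t ^ k)⁻¹) * α * (t ^ k * a * (t ^ k)⁻¹)⁻¹) *
          ((a * t) ^ k * (t ^ k)⁻¹)⁻¹ := by group
      rw [h3, hinv k]
      have h4 : ((a * t) ^ k * (t ^ k)⁻¹) * α⁻¹ * ((a * t) ^ k * (t ^ k)⁻¹)⁻¹ =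
          (((a * t) ^ k * (t ^ k)⁻¹) * α * ((a * t) ^ k * (t ^ k)⁻¹)⁻¹)⁻¹ := by group
      rw [h4, ih, pow_succ, mul_neg, mul_one, zpow_neg]
  have hwp := hw p
  rw [hN.pow ht ha, ht, inv_one, one_mul, inv_one, one_mul, mul_one, hodd.neg_one_pow, zpow_neg,
    zpow_one] at hwp
  have hα2 : α ^ 2 = 1 := by
    rw [sq]
    nth_rewrite 1 [hwp]
    exact inv_mul_cancel α
  -- a finite 2-group
  have hK := hG.pair Nat.prime_two Nat.prime_two (he a ha) (he' b hb)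
  have haK : a ∈ closure {a, b} := subset_closure (by simp)
  have hbK : b ∈ closure {a, b} := subset_closure (by simp)
  have hainv := hinvN a ha
  have hbinv := hinvN' b hb
  have hαinv : α⁻¹ = α := hwp.symm
  have haα : a * α * a⁻¹ = α := by
    have h2 := hinv 0
    rw [pow_zero, one_mul, inv_one, mul_one, hαinv] at h2
    exact h2
  have hbα : b * α * b⁻¹ = α := by
    have h2 : b * α * b⁻¹ = α⁻¹ := by
      rw [hα, commutatorElement_def, hainv, hbinv]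
      simp only [mul_inv_rev, hainv, hbinv]
      calc b * (a * b * a * b) * b = b * a * b * a * (b * b) := by group
        _ = b * (a * (b * a)) := by rw [hbb]; group
    rw [h2, hαinv]
  have hz : ⁅closure {a, b}, closure {a, b}⁆ ≤ zpowers α := by
    rw [Subgroup.commutator_le]
    have hnorm : ∀ x : G, x * α * x⁻¹ = α → x ∈ normalizer ((zpowers α : Subgroup G) : Set G) := by
      intro x hx
      rw [mem_normalizer_iff]
      intro y
      constructor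
      · rintro ⟨i, rfl⟩
        refine ⟨i, ?_⟩
        show α ^ i = x * α ^ i * x⁻¹
        rw [← conj_zpow, hx]
      · rintro ⟨i, hi⟩
        have hi' : α ^ i = x * y * x⁻¹ := hi
        refine ⟨i, ?_⟩
        show α ^ i = y
        have h3 : x * α ^ i * x⁻¹ = α ^ i := by rw [← conj_zpow, hx]
        have h4 : x * α ^ i * x⁻¹ = x * y * x⁻¹ := by rw [h3, hi']
        exact mul_left_cancel (mul_right_cancel h4)
    apply comm_mod
    · rintro x (rfl | hx)
      · exact hnorm _ haα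
      · rw [Set.mem_singleton_iff] at hx
        rw [hx]
        exact hnorm _ hbα
    · rintro x (rfl | hx) y (rfl | hy)
      · rw [commutatorElement_self]; exact one_mem _
      · rw [Set.mem_singleton_iff] at hy
        rw [hy]; exact mem_zpowers α
      · rw [Set.mem_singleton_iff] at hx
        rw [hx, ← commutatorElement_inv]; exact inv_mem (mem_zpowers α)
      · rw [Set.mem_singleton_iff] at hx hy
        rw [hx, hy, commutatorElement_self]; exact one_mem _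
  refine hG.abp 2 Nat.prime_two _ hK ?_ a haK b hbK
  intro x hx
  obtain ⟨i, hi⟩ := hz (pow_mem_der (he a ha) (he' b hb) x hx)
  refine ⟨2, ?_⟩
  have hi' : α ^ i = x ^ 2 := hi
  rw [sq, pow_mul, ← hi', ← zpow_natCast, ← zpow_mul, mul_comm, zpow_mul, zpow_natCast, hα2,
    one_zpow]

/-- **Lemma A.** -/
theorem Cls.lemmaA (hG : Cls G) {p : ℕ} (hp : p.Prime) {t : G} (ht : t ^ p = 1)
    {N N' : Subgroup G} (hN : Fpf t N) (hN' : Fpf t N') : Comm2 N N' := by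
  refine reduce (fun _ _ => True) (fun _ _ _ => trivial) (fun _ _ _ _ _ _ _ => trivial) p ?_ _ G
    hG t ht N N' hN hN' trivial (le_refl _)
  intro G _ hG t ht N N' hN hN' hi hi' _
  obtain ⟨s, hs, hsd, he⟩ := hi.exists_prime hN
  obtain ⟨s', hs', hsd', he'⟩ := hi'.exists_prime hN'
  by_cases hss : s = s'
  swap
  · refine hG.coprime hp ht hN hN' (coprime_card hN.fin hN'.fin hs
      (fun a ha => ⟨1, by rw [pow_one]; exact he a ha⟩) (fun b hb => ⟨s', fun h => ?_, he' b hb⟩))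
    exact hss ((Nat.prime_dvd_prime_iff_eq hs hs').1 h)
  subst hss
  rcases hp.eq_two_or_odd' with h2 | hodd
  · subst h2
    intro a ha b hb
    refine hG.comm_cyc hs hs hN hN' ha hb (he a ha) (he' b hb) ?_ ?_
    · rw [hN.inv_of_sq ht a ha]; exact inv_mem (mem_zpowers a)
    · rw [hN'.inv_of_sq ht b hb]; exact inv_mem (mem_zpowers b)
  have hsp : s ≠ p := hN.prime_ne hG hp ht he hi.ne
  have hp2 : p ≠ 2 := by
    rintro rfl
    exact absurd hodd (by decide)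
  by_cases hs2 : s = 2
  · subst hs2
    refine hG.comm_two hp hodd ht hN hN' he he' fun a ha b hb => ?_
    exact hG.rel hp ht hN hN' ha hb (hG.good_two hp hp2 ht hN hN' he he' ha hb)
  by_cases hnc : (∃ n1 ∈ N, ∃ n2 ∈ N, n2 ≠ 1 ∧ n1 ∉ zpowers n2) ∨
      (∃ n1 ∈ N', ∃ n2 ∈ N', n2 ≠ 1 ∧ n1 ∉ zpowers n2)
  · refine hG.good_comm hs hs (fun h => hs2 h.1) he he' ?_
    refine iter_rel hodd ht hN hN' fun a ha b hb => hG.rel hp ht hN hN' ha hb ?_
    exact hG.good_odd hp hs hsp hs2 ht hN hN' hi hi' he he' hnc ha hb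
  · rw [not_or] at hnc
    obtain ⟨hnc1, hnc2⟩ := hnc
    push Not at hnc1 hnc2
    intro a ha b hb
    by_cases ha1 : a = 1
    · rw [ha1, one_mul, mul_one]
    by_cases hb1 : b = 1
    · rw [hb1, one_mul, mul_one]
    exact hG.comm_cyc hs hs hN hN' ha hb (he a ha) (he' b hb)
      (hnc1 _ (hN.inv a ha) a ha ha1) (hnc2 _ (hN'.inv b hb) b hb hb1)

end Pool.Agent.Lib.MP_032401_al
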