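import Pool.Agent.Lib.MP_032401_al.Final

/-!
# MP_032401_al: the main theorem
-/

set_option autoImplicit false

namespace Pool.Agent.Lib.MP_032401_al

open Subgroup
open scoped commutatorElement

variable {G : Type} [Group G]

/-- the locally finite radical is normal -/
theorem rad_conj {x : G} (hx : x ∈ rad (⊤ : Subgroup G)) (g : G) :
    g * x * g⁻¹ ∈ rad (⊤ : Subgroup G) :=
  (mem_normalizer_iff.1 (le_normalizer_rad (⊤ : Subgroup G) (Subgroup.mem_top g)) x).1 hx

/-- a normal locally finite subgroup is contained in the radical -/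
theorem le_rad {V : Subgroup G} (hV : LF V) (hn : ∀ g : G, ∀ v ∈ V, g * v * g⁻¹ ∈ V) :
    V ≤ rad (⊤ : Subgroup G) := by
  intro x hx
  refine ⟨V, le_top, ?_, hV, hx⟩
  rw [Subgroup.le_normalizer_iff]
  exact fun g _ v hv => hn g v hv

/-- closures of sets closed under conjugation -/
theorem closure_conj {S : Set G} (h : ∀ g : G, ∀ s ∈ S, g * s * g⁻¹ ∈ S) :
    ∀ g : G, ∀ x ∈ closure S, g * x * g⁻¹ ∈ closure S := by
  have h1 : (⊤ : Subgroup G) ≤ normalizer ((closure S : Subgroup G) : Set G) := by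
    rw [Subgroup.le_normalizer_closure_iff]
    intro g _ s hs
    exact subset_closure (h g s hs)
  intro g x hx
  exact (mem_normalizer_iff.1 (h1 (Subgroup.mem_top g)) x).1 hx

/-- all elements of prime order are in the radical -/
theorem Cls.prime_mem_rad (hG : Cls G) {p : ℕ} (hp : p.Prime) {x : G} (hx : x ^ p = 1) :
    x ∈ rad (⊤ : Subgroup G) := by
  refine le_rad (V := closure {y : G | y ^ p = 1}) ?_ (closure_conj ?_) (subset_closure hx)
  · exact LF.of_closure fun T hT hTS => hG.dagger hp T.ncard T hT (le_refl _) hTS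
  · intro g s hs
    have hs' : s ^ p = 1 := hs
    show (g * s * g⁻¹) ^ p = 1
    rw [conj_pow, hs']
    group

/-- a finite set of elements of the radical and one more element generate a finite subgroup -/
theorem Cls.LF_rad_sup (hG : Cls G) (g : G) : LF (rad (⊤ : Subgroup G) ⊔ zpowers g) :=
  (LF_rad _).sup (LF.of_finite (hG.per g).finite_zpowers)
    (le_top.trans (le_normalizer_rad (⊤ : Subgroup G)))

/-- the centraliser of the derived subgroup in the radical -/
def Bsub (G : Type) [Group G] : Subgroup G where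
  carrier := {b | b ∈ rad (⊤ : Subgroup G) ∧ ∀ r ∈ rad (⊤ : Subgroup G),
    ∀ r' ∈ rad (⊤ : Subgroup G), b * ⁅r, r'⁆ = ⁅r, r'⁆ * b}
  one_mem' := ⟨one_mem _, fun r _ r' _ => by rw [one_mul, mul_one]⟩
  mul_mem' := by
    rintro a b ⟨ha, ha'⟩ ⟨hb, hb'⟩
    refine ⟨mul_mem ha hb, fun r hr r' hr' => ?_⟩
    rw [mul_assoc, hb' r hr r' hr', ← mul_assoc, ha' r hr r' hr', mul_assoc]
  inv_mem' := by
    rintro a ⟨ha, ha'⟩
    refine ⟨inv_mem ha, fun r hr r' hr' => ?_⟩
    rw [inv_mul_eq_iff_eq_mul, ← mul_assoc, ha' r hr r' hr', mul_inv_cancel_right]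

theorem mem_Bsub {b : G} : b ∈ Bsub G ↔ b ∈ rad (⊤ : Subgroup G) ∧
    ∀ r ∈ rad (⊤ : Subgroup G), ∀ r' ∈ rad (⊤ : Subgroup G), b * ⁅r, r'⁆ = ⁅r, r'⁆ * b := Iff.rfl

theorem Bsub_conj (g : G) {b : G} (hb : b ∈ Bsub G) : g * b * g⁻¹ ∈ Bsub G := by
  refine ⟨rad_conj hb.1 g, fun r hr r' hr' => ?_⟩
  have h1 := rad_conj hr g⁻¹
  have h2 := rad_conj hr' g⁻¹
  have h3 := hb.2 _ h1 _ h2
  have h4 : ⁅r, r'⁆ = g * ⁅g⁻¹ * r * g⁻¹⁻¹, g⁻¹ * r' * g⁻¹⁻¹⁆ * g⁻¹ := by
    simp only [commutatorElement_def]; group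
  rw [h4]
  calc g * b * g⁻¹ * (g * ⁅g⁻¹ * r * g⁻¹⁻¹, g⁻¹ * r' * g⁻¹⁻¹⁆ * g⁻¹)
      = g * (b * ⁅g⁻¹ * r * g⁻¹⁻¹, g⁻¹ * r' * g⁻¹⁻¹⁆) * g⁻¹ := by group
    _ = g * (⁅g⁻¹ * r * g⁻¹⁻¹, g⁻¹ * r' * g⁻¹⁻¹⁆ * b) * g⁻¹ := by rw [h3]
    _ = g * ⁅g⁻¹ * r * g⁻¹⁻¹, g⁻¹ * r' * g⁻¹⁻¹⁆ * g⁻¹ * (g * b * g⁻¹) := by group

theorem Cls.Bsub_comm (hG : Cls G) : ∀ b ∈ Bsub G, ∀ c ∈ Bsub G, b * c = c * b := by
  intro b hb c hc
  refine hG.comm_of_central (hb.2 b hb.1 c hc.1).symm (hc.2 b hb.1 c hc.1).symm ?_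
  refine LF_rad (⊤ : Subgroup G) {b, c} (by simp) ?_
  rintro x (rfl | hx)
  · exact hb.1
  · rw [Set.mem_singleton_iff] at hx
    rw [hx]; exact hc.1

theorem Cls.comm_mem_Bsub (hG : Cls G) {w : G} (hw : w ∈ rad (⊤ : Subgroup G)) (g : G) :
    ⁅w, g⁆ ∈ Bsub G := by
  refine ⟨?_, fun r hr r' hr' => ?_⟩
  · have h1 : ⁅w, g⁆ = w * (g * w⁻¹ * g⁻¹) := by rw [commutatorElement_def]; group
    rw [h1]
    exact mul_mem hw (rad_conj (inv_mem hw) g)
  · have hfin := hG.LF_rad_sup g {w, g, r, r'} (by simp) (by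
      rintro x (rfl | rfl | rfl | hx)
      · exact (le_sup_left : _ ≤ rad (⊤ : Subgroup G) ⊔ zpowers g) hw
      · exact (le_sup_right : _ ≤ rad (⊤ : Subgroup G) ⊔ zpowers x) (mem_zpowers x)
      · exact (le_sup_left : _ ≤ rad (⊤ : Subgroup G) ⊔ zpowers g) hr
      · rw [Set.mem_singleton_iff] at hx
        rw [hx]
        exact (le_sup_left : _ ≤ rad (⊤ : Subgroup G) ⊔ zpowers g) hr')
    exact hG.met _ hfin w (subset_closure (by simp)) g (subset_closure (by simp)) r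
      (subset_closure (by simp)) r' (subset_closure (by simp))

/-- the commutator of a `q`-element of the radical and a `q`-element is a `q'`-element -/
theorem Cls.comm_rad_pprime (hG : Cls G) {q : ℕ} (hq : q.Prime) {w g : G}
    (hw : w ∈ rad (⊤ : Subgroup G)) (hwq : ∃ j : ℕ, w ^ q ^ j = 1)
    (hgq : ∃ j : ℕ, g ^ q ^ j = 1) : ∃ m : ℕ, ¬ q ∣ m ∧ ⁅w, g⁆ ^ m = 1 := by
  refine hG.comm_pprime hq hwq hgq (hG.LF_rad_sup g {w, g} (by simp) ?_)
  rintro x (rfl | hx)
  · exact (le_sup_left : _ ≤ rad (⊤ : Subgroup G) ⊔ zpowers g) hw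
  · rw [Set.mem_singleton_iff] at hx
    rw [hx]
    exact (le_sup_right : _ ≤ rad (⊤ : Subgroup G) ⊔ zpowers g) (mem_zpowers g)

/-- The last step: a `q`-element whose `q`-th power is in the radical is in the radical. -/
theorem Cls.step4 (hG : Cls G) {q : ℕ} (hq : q.Prime) {g : G} (hgq : ∃ j : ℕ, g ^ q ^ j = 1)
    (hx : g ^ q ∈ rad (⊤ : Subgroup G)) : g ∈ rad (⊤ : Subgroup G) := by
  set x := g ^ q with hxd
  have hxq : ∃ j : ℕ, x ^ q ^ j = 1 := by
    obtain ⟨j, hj⟩ := hgq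
    refine ⟨j, ?_⟩
    rw [hxd, ← pow_mul, mul_comm, pow_mul, hj, one_pow]
  -- the abelian normal subgroup
  let M := pprime (Bsub G) hG.Bsub_comm q hq
  have hMB : M ≤ Bsub G := fun a ha => ha.1
  have hMc : ∀ a ∈ M, ∀ b ∈ M, a * b = b * a := fun a ha b hb =>
    hG.Bsub_comm a (hMB ha) b (hMB hb)
  have hMn : ∀ h : G, ∀ a ∈ M, h * a * h⁻¹ ∈ M := by
    rintro h a ⟨ha, m, hm, ham⟩
    refine ⟨Bsub_conj h ha, m, hm, ?_⟩
    rw [conj_pow, ham]
    group
  have hMLF : LF M := (LF_rad (⊤ : Subgroup G)).mono fun a ha => (hMB ha).1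
  -- the normal subgroup K
  let S : Set G := {k | (∃ j : ℕ, k ^ q ^ j = 1) ∨ k ∈ M}
  have hSn : ∀ h : G, ∀ s ∈ S, h * s * h⁻¹ ∈ S := by
    rintro h s (⟨j, hj⟩ | hs)
    · left
      refine ⟨j, ?_⟩
      rw [conj_pow, hj]
      group
    · right
      exact hMn h s hs
  have hKn := closure_conj hSn
  have hgK : g ∈ closure S := subset_closure (Or.inl hgq)
  have hMK : M ≤ closure S := fun a ha => subset_closure (Or.inr ha)
  have hxK : x ∈ closure S := pow_mem hgK q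
  -- commutators with x
  have hcom : ∀ k ∈ closure S, ⁅k, x⁆ ∈ M := by
    intro k hk
    induction hk using closure_induction with
    | mem k hk =>
      rcases hk with hk | hk
      · rw [← commutatorElement_inv]
        exact inv_mem ⟨hG.comm_mem_Bsub hx k, hG.comm_rad_pprime hq hx hxq hk⟩
      · exact comm_mem (hMn x) hk
    | one => rw [commutatorElement_one_left]; exact one_mem _
    | mul a b _ _ iha ihb =>
      have h1 : ⁅a * b, x⁆ = a * ⁅b, x⁆ * a⁻¹ * ⁅a, x⁆ := by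
        simp only [commutatorElement_def]; group
      rw [h1]
      exact mul_mem (hMn a _ ihb) iha
    | inv a _ iha =>
      have h1 : ⁅a⁻¹, x⁆ = a⁻¹ * ⁅a, x⁆⁻¹ * a⁻¹⁻¹ := by
        simp only [commutatorElement_def]; group
      rw [h1]
      exact hMn a⁻¹ _ (inv_mem iha)
  -- the subgroup of the commutators with x
  let D : Subgroup G :=
    { carrier := {d | ∃ v ∈ M, ⁅v, x⁆ = d}
      one_mem' := ⟨1, one_mem _, commutatorElement_one_left x⟩
      mul_mem' := by
        rintro _ _ ⟨k, hk, rfl⟩ ⟨l, hl, rfl⟩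
        exact ⟨k * l, mul_mem hk hl, comm_hom hMc (hMn x) hk hl⟩
      inv_mem' := by
        rintro _ ⟨k, hk, rfl⟩
        refine ⟨k⁻¹, inv_mem hk, ?_⟩
        have h1 := comm_hom hMc (hMn x) hk (inv_mem hk)
        rw [mul_inv_cancel, commutatorElement_one_left] at h1
        exact eq_inv_of_mul_eq_one_right h1.symm }
  have hDM : D ≤ M := by
    rintro _ ⟨v, hv, rfl⟩
    exact comm_mem (hMn x) hv
  have hxD : x ∈ normalizer (D : Set G) := by
    have h1 : zpowers x ≤ normalizer (D : Set G) := by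
      rw [Subgroup.le_normalizer_iff]
      rintro _ ⟨i, rfl⟩ _ ⟨v, hv, rfl⟩
      refine ⟨x ^ i * v * (x ^ i)⁻¹, hMn _ v hv, ?_⟩
      show ⁅x ^ i * v * (x ^ i)⁻¹, x⁆ = x ^ i * ⁅v, x⁆ * (x ^ i)⁻¹
      simp only [commutatorElement_def]
      have h2 : (x ^ i)⁻¹ * x = x * (x ^ i)⁻¹ :=
        ((Commute.refl x).zpow_left i).inv_left.eq
      have h3 : (x ^ i)⁻¹ * x⁻¹ = x⁻¹ * (x ^ i)⁻¹ :=
        ((Commute.refl x).zpow_left i).inv_left.inv_right.eq
      calc x ^ i * v * (x ^ i)⁻¹ * x * (x ^ i * v * (x ^ i)⁻¹)⁻¹ * x⁻¹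
          = x ^ i * v * ((x ^ i)⁻¹ * x) * x ^ i * v⁻¹ * ((x ^ i)⁻¹ * x⁻¹) := by group
        _ = x ^ i * v * (x * (x ^ i)⁻¹) * x ^ i * v⁻¹ * (x⁻¹ * (x ^ i)⁻¹) := by rw [h2, h3]
        _ = x ^ i * (v * x * v⁻¹ * x⁻¹) * (x ^ i)⁻¹ := by group
    exact h1 (mem_zpowers x)
  have hMD : M ≤ normalizer (D : Set G) := by
    rw [Subgroup.le_normalizer_iff]
    intro a ha d hd
    rw [hMc a ha d (hDM hd), mul_inv_cancel_right]
    exact hd
  -- K = M C_K(x)
  have hdec : ∀ k ∈ closure S, ∃ b ∈ M, (b⁻¹ * k) * x = x * (b⁻¹ * k) := by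
    intro k hk
    have hm := hcom k hk
    obtain ⟨j, hj⟩ := hxq
    obtain ⟨d, hd, h1⟩ := mul_pow_mod (hMD hm) hxD ⟨⁅k, x⁆, hm, rfl⟩ (q ^ j)
    have h2 : (⁅k, x⁆ * x) ^ q ^ j = 1 := by
      have h3 : ⁅k, x⁆ * x = k * x * k⁻¹ := by rw [commutatorElement_def]; group
      rw [h3, conj_pow, hj]
      group
    rw [h2, hj, mul_one] at h1
    have h4 : ⁅k, x⁆ ^ q ^ j ∈ D := by
      have h5 : ⁅k, x⁆ ^ q ^ j = d⁻¹ := eq_inv_of_mul_eq_one_right h1.symm
      rw [h5]
      exact inv_mem hd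
    obtain ⟨_, m, hm1, hm2⟩ := hm
    have h6 : ⁅k, x⁆ ∈ D := by
      refine mem_of_pow_mem h4 (b := m) (by rw [hm2]; exact one_mem _) ?_
      exact Nat.Coprime.pow_left j ((hq.coprime_iff_not_dvd).2 hm1)
    obtain ⟨b, hb, hb1⟩ := h6
    refine ⟨b, hb, ?_⟩
    have h7 : b * x * b⁻¹ = k * x * k⁻¹ := by
      have h8 : ⁅b, x⁆ * x = ⁅k, x⁆ * x := by rw [hb1]
      simpa only [commutatorElement_def, inv_mul_cancel_right] using h8
    calc b⁻¹ * k * x = b⁻¹ * (k * x * k⁻¹) * k := by group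
      _ = b⁻¹ * (b * x * b⁻¹) * k := by rw [h7]
      _ = x * (b⁻¹ * k) := by group
  -- the locally finite subgroup V of the centraliser
  have hHf : ((zpowers x : Subgroup G) : Set G).Finite := (hG.per x).finite_zpowers
  have hcN : ∀ c : G, c * x = x * c → c ∈ normalizer ((zpowers x : Subgroup G) : Set G) := by
    intro c hc
    rw [mem_normalizer_iff]
    intro y
    have hc' : ∀ i : ℤ, c * x ^ i = x ^ i * c := fun i =>
      ((show Commute c x from hc).zpow_right i).eq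
    constructor
    · rintro ⟨i, rfl⟩
      refine ⟨i, ?_⟩
      show x ^ i = c * x ^ i * c⁻¹
      rw [hc' i, mul_inv_cancel_right]
    · rintro ⟨i, hi⟩
      have hi' : x ^ i = c * y * c⁻¹ := hi
      refine ⟨i, ?_⟩
      show x ^ i = y
      have h1 : x ^ i * c = c * y := by rw [hi', inv_mul_cancel_right]
      rw [← hc' i] at h1
      exact mul_left_cancel h1
  let T : Set G := {z | z ∈ closure S ∧ z * x = x * z ∧ z ^ q ∈ zpowers x}
  have hVLF : LF (closure T) := LF.of_closure fun U hU hUT =>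
    hG.dagger_section hq hHf hU (fun z hz => hcN z (hUT hz).2.1) (fun z hz => (hUT hz).2.2)
  have hVK : closure T ≤ closure S := by
    rw [closure_le]
    exact fun z hz => hz.1
  have hgV : g ∈ closure T := by
    refine subset_closure ⟨hgK, ?_, mem_zpowers x⟩
    exact ((Commute.refl g).pow_right q).eq
  have hVN : ∀ c ∈ closure S, c * x = x * c →
      c ∈ normalizer ((closure T : Subgroup G) : Set G) := by
    let C : Subgroup G := closure S ⊓ Subgroup.centralizer {x}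
    have h1 : C ≤ normalizer ((closure T : Subgroup G) : Set G) := by
      rw [Subgroup.le_normalizer_closure_iff]
      rintro c ⟨hcS, hcx⟩ z ⟨hz1, hz2, hz3⟩
      have hcx' : x * c = c * x := Subgroup.mem_centralizer_singleton_iff.1 hcx |>.symm
      refine subset_closure ⟨hKn c z hz1, ?_, ?_⟩
      · have h2 : Commute c x := hcx'.symm
        have h3 : Commute z x := hz2
        exact ((h2.mul_left h3).mul_left h2.inv_left).eq
      · rw [conj_pow]
        exact (mem_normalizer_iff.1 (hcN c hcx'.symm) _).1 hz3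
    intro c hc hcx
    exact h1 ⟨hc, Subgroup.mem_centralizer_singleton_iff.2 hcx⟩
  -- the normal closure
  have hMN : ∀ h : G, h ∈ normalizer (M : Set G) := by
    intro h
    have h1 : (⊤ : Subgroup G) ≤ normalizer (M : Set G) := by
      rw [Subgroup.le_normalizer_iff]
      exact fun h _ a ha => hMn h a ha
    exact h1 (Subgroup.mem_top h)
  have hWLF : LF (M ⊔ closure T) := hMLF.sup hVLF fun v _ => hMN v
  have hWK : M ⊔ closure T ≤ closure S := sup_le hMK hVK
  have hWN : closure S ≤ normalizer ((M ⊔ closure T : Subgroup G) : Set G) := by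
    intro k hk
    obtain ⟨b, hb, hbk⟩ := hdec k hk
    have hc : b⁻¹ * k ∈ closure S := mul_mem (inv_mem (hMK hb)) hk
    have h1 : b⁻¹ * k ∈ normalizer ((M ⊔ closure T : Subgroup G) : Set G) := by
      have h2 : zpowers (b⁻¹ * k) ≤ normalizer ((M ⊔ closure T : Subgroup G) : Set G) := by
        refine sup_normalizer (fun z _ => hMN z) ?_
        rw [zpowers_le]
        exact hVN _ hc hbk
      exact h2 (mem_zpowers _)
    have h3 : b ∈ normalizer ((M ⊔ closure T : Subgroup G) : Set G) :=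
      le_normalizer ((le_sup_left : M ≤ M ⊔ closure T) hb)
    have h4 := mul_mem h3 h1
    rw [mul_inv_cancel_left] at h4
    exact h4
  exact rad_le_rad hKn ⟨M ⊔ closure T, hWK, hWN, hWLF,
    (le_sup_right : closure T ≤ M ⊔ closure T) hgV⟩

/-- every element is in the radical -/
theorem Cls.mem_rad_top (hG : Cls G) (n : ℕ) : ∀ g : G, orderOf g ≤ n →
    g ∈ rad (⊤ : Subgroup G) := by
  induction n with
  | zero =>
    intro g hg
    have h1 := orderOf_pos_iff.2 (hG.per g)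
    omega
  | succ n ih =>
    intro g hg
    by_cases hg1 : orderOf g = 1
    · rw [orderOf_eq_one_iff.1 hg1]
      exact one_mem _
    obtain ⟨q, hq, hqd⟩ := Nat.exists_prime_and_dvd hg1
    have hpos := orderOf_pos_iff.2 (hG.per g)
    -- proper powers are in the radical
    have hpow : ∀ d : ℕ, d ∣ orderOf g → d ≠ 1 → g ^ d ∈ rad (⊤ : Subgroup G) := by
      intro d hd hd1
      apply ih
      have hd0 : d ≠ 0 := by
        rintro rfl
        have := Nat.eq_zero_of_zero_dvd hd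
        omega
      rw [orderOf_pow_of_dvd hd0 hd]
      have h1 : orderOf g / d < orderOf g := Nat.div_lt_self hpos (by omega)
      omega
    obtain ⟨i, m, hm, him⟩ := Nat.exists_eq_pow_mul_and_not_dvd
      (n := orderOf g) hpos.ne' q hq.one_lt.ne'
    by_cases hm1 : m = 1
    · have h1 : ∃ j : ℕ, g ^ q ^ j = 1 := by
        refine ⟨i, ?_⟩
        rw [hm1, mul_one] at him
        rw [← him, pow_orderOf_eq_one]
      exact hG.step4 hq h1 (hpow q hqd hq.one_lt.ne')
    · have h1 : g ^ m ∈ rad (⊤ : Subgroup G) := hpow m ⟨q ^ i, by rw [him, mul_comm]⟩ hm1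
      have hi0 : i ≠ 0 := by
        rintro rfl
        rw [pow_zero, one_mul] at him
        exact hm (by rw [← him]; exact hqd)
      have h2 : g ^ q ^ i ∈ rad (⊤ : Subgroup G) := by
        refine hpow (q ^ i) ⟨m, him⟩ ?_
        have h3 := Nat.one_lt_pow hi0 hq.one_lt
        omega
      exact mem_of_pow_mem h2 h1 (Nat.Coprime.pow_left i ((hq.coprime_iff_not_dvd).2 hm))

/-- **The theorem.** -/
theorem Cls.locally_finite (hG : Cls G) (S : Set G) (hS : S.Finite) :
    ((closure S : Subgroup G) : Set G).Finite :=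
  LF_rad (⊤ : Subgroup G) S hS fun g _ => hG.mem_rad_top (orderOf g) g (le_refl _)

end Pool.Agent.Lib.MP_032401_al
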