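import Pool.Agent.Lib.MP_032401_al.Spart

/-!
# MP_032401_al: Lemma NB
-/

set_option autoImplicit false

namespace Pool.Agent.Lib.MP_032401_al

open Subgroup
open scoped commutatorElement

variable {G : Type} [Group G]

theorem closure_comm2 {S T : Set G} (h : ∀ x ∈ S, ∀ y ∈ T, x * y = y * x) :
    ∀ x ∈ closure S, ∀ y ∈ closure T, x * y = y * x := by
  have h1 : closure S ≤ Subgroup.centralizer T := by
    rw [closure_le]
    intro x hx
    rw [SetLike.mem_coe, Subgroup.mem_centralizer_iff]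
    intro y hy
    exact (h x hx y hy).symm
  intro x hx y hy
  have h2 := h1 hx
  rw [← Subgroup.centralizer_closure, Subgroup.mem_centralizer_iff] at h2
  exact (h2 y hy).symm

theorem finite_of_comm (hper : ∀ g : G, IsOfFinOrder g) {S : Set G} (hS : S.Finite)
    (hc : ∀ x ∈ S, ∀ y ∈ S, x * y = y * x) : ((closure S : Subgroup G) : Set G).Finite := by
  induction S, hS using Set.Finite.induction_on with
  | empty =>
    rw [Subgroup.closure_empty]
    simp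
  | @insert a s _ _ ih =>
    have h1 := ih (fun x hx y hy => hc x (Set.mem_insert_of_mem a hx) y (Set.mem_insert_of_mem a hy))
    rw [Set.insert_eq, Subgroup.closure_union, sup_comm, ← Subgroup.zpowers_eq_closure]
    refine sup_finite h1 (hper a).finite_zpowers ?_
    rw [zpowers_le]
    have h2 : closure {a} ≤ normalizer ((closure s : Subgroup G) : Set G) := by
      rw [Subgroup.le_normalizer_closure_iff]
      intro h hh g hg
      have h3 := closure_comm2 (S := {a}) (T := s) (fun x hx y hy => by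
        rw [Set.mem_singleton_iff] at hx
        rw [hx]
        exact hc a (Set.mem_insert a s) y (Set.mem_insert_of_mem a hy)) h hh g
        (subset_closure hg)
      rw [h3, mul_inv_cancel_right]
      exact subset_closure hg
    exact h2 (subset_closure rfl)

/-- the conjugates of an element on which `a` acts without fixed points generate an abelian
group -/
theorem Cls.exists_E (hG : Cls G) {p s : ℕ} (hp : p.Prime) (hs : s.Prime) {N : Subgroup G}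
    (hNf : (N : Set G).Finite) (hNc : ∀ x ∈ N, ∀ y ∈ N, x * y = y * x)
    (he : ∀ n ∈ N, n ^ s = 1) {a : G} (ha : a ∈ N) {X : Subgroup G} (hX : Fpf a X)
    (hXp : ∀ x ∈ X, x ^ p = 1) {x : G} (hx : x ∈ X) :
    ∃ E : Subgroup G, Fpf a E ∧ (∀ e ∈ E, e ^ p = 1) ∧ (∀ n ∈ N, ∀ e ∈ E, n * e * n⁻¹ ∈ E) ∧
      x ∈ E := by
  let S : Set G := {y | ∃ n ∈ N, n * x * n⁻¹ = y}
  have hSf : S.Finite := by
    refine (hNf.image (fun n => n * x * n⁻¹)).subset ?_
    rintro y ⟨n, hn, hy⟩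
    exact ⟨n, hn, hy⟩
  have hSc : ∀ y ∈ S, ∀ z ∈ S, y * z = z * y := by
    rintro _ ⟨n, hn, rfl⟩ _ ⟨m, hm, rfl⟩
    have hg : n⁻¹ * m ∈ N := N.mul_mem (N.inv_mem hn) hm
    have h1 := hG.lemmaP hs (he a ha) (he _ hg) (hNc a ha _ hg) hp hX hXp hx
    calc n * x * n⁻¹ * (m * x * m⁻¹) = n * (x * (n⁻¹ * m * x * (n⁻¹ * m)⁻¹)) * n⁻¹ := by group
      _ = n * ((n⁻¹ * m * x * (n⁻¹ * m)⁻¹) * x) * n⁻¹ := by rw [h1]
      _ = m * x * m⁻¹ * (n * x * n⁻¹) := by group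
  have hEf := finite_of_comm hG.per hSf hSc
  have hEc := closure_comm hSc
  have hxS : x ∈ S := ⟨1, N.one_mem, by group⟩
  have hxE : x ∈ closure S := subset_closure hxS
  have hinv : ∀ n ∈ N, ∀ e ∈ closure S, n * e * n⁻¹ ∈ closure S := by
    have h1 : N ≤ normalizer ((closure S : Subgroup G) : Set G) := by
      rw [Subgroup.le_normalizer_closure_iff]
      rintro n hn _ ⟨m, hm, rfl⟩
      exact subset_closure ⟨n * m, N.mul_mem hn hm, by group⟩
    rw [Subgroup.le_normalizer_iff] at h1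
    exact h1
  have hEp : ∀ e ∈ closure S, e ^ p = 1 := by
    intro e he'
    induction he' using closure_induction with
    | mem y hy =>
      obtain ⟨n, _, rfl⟩ := hy
      rw [conj_pow, hXp x hx]
      group
    | one => exact one_pow p
    | mul y z hy hz ihy ihz =>
      rw [(show Commute y z from hEc y hy z hz).mul_pow, ihy, ihz, one_mul]
    | inv y _ ihy => rw [inv_pow, ihy, inv_one]
  -- every element is a commutator with a
  let T : Subgroup G :=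
    { carrier := {e | ∃ b ∈ closure S, ⁅b, a⁆ = e}
      one_mem' := ⟨1, one_mem _, commutatorElement_one_left a⟩
      mul_mem' := by
        rintro _ _ ⟨b, hb, rfl⟩ ⟨c, hc, rfl⟩
        exact ⟨b * c, mul_mem hb hc, comm_hom hEc (hinv a ha) hb hc⟩
      inv_mem' := by
        rintro _ ⟨b, hb, rfl⟩
        refine ⟨b⁻¹, inv_mem hb, ?_⟩
        have h1 := comm_hom hEc (hinv a ha) hb (inv_mem hb)
        rw [mul_inv_cancel, commutatorElement_one_left] at h1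
        exact eq_inv_of_mul_eq_one_right h1.symm }
  have hX0 : ∃ b ∈ closure S, ⁅b, a⁆ = x := by
    let X0 : Subgroup G := closure {y | ∃ i : ℤ, a ^ i * x * (a ^ i)⁻¹ = y}
    have h1 : X0 ≤ X := by
      rw [closure_le]
      rintro _ ⟨i, rfl⟩
      have h2 := zpowers_le_normalizer hX.fin hX.inv (zpow_mem (mem_zpowers a) i)
      exact (mem_normalizer_iff.1 h2 x).1 hx
    have h2 : ∀ y ∈ X0, a * y * a⁻¹ ∈ X0 := by
      have h3 : closure {a} ≤ normalizer ((X0 : Subgroup G) : Set G) := by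
        rw [Subgroup.le_normalizer_closure_iff]
        rintro b hb _ ⟨i, rfl⟩
        rw [← Subgroup.zpowers_eq_closure] at hb
        obtain ⟨j, rfl⟩ := hb
        refine subset_closure ⟨j + i, ?_⟩
        show a ^ (j + i) * x * (a ^ (j + i))⁻¹ = a ^ j * (a ^ i * x * (a ^ i)⁻¹) * (a ^ j)⁻¹
        rw [zpow_add]
        group
      rw [Subgroup.le_normalizer_iff] at h3
      exact h3 a (subset_closure rfl)
    have h3 : X0 ≤ closure S := by
      rw [closure_le]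
      rintro _ ⟨i, rfl⟩
      exact subset_closure ⟨a ^ i, zpow_mem ha i, rfl⟩
    obtain ⟨b, hb, hbx⟩ := (hX.of_le h1 h2).surj x (subset_closure ⟨0, by simp⟩)
    exact ⟨b, h3 hb, hbx⟩
  have hST : closure S ≤ T := by
    rw [closure_le]
    rintro _ ⟨n, hn, rfl⟩
    obtain ⟨b, hb, hbx⟩ := hX0
    refine ⟨n * b * n⁻¹, hinv n hn b hb, ?_⟩
    have h1 : n * a = a * n := hNc n hn a ha
    have h2 : a = n * a * n⁻¹ := by rw [h1]; group
    calc ⁅n * b * n⁻¹, a⁆ = ⁅n * b * n⁻¹, n * a * n⁻¹⁆ := by rw [← h2]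
      _ = n * ⁅b, a⁆ * n⁻¹ := by simp only [commutatorElement_def]; group
      _ = n * x * n⁻¹ := by rw [hbx]
  exact ⟨closure S, ⟨hEf, hEc, hinv a ha, fix_of_surj hEf (hinv a ha) fun e he' => hST he'⟩, hEp,
    hinv, hxE⟩

/-! ### the groups generated by the primary parts -/

/-- generated by the fixed point free `s`-subgroups -/
def As (t : G) (s : ℕ) : Subgroup G :=
  closure {x | ∃ M : Subgroup G, Fpf t M ∧ x ∈ M ∧ ∀ m ∈ M, ∃ k : ℕ, m ^ s ^ k = 1}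

/-- generated by the fixed point free `s'`-subgroups -/
def Bs (t : G) (s : ℕ) : Subgroup G :=
  closure {x | ∃ M : Subgroup G, Fpf t M ∧ x ∈ M ∧ ∀ m ∈ M, ∃ j : ℕ, ¬ s ∣ j ∧ m ^ j = 1}

theorem Cls.AB_comm (hG : Cls G) {p s : ℕ} (hp : p.Prime) (hs : s.Prime) {t : G}
    (ht : t ^ p = 1) : ∀ α ∈ As t s, ∀ β ∈ Bs t s, α * β = β * α := by
  apply closure_comm2
  rintro x ⟨M, hM, hxM, hM'⟩ y ⟨M2, hM2, hyM2, hM2'⟩
  exact hG.coprime hp ht hM hM2 (coprime_card hM.fin hM2.fin hs hM' hM2') x hxM y hyM2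

theorem Cls.pairAB (hG : Cls G) {p s : ℕ} (hp : p.Prime) (hs : s.Prime) {t : G}
    (ht : t ^ p = 1) {e : G} (he : e ^ p = 1) :
    ∃ α ∈ As t s, ∃ β ∈ Bs t s, t * e * t⁻¹ = α * β * e := by
  obtain ⟨_, hK, _, _⟩ := hG.step1 hp ht he
  have hc : ⁅t, e⁆ ∈ ⁅closure {t, e}, closure {t, e}⁆ :=
    Subgroup.commutator_mem_commutator (subset_closure (by simp)) (subset_closure (by simp))
  obtain ⟨i, j, k, m, hij, hi, hm, hj, _⟩ := decomp (hG.per ⁅t, e⁆) hs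
  refine ⟨⁅t, e⁆ ^ i, subset_closure ⟨spart _ hK.comm s, ?_, ⟨pow_mem hc i, k, hi⟩,
    fun x hx => hx.2⟩, ⁅t, e⁆ ^ j, subset_closure ⟨pprime _ hK.comm s hs, ?_,
    ⟨pow_mem hc j, m, hm, hj⟩, fun x hx => hx.2⟩, ?_⟩
  · refine hK.of_le (fun x hx => hx.1) ?_
    rintro x ⟨hx, l, hl⟩
    exact ⟨hK.inv x hx, l, by rw [conj_pow, hl]; group⟩
  · refine hK.of_le (fun x hx => hx.1) ?_
    rintro x ⟨hx, l, hl, hxl⟩
    exact ⟨hK.inv x hx, l, hl, by rw [conj_pow, hxl]; group⟩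
  · rw [← hij, commutatorElement_def]
    group

theorem Cls.key1 (hG : Cls G) {p s : ℕ} (hp : p.Prime) (hs : s.Prime) {t : G}
    (ht : t ^ p = 1) {N : Subgroup G} (hN : Fpf t N) (hNs : ∀ n ∈ N, n ^ s = 1) {a : G}
    (ha : a ∈ N) {e : G} (he : e ^ p = 1) : ∃ α ∈ As t s, ∃ β ∈ Bs t s, ⁅e, a⁆ = α * β := by
  have hNA : N ≤ As t s := fun n hn =>
    subset_closure ⟨N, hN, hn, fun m hm => ⟨1, by rw [pow_one]; exact hNs m hm⟩⟩
  have hAB := hG.AB_comm hp hs ht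
  obtain ⟨b, hb, hba⟩ := hN.surj a ha
  obtain ⟨α, hα, β, hβ, h1⟩ := hG.pairAB hp hs ht he
  have he1 : (b⁻¹ * e * b⁻¹⁻¹) ^ p = 1 := by rw [conj_pow, he]; group
  obtain ⟨α1, hα1, β1, hβ1, h2⟩ := hG.pairAB hp hs ht he1
  have hn : t * b⁻¹ * t⁻¹ ∈ N := hN.inv _ (N.inv_mem hb)
  set n := t * b⁻¹ * t⁻¹ with hndef
  have hbn : b * n = a := by rw [← hba, commutatorElement_def, hndef]; group
  -- compute
  have h3 : t * (b⁻¹ * e * b⁻¹⁻¹) * t⁻¹ = n * (t * e * t⁻¹) * n⁻¹ := by rw [hndef]; group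
  rw [h3, h1] at h2
  have h4 : ⁅e, a⁆ = b * (α1 * β1)⁻¹ * n * (α * β) * a⁻¹ := by
    have h5 : e * a = b * (α1 * β1)⁻¹ * n * (α * β) * e := by
      calc e * a = b * ((α1 * β1)⁻¹ * (α1 * β1 * (b⁻¹ * e * b⁻¹⁻¹))) * b⁻¹ * a := by group
        _ = b * ((α1 * β1)⁻¹ * (n * (α * β * e) * n⁻¹)) * b⁻¹ * a := by rw [h2]
        _ = b * (α1 * β1)⁻¹ * n * (α * β) * e * ((b * n)⁻¹ * a) := by group
        _ = b * (α1 * β1)⁻¹ * n * (α * β) * e := by rw [hbn]; group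
    rw [commutatorElement_def, h5]
    group
  refine ⟨b * α1⁻¹ * n * α * a⁻¹, ?_, β1⁻¹ * β, ?_, ?_⟩
  · exact mul_mem (mul_mem (mul_mem (mul_mem (hNA hb) (inv_mem hα1)) (hNA hn)) hα)
      (inv_mem (hNA ha))
  · exact mul_mem (inv_mem hβ1) hβ
  · have c1 : Commute β1⁻¹ (α1⁻¹ * n * α) := by
      have := hAB _ (mul_mem (mul_mem (inv_mem hα1) (hNA hn)) hα) _ (inv_mem hβ1)
      exact this.symm
    have c2 : Commute (β1⁻¹ * β) a⁻¹ :=
      (hAB _ (inv_mem (hNA ha)) _ (mul_mem (inv_mem hβ1) hβ)).symm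
    rw [h4]
    calc b * (α1 * β1)⁻¹ * n * (α * β) * a⁻¹ = b * (β1⁻¹ * (α1⁻¹ * n * α)) * β * a⁻¹ := by group
      _ = b * ((α1⁻¹ * n * α) * β1⁻¹) * β * a⁻¹ := by rw [c1.eq]
      _ = b * (α1⁻¹ * n * α) * ((β1⁻¹ * β) * a⁻¹) := by group
      _ = b * (α1⁻¹ * n * α) * (a⁻¹ * (β1⁻¹ * β)) := by rw [c2.eq]
      _ = b * α1⁻¹ * n * α * a⁻¹ * (β1⁻¹ * β) := by group

theorem Cls.E_le_As (hG : Cls G) {p s : ℕ} (hp : p.Prime) (hs : s.Prime) {t : G}
    (ht : t ^ p = 1) {N : Subgroup G} (hN : Fpf t N) (hNs : ∀ n ∈ N, n ^ s = 1) {a : G}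
    (ha : a ∈ N) {E : Subgroup G} (hE : Fpf a E) (hEp : ∀ e ∈ E, e ^ p = 1) : E ≤ As t s := by
  have haA : a ∈ As t s :=
    subset_closure ⟨N, hN, ha, fun m hm => ⟨1, by rw [pow_one]; exact hNs m hm⟩⟩
  intro e he
  obtain ⟨e1, he1, rfl⟩ := hE.surj e he
  obtain ⟨e2, he2, h2⟩ := hE.surj e1 he1
  obtain ⟨α, hα, β, hβ, h3⟩ := hG.key1 hp hs ht hN hNs ha (hEp e2 he2)
  have h4 : β * a = a * β := (hG.AB_comm hp hs ht a haA β hβ).symm
  have h5 : ⁅e1, a⁆ = α * a * α⁻¹ * a⁻¹ := by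
    rw [← h2, h3, commutatorElement_def]
    calc α * β * a * (α * β)⁻¹ * a⁻¹ = α * (β * a) * β⁻¹ * α⁻¹ * a⁻¹ := by group
      _ = α * (a * β) * β⁻¹ * α⁻¹ * a⁻¹ := by rw [h4]
      _ = α * a * α⁻¹ * a⁻¹ := by group
  rw [h5]
  exact mul_mem (mul_mem (mul_mem hα haA) (inv_mem hα)) (inv_mem haA)

theorem Cls.NB2 (hG : Cls G) {p s : ℕ} (hp : p.Prime) (hs : s.Prime) {t : G}
    (ht : t ^ p = 1) {N : Subgroup G} (hN : Fpf t N) (hNs : ∀ n ∈ N, n ^ s = 1) {a : G}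
    (ha : a ∈ N) {E : Subgroup G} (hE : Fpf a E) (hEp : ∀ e ∈ E, e ^ p = 1) {e : G}
    (he : e ∈ E) : ∀ d ∈ ⁅closure {t, e}, closure {t, e}⁆, ∃ k : ℕ, d ^ s ^ k = 1 := by
  obtain ⟨_, hK, hKe, _⟩ := hG.step1 hp ht (hEp e he)
  have heA := hG.E_le_As hp hs ht hN hNs ha hE hEp he
  intro d hd
  obtain ⟨i, j, k, m, hij, hi, hm, hj, _⟩ := decomp (hG.per d) hs
  have h1 : d ^ j = 1 := by
    apply hKe.fix _ (pow_mem hd j)
    have h2 : d ^ j ∈ Bs t s := by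
      refine subset_closure ⟨pprime _ hK.comm s hs, ?_, ⟨pow_mem hd j, m, hm, hj⟩,
        fun x hx => hx.2⟩
      refine hK.of_le (fun x hx => hx.1) ?_
      rintro x ⟨hx, l, hl, hxl⟩
      exact ⟨hK.inv x hx, l, hl, by rw [conj_pow, hxl]; group⟩
    exact (hG.AB_comm hp hs ht e heA _ h2).symm
  rw [h1, mul_one] at hij
  exact ⟨k, by rw [hij]; exact hi⟩

end Pool.Agent.Lib.MP_032401_al
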