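import Pool.Agent.Lib.MP_032401_al.NB

/-!
# MP_032401_al: Lemma NB, end of the proof
-/

set_option autoImplicit false

namespace Pool.Agent.Lib.MP_032401_al

open Subgroup
open scoped commutatorElement

variable {G : Type} [Group G]

/-- two commuting elements of order `s` all of whose combinations act without fixed points -/
theorem noncyclic_aux {E : Subgroup G} (hc : ∀ x ∈ E, ∀ y ∈ E, x * y = y * x) {s : ℕ}
    (hs : 0 < s) {n1 n2 : G} (h12 : n1 * n2 = n2 * n1) (hn1 : n1 ^ s = 1) (hn2 : n2 ^ s = 1)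
    (hinv1 : ∀ e ∈ E, n1 * e * n1⁻¹ ∈ E) (hinv2 : ∀ e ∈ E, n2 * e * n2⁻¹ ∈ E)
    (hf1 : ∀ j : ℕ, Fpf (n1 * n2 ^ j) E) (hf2 : ∀ i : ℕ, 0 < i → i < s → Fpf (n2 ^ i) E) :
    ∀ e ∈ E, e ^ s = 1 := by
  let inst : CommGroup E :=
    { (inferInstance : Group E) with mul_comm := fun x y => Subtype.ext (hc x.1 x.2 y.1 y.2) }
  have hcom : Commute n1 n2 := h12
  have hpinv1 : ∀ i : ℕ, ∀ e ∈ E, n1 ^ i * e * (n1 ^ i)⁻¹ ∈ E := by
    intro i
    induction i with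
    | zero => intro e he; simpa using he
    | succ i ih =>
      intro e he
      have h1 : n1 ^ (i + 1) * e * (n1 ^ (i + 1))⁻¹ = n1 * (n1 ^ i * e * (n1 ^ i)⁻¹) * n1⁻¹ := by
        rw [pow_succ']; group
      rw [h1]; exact hinv1 _ (ih e he)
  have hpinv2 : ∀ i : ℕ, ∀ e ∈ E, n2 ^ i * e * (n2 ^ i)⁻¹ ∈ E := by
    intro i
    induction i with
    | zero => intro e he; simpa using he
    | succ i ih =>
      intro e he
      have h1 : n2 ^ (i + 1) * e * (n2 ^ (i + 1))⁻¹ = n2 * (n2 ^ i * e * (n2 ^ i)⁻¹) * n2⁻¹ := by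
        rw [pow_succ']; group
      rw [h1]; exact hinv2 _ (ih e he)
  -- the norm of one element
  have norm1 : ∀ m : G, m ^ s = 1 → Fpf m E → ∀ e ∈ E, ∀ w : ℕ → E,
      (∀ i, (w i : G) = m ^ i * e * (m ^ i)⁻¹) → ∏ i ∈ Finset.range s, w i = 1 := by
    intro m hms hm e he w hw
    have h1 : ∀ n : ℕ, (e * m) ^ n * (m ^ n)⁻¹ = ((∏ i ∈ Finset.range n, w i : E) : G) := by
      intro n
      induction n with
      | zero => simp
      | succ n ih =>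
        rw [Finset.prod_range_succ]
        have h2 : ((∏ i ∈ Finset.range n, w i) * w n : E) =
            (⟨((∏ i ∈ Finset.range n, w i : E) : G) * (w n : G),
              E.mul_mem (∏ i ∈ Finset.range n, w i : E).2 (w n).2⟩ : E) := rfl
        rw [h2]
        show _ = ((∏ i ∈ Finset.range n, w i : E) : G) * (w n : G)
        rw [← ih, hw n, pow_succ (e * m), pow_succ m]
        group
    have h2 := h1 s
    have h3 : (e * m) ^ s = 1 := hm.pow hms he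
    rw [h3, hms, inv_one, one_mul] at h2
    exact Subtype.ext h2.symm
  intro e he
  -- the double family
  have hmem : ∀ i j : ℕ, n1 ^ i * (n2 ^ (i * j) * e * (n2 ^ (i * j))⁻¹) * (n1 ^ i)⁻¹ ∈ E :=
    fun i j => hpinv1 i _ (hpinv2 (i * j) e he)
  let v : ℕ → ℕ → E := fun i j =>
    ⟨n1 ^ i * (n2 ^ (i * j) * e * (n2 ^ (i * j))⁻¹) * (n1 ^ i)⁻¹, hmem i j⟩
  have hrow : ∀ j, ∏ i ∈ Finset.range s, v i j = 1 := by
    intro j
    refine norm1 (n1 * n2 ^ j) ?_ (hf1 j) e he _ (fun i => ?_)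
    · rw [(hcom.pow_right j).mul_pow, hn1, one_mul, ← pow_mul, mul_comm, pow_mul, hn2, one_pow]
    · show n1 ^ i * (n2 ^ (i * j) * e * (n2 ^ (i * j))⁻¹) * (n1 ^ i)⁻¹ =
        (n1 * n2 ^ j) ^ i * e * ((n1 * n2 ^ j) ^ i)⁻¹
      rw [(hcom.pow_right j).mul_pow, ← pow_mul, mul_comm j i]
      group
  have hcol : ∀ i, 0 < i → i < s → ∏ j ∈ Finset.range s, v i j = 1 := by
    intro i hi his
    refine norm1 (n2 ^ i) ?_ (hf2 i hi his) (n1 ^ i * e * (n1 ^ i)⁻¹) (hpinv1 i e he) _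
      (fun j => ?_)
    · rw [← pow_mul, mul_comm, pow_mul, hn2, one_pow]
    · show n1 ^ i * (n2 ^ (i * j) * e * (n2 ^ (i * j))⁻¹) * (n1 ^ i)⁻¹ =
        (n2 ^ i) ^ j * (n1 ^ i * e * (n1 ^ i)⁻¹) * ((n2 ^ i) ^ j)⁻¹
      rw [← pow_mul]
      have h1 : n1 ^ i * n2 ^ (i * j) = n2 ^ (i * j) * n1 ^ i := (hcom.pow_pow i (i * j)).eq
      calc n1 ^ i * (n2 ^ (i * j) * e * (n2 ^ (i * j))⁻¹) * (n1 ^ i)⁻¹
          = (n1 ^ i * n2 ^ (i * j)) * e * (n1 ^ i * n2 ^ (i * j))⁻¹ := by group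
        _ = (n2 ^ (i * j) * n1 ^ i) * e * (n2 ^ (i * j) * n1 ^ i)⁻¹ := by rw [h1]
        _ = n2 ^ (i * j) * (n1 ^ i * e * (n1 ^ i)⁻¹) * (n2 ^ (i * j))⁻¹ := by group
  have hsum : ∏ i ∈ Finset.range s, ∏ j ∈ Finset.range s, v i j = 1 := by
    rw [Finset.prod_comm]
    exact Finset.prod_eq_one fun j _ => hrow j
  rw [Finset.prod_eq_single 0 (fun i hi hi0 => hcol i (Nat.pos_of_ne_zero hi0)
    (Finset.mem_range.1 hi)) (fun h => absurd (Finset.mem_range.2 hs) h)] at hsum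
  have hv0 : ∀ j, v 0 j = ⟨e, he⟩ := by
    intro j
    apply Subtype.ext
    show n1 ^ 0 * (n2 ^ (0 * j) * e * (n2 ^ (0 * j))⁻¹) * (n1 ^ 0)⁻¹ = e
    simp
  rw [Finset.prod_congr rfl (fun j _ => hv0 j), Finset.prod_const, Finset.card_range] at hsum
  have h5 := congrArg Subtype.val hsum
  exact h5

/-- a maximal subgroup with a property -/
theorem exists_maximal_sub {N : Subgroup G} (hN : (N : Set G).Finite) (P : Subgroup G → Prop)
    (h0 : P ⊥) : ∃ H : Subgroup G, H ≤ N ∧ P H ∧ ∀ H' : Subgroup G, H' ≤ N → P H' → H ≤ H' →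
      H' = H := by
  have hfin : {H : Subgroup G | H ≤ N ∧ P H}.Finite := by
    have h1 : ((fun H : Subgroup G => (H : Set G)) ⁻¹' {b | b ⊆ (N : Set G)}).Finite :=
      hN.finite_subsets.preimage (SetLike.coe_injective.injOn)
    exact h1.subset fun H hH => hH.1
  obtain ⟨H, hH⟩ := hfin.exists_maximal ⟨⊥, bot_le, h0⟩
  refine ⟨H, hH.prop.1, hH.prop.2, fun H' h1 h2 h3 => ?_⟩
  exact le_antisymm (hH.le_of_ge ⟨h1, h2⟩ h3) h3

/-- **Lemma NB.** -/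
theorem Cls.NB (hG : Cls G) {p s : ℕ} (hp : p.Prime) (hs : s.Prime) (hps : s ≠ p)
    (hs2 : s ≠ 2) {t : G} (ht : t ^ p = 1) {N : Subgroup G} (hN : Fpf t N) (hi : Irr t N)
    (he : ∀ n ∈ N, n ^ s = 1) (hnc : ∃ n1 ∈ N, ∃ n2 ∈ N, n2 ≠ 1 ∧ n1 ∉ zpowers n2) {a : G}
    (ha : a ∈ N) {X : Subgroup G} (hX : Fpf a X) (hXp : ∀ x ∈ X, x ^ p = 1) :
    ∀ x ∈ X, x = 1 := by
  intro x hx
  by_contra hx1
  obtain ⟨E, hE, hEp, hEN, hxE⟩ := hG.exists_E hp hs hN.fin hN.comm he ha hX hXp hx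
  -- a maximal subgroup with nontrivial centraliser in E
  obtain ⟨N0, hN0, ⟨e0, he0, he01, he0c⟩, hmax⟩ := exists_maximal_sub hN.fin
    (fun H => ∃ e ∈ E, e ≠ 1 ∧ ∀ n ∈ H, n * e = e * n)
    ⟨x, hxE, hx1, fun n hn => by rw [Subgroup.mem_bot] at hn; rw [hn, one_mul, mul_one]⟩
  -- elements outside N0 have no fixed points in C_E(N0)
  have hfix : ∀ n ∈ N, n ∉ N0 → ∀ e ∈ E, (∀ m ∈ N0, m * e = e * m) → n * e = e * n → e = 1 := by
    intro n hn hn0 e heE hec hne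
    by_contra he1
    have h1 : N0 ⊔ zpowers n = N0 := by
      apply hmax _ (sup_le hN0 (zpowers_le.2 hn)) ?_ le_sup_left
      refine ⟨e, heE, he1, fun m hm => ?_⟩
      have h2 : N0 ⊔ zpowers n ≤ Subgroup.centralizer {e} := by
        refine sup_le (fun y hy => ?_) (zpowers_le.2 ?_)
        · rw [Subgroup.mem_centralizer_iff]
          rintro z hz
          rw [Set.mem_singleton_iff] at hz
          rw [hz]; exact (hec y hy).symm
        · rw [Subgroup.mem_centralizer_iff]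
          rintro z hz
          rw [Set.mem_singleton_iff] at hz
          rw [hz]; exact hne.symm
      have h3 := h2 hm
      rw [Subgroup.mem_centralizer_iff] at h3
      exact (h3 e rfl).symm
    apply hn0
    rw [← h1]
    exact (le_sup_right : zpowers n ≤ N0 ⊔ zpowers n) (mem_zpowers n)
  have hps' : Nat.Coprime p s := (Nat.coprime_primes hp hs).2 hps.symm
  -- N0 is not trivial
  have hN0bot : N0 ≠ ⊥ := by
    intro hbot
    obtain ⟨n1, hn1, n2, hn2, hn21, hn12⟩ := hnc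
    have hF : ∀ n ∈ N, n ≠ 1 → Fpf n E := by
      intro n hn hne
      refine ⟨hE.fin, hE.comm, hEN n hn, fun e heE hen => ?_⟩
      refine hfix n hn (by rw [hbot, Subgroup.mem_bot]; exact hne) e heE (fun m hm => ?_) hen.symm
      rw [hbot, Subgroup.mem_bot] at hm
      rw [hm, one_mul, mul_one]
    have h1 := noncyclic_aux hE.comm hs.pos (hN.comm n1 hn1 n2 hn2) (he n1 hn1) (he n2 hn2)
      (hEN n1 hn1) (hEN n2 hn2)
      (fun j => hF _ (N.mul_mem hn1 (N.pow_mem hn2 j)) (fun h => hn12 (by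
        rw [eq_inv_of_mul_eq_one_left h]
        exact inv_mem (pow_mem (mem_zpowers n2) j))))
      (fun i hi1 hi2 => hF _ (N.pow_mem hn2 i) (fun h => hn21 (by
        refine eq_one_of_pow h (he n2 hn2) ?_
        exact (Nat.coprime_comm.1 ((hs.coprime_iff_not_dvd).2
          (Nat.not_dvd_of_pos_of_lt hi1 hi2)))))) x hxE
    exact hx1 (eq_one_of_pow (hEp x hxE) h1 hps')
  -- N0 is not the whole group
  have hN0top : N0 ≠ N := by
    intro htop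
    apply he01
    exact hE.fix e0 he0 (he0c a (by rw [htop]; exact ha)).symm
  -- an element of N0 whose conjugate is not in N0
  obtain ⟨n0, hn0, hn0'⟩ : ∃ n0 ∈ N0, t⁻¹ * n0 * t ∉ N0 := by
    by_contra hcon
    push Not at hcon
    have h1 : ∀ y ∈ N0, t * y * t⁻¹ ∈ N0 := by
      have h2 := inv_of_finite (t := t⁻¹) (hN.fin.subset hN0) (by
        intro y hy
        rw [inv_inv]
        exact hcon y hy)
      intro y hy
      have h3 := h2 y hy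
      rw [inv_inv] at h3
      exact h3
    rcases hi.irr N0 hN0 h1 with h | h
    · exact hN0bot h
    · exact hN0top h
  have hinvt := hN.inv'
  -- the subgroup C_E(N0)
  let E0 : Subgroup G :=
    { carrier := {e | e ∈ E ∧ ∀ m ∈ N0, m * e = e * m}
      one_mem' := ⟨E.one_mem, fun m _ => by rw [one_mul, mul_one]⟩
      mul_mem' := by
        rintro u v ⟨hu, hu'⟩ ⟨hv, hv'⟩
        refine ⟨E.mul_mem hu hv, fun m hm => ?_⟩
        rw [← mul_assoc, hu' m hm, mul_assoc, hv' m hm, mul_assoc]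
      inv_mem' := by
        rintro u ⟨hu, hu'⟩
        refine ⟨E.inv_mem hu, fun m hm => ?_⟩
        exact ((show Commute m u from hu' m hm).inv_right).eq }
  have hE0f : ∀ n ∈ N, n ∉ N0 → Fpf n E0 := by
    intro n hn hn0
    refine ⟨hE.fin.subset (fun y hy => hy.1), fun y hy z hz => hE.comm y hy.1 z hz.1, ?_, ?_⟩
    · rintro y ⟨hy, hy'⟩
      refine ⟨hEN n hn y hy, fun m hm => ?_⟩
      have h1 : m * n = n * m := hN.comm m (hN0 hm) n hn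
      calc m * (n * y * n⁻¹) = (m * n) * y * n⁻¹ := by group
        _ = n * (m * y) * n⁻¹ := by rw [h1]; group
        _ = n * (y * m) * n⁻¹ := by rw [hy' m hm]
        _ = n * y * (n⁻¹ * (n * m)) * n⁻¹ := by group
        _ = n * y * (n⁻¹ * (m * n)) * n⁻¹ := by rw [h1]
        _ = n * y * n⁻¹ * m := by group
    · rintro y ⟨hy, hy'⟩ hny
      exact hfix n hn hn0 y hy hy' hny.symm
  have he0E0 : e0 ∈ E0 := ⟨he0, he0c⟩
  -- the element x0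
  set x0 := t * e0 * t⁻¹ with hx0
  have hX0 : x0 ∈ E0.map (MulAut.conj t).toMonoidHom := ⟨e0, he0E0, rfl⟩
  have hFpf0 : ∀ m ∈ N0, t⁻¹ * m * t ∉ N0 → Fpf m (E0.map (MulAut.conj t).toMonoidHom) := by
    intro m hm hm'
    have h1 := (hE0f _ (hinvt m (hN0 hm)) hm').conjg t
    have h2 : t * (t⁻¹ * m * t) * t⁻¹ = m := by group
    rw [h2] at h1
    exact h1
  have hep : e0 ^ p = 1 := hEp e0 he0
  have hx0p : x0 ^ p = 1 := by rw [hx0, conj_pow, hep]; group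
  have hNB2 := hG.NB2 hp hs ht hN he ha hE hEp he0
  have htK : t ∈ closure {t, e0} := subset_closure (by simp)
  have heK : e0 ∈ closure {t, e0} := subset_closure (by simp)
  have hx0K : x0 ∈ closure {t, e0} := mul_mem (mul_mem htK heK) (inv_mem htK)
  -- the main relation
  have hR : ∀ m ∈ N0, t⁻¹ * m * t ∉ N0 →
      (e0 * x0 * e0⁻¹)⁻¹ * x0 = (m * x0 * m⁻¹) * (e0 * (m * x0 * m⁻¹) * e0⁻¹)⁻¹ := by
    intro m hm hm'
    have h1 := hFpf0 m hm hm'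
    have hms : m ^ s = 1 := he m (hN0 hm)
    have h2 : (x0 * m) ^ s = 1 := h1.pow hms hX0
    have hme : m * e0 = e0 * m := he0c m hm
    have h3 : ⁅e0, x0 * m⁆ = ⁅e0, x0⁆ := by
      rw [commutatorElement_def, commutatorElement_def]
      have h4 : m * e0⁻¹ = e0⁻¹ * m := ((show Commute m e0 from hme).inv_right).eq
      calc e0 * (x0 * m) * e0⁻¹ * (x0 * m)⁻¹ = e0 * x0 * (m * e0⁻¹) * m⁻¹ * x0⁻¹ := by group
        _ = e0 * x0 * (e0⁻¹ * m) * m⁻¹ * x0⁻¹ := by rw [h4]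
        _ = e0 * x0 * e0⁻¹ * x0⁻¹ := by group
    have h5 : ∃ k : ℕ, ⁅e0, x0 * m⁆ ^ s ^ k = 1 := by
      rw [h3]
      exact hNB2 _ (Subgroup.commutator_mem_commutator heK hx0K)
    have h6 := hG.lemmaSG hs (hG.pair hp hs hep h2) h5 ⟨1, by rw [pow_one]; exact h2⟩
    -- simplify
    have h7 : x0 * (e0 * (m * x0 * m⁻¹) * e0⁻¹) = (e0 * x0 * e0⁻¹) * (m * x0 * m⁻¹) := by
      have h8 : m * (e0 * x0 * e0⁻¹) * m⁻¹ = e0 * (m * x0 * m⁻¹) * e0⁻¹ := by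
        have h9 : m * e0 = e0 * m := hme
        calc m * (e0 * x0 * e0⁻¹) * m⁻¹ = (m * e0) * x0 * (m * e0)⁻¹ := by group
          _ = (e0 * m) * x0 * (e0 * m)⁻¹ := by rw [h9]
          _ = e0 * (m * x0 * m⁻¹) * e0⁻¹ := by group
      have h10 : e0 * (x0 * m) * e0⁻¹ = (e0 * x0 * e0⁻¹) * m := by
        have h4 : m * e0⁻¹ = e0⁻¹ * m := ((show Commute m e0 from hme).inv_right).eq
        calc e0 * (x0 * m) * e0⁻¹ = e0 * x0 * (m * e0⁻¹) := by group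
          _ = e0 * x0 * (e0⁻¹ * m) := by rw [h4]
          _ = (e0 * x0 * e0⁻¹) * m := by group
      rw [h10] at h6
      rw [← h8]
      calc x0 * (m * (e0 * x0 * e0⁻¹) * m⁻¹) = x0 * m * ((e0 * x0 * e0⁻¹) * m) * m⁻¹ * m⁻¹ := by
            group
        _ = (e0 * x0 * e0⁻¹) * m * (x0 * m) * m⁻¹ * m⁻¹ := by rw [h6]
        _ = (e0 * x0 * e0⁻¹) * (m * x0 * m⁻¹) := by group
    calc (e0 * x0 * e0⁻¹)⁻¹ * x0
        = (e0 * x0 * e0⁻¹)⁻¹ * (x0 * (e0 * (m * x0 * m⁻¹) * e0⁻¹)) *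
          (e0 * (m * x0 * m⁻¹) * e0⁻¹)⁻¹ := by group
      _ = (e0 * x0 * e0⁻¹)⁻¹ * ((e0 * x0 * e0⁻¹) * (m * x0 * m⁻¹)) *
          (e0 * (m * x0 * m⁻¹) * e0⁻¹)⁻¹ := by rw [h7]
      _ = (m * x0 * m⁻¹) * (e0 * (m * x0 * m⁻¹) * e0⁻¹)⁻¹ := by group
  -- the three cases
  have hodd : ∃ k : ℕ, s = 2 * k + 1 := hs.odd_of_ne_two hs2
  obtain ⟨k, hk⟩ := hodd
  have hn0s : n0 ^ s = 1 := he n0 (hN0 hn0)
  have hn2 : t⁻¹ * n0 ^ 2 * t ∉ N0 := by
    intro h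
    apply hn0'
    have h1 : t⁻¹ * n0 * t = (t⁻¹ * n0 ^ 2 * t) ^ (k + 1) := by
      have h2 : (t⁻¹ * n0 ^ 2 * t) ^ (k + 1) = t⁻¹ * (n0 ^ 2) ^ (k + 1) * t := by
        have h3 := conj_pow (a := t⁻¹) (b := n0 ^ 2) (i := k + 1)
        rw [inv_inv] at h3
        exact h3
      rw [h2, ← pow_mul, show 2 * (k + 1) = (2 * k + 1) + 1 by ring, pow_succ, ← hk, hn0s, one_mul]
    rw [h1]
    exact pow_mem h _
  have hninv : t⁻¹ * n0⁻¹ * t ∉ N0 := by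
    intro h
    apply hn0'
    have h1 : t⁻¹ * n0 * t = (t⁻¹ * n0⁻¹ * t)⁻¹ := by group
    rw [h1]
    exact inv_mem h
  have r1 := hR n0 hn0 hn0'
  have r2 := hR (n0 ^ 2) (pow_mem hn0 2) hn2
  have r3 := hR n0⁻¹ (inv_mem hn0) hninv
  have hne0 : n0 * e0 = e0 * n0 := he0c n0 hn0
  have hne0' : n0 * e0⁻¹ = e0⁻¹ * n0 := ((show Commute n0 e0 from hne0).inv_right).eq
  -- conjugation by n0 commutes with conjugation by e0
  have hcc : ∀ y : G, n0 * (e0 * y * e0⁻¹) * n0⁻¹ = e0 * (n0 * y * n0⁻¹) * e0⁻¹ := by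
    intro y
    calc n0 * (e0 * y * e0⁻¹) * n0⁻¹ = (n0 * e0) * y * (n0 * e0)⁻¹ := by group
      _ = (e0 * n0) * y * (e0 * n0)⁻¹ := by rw [hne0]
      _ = e0 * (n0 * y * n0⁻¹) * e0⁻¹ := by group
  -- L(x1) = R(x2)
  have q1 : (e0 * (n0 * x0 * n0⁻¹) * e0⁻¹)⁻¹ * (n0 * x0 * n0⁻¹) =
      (n0 ^ 2 * x0 * (n0 ^ 2)⁻¹) * (e0 * (n0 ^ 2 * x0 * (n0 ^ 2)⁻¹) * e0⁻¹)⁻¹ := by
    have h1 : n0 ^ 2 * x0 * (n0 ^ 2)⁻¹ = n0 * (n0 * x0 * n0⁻¹) * n0⁻¹ := by rw [sq]; group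
    rw [h1, ← hcc x0, ← hcc (n0 * x0 * n0⁻¹)]
    calc (n0 * (e0 * x0 * e0⁻¹) * n0⁻¹)⁻¹ * (n0 * x0 * n0⁻¹)
        = n0 * ((e0 * x0 * e0⁻¹)⁻¹ * x0) * n0⁻¹ := by group
      _ = n0 * ((n0 * x0 * n0⁻¹) * (e0 * (n0 * x0 * n0⁻¹) * e0⁻¹)⁻¹) * n0⁻¹ := by rw [r1]
      _ = n0 * (n0 * x0 * n0⁻¹) * n0⁻¹ *
          (n0 * (e0 * (n0 * x0 * n0⁻¹) * e0⁻¹) * n0⁻¹)⁻¹ := by group
  -- L(x1) = R(x0)
  have q2 : (e0 * (n0 * x0 * n0⁻¹) * e0⁻¹)⁻¹ * (n0 * x0 * n0⁻¹) = x0 * (e0 * x0 * e0⁻¹)⁻¹ := by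
    rw [← hcc x0]
    have h1 : n0 * (n0⁻¹ * x0 * n0⁻¹⁻¹) * n0⁻¹ = x0 := by group
    have h2 : n0 * (e0 * (n0⁻¹ * x0 * n0⁻¹⁻¹) * e0⁻¹) * n0⁻¹ = e0 * x0 * e0⁻¹ := by
      rw [hcc, h1]
    calc (n0 * (e0 * x0 * e0⁻¹) * n0⁻¹)⁻¹ * (n0 * x0 * n0⁻¹)
        = n0 * ((e0 * x0 * e0⁻¹)⁻¹ * x0) * n0⁻¹ := by group
      _ = n0 * ((n0⁻¹ * x0 * n0⁻¹⁻¹) * (e0 * (n0⁻¹ * x0 * n0⁻¹⁻¹) * e0⁻¹)⁻¹) * n0⁻¹ := by
          rw [r3]
      _ = n0 * (n0⁻¹ * x0 * n0⁻¹⁻¹) * n0⁻¹ *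
          (n0 * (e0 * (n0⁻¹ * x0 * n0⁻¹⁻¹) * e0⁻¹) * n0⁻¹)⁻¹ := by group
      _ = x0 * (e0 * x0 * e0⁻¹)⁻¹ := by rw [h1, h2]
  have q3 : (e0 * x0 * e0⁻¹)⁻¹ * x0 = x0 * (e0 * x0 * e0⁻¹)⁻¹ := by
    rw [r2, ← q1, q2]
  -- so x0 commutes with the commutator
  obtain ⟨_, hKx, _, _⟩ := hG.step1 hp hx0p hep
  have hx0K' : x0 ∈ closure {x0, e0} := subset_closure (by simp)
  have he0K' : e0 ∈ closure {x0, e0} := subset_closure (by simp)
  have hcomm1 : ⁅e0, x0⁆ = 1 := by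
    apply hKx.fix _ (Subgroup.commutator_mem_commutator he0K' hx0K')
    have h1 : Commute (e0 * x0 * e0⁻¹)⁻¹ x0 := q3
    have h2 : Commute (e0 * x0 * e0⁻¹) x0 := by
      have h3 := h1.inv_left
      rw [inv_inv] at h3
      exact h3
    rw [commutatorElement_def]
    exact (h2.mul_left (Commute.refl x0).inv_left).eq
  have hcomm2 : Commute e0 x0 := commutatorElement_eq_one_iff_commute.1 hcomm1
  -- e0⁻¹ x0 is both a p-element and an s-element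
  have hfin1 : (e0⁻¹ * x0) ^ p = 1 := by
    rw [hcomm2.inv_left.mul_pow, inv_pow, hep, hx0p, inv_one, one_mul]
  obtain ⟨l, hl⟩ := hNB2 ⁅e0⁻¹, t⁆ (Subgroup.commutator_mem_commutator (inv_mem heK) htK)
  have h11 : ⁅e0⁻¹, t⁆ = e0⁻¹ * x0 := by rw [commutatorElement_def, hx0]; group
  rw [h11] at hl
  have h12 : e0⁻¹ * x0 = 1 := eq_one_of_pow hfin1 hl (Nat.Coprime.pow_right l hps')
  have h13 : x0 = e0 := by
    have h14 := eq_inv_of_mul_eq_one_right h12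
    rw [inv_inv] at h14
    exact h14
  -- e0 commutes with t
  have h15 : t * e0 = e0 * t := by
    have h16 : t * e0 * t⁻¹ = e0 := h13
    calc t * e0 = (t * e0 * t⁻¹) * t := by group
      _ = e0 * t := by rw [h16]
  apply he01
  apply hfix _ (hinvt n0 (hN0 hn0)) hn0' e0 he0 he0c
  have c1 : Commute t e0 := h15
  have c2 : Commute n0 e0 := hne0
  exact ((c1.inv_left.mul_left c2).mul_left c1).eq

end Pool.Agent.Lib.MP_032401_al
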