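import Pool.Agent.Lib.MP_032401_al.Fpf

/-!
# MP_032401_al: two elements of the same prime order
-/

set_option autoImplicit false

namespace Pool.Agent.Lib.MP_032401_al

open Subgroup
open scoped commutatorElement

variable {G : Type} [Group G]

theorem closure_comm {S : Set G} (h : ∀ x ∈ S, ∀ y ∈ S, x * y = y * x) :
    ∀ x ∈ closure S, ∀ y ∈ closure S, x * y = y * x := by
  have h1 : closure S ≤ Subgroup.centralizer S := by
    rw [closure_le]
    intro x hx
    rw [SetLike.mem_coe, Subgroup.mem_centralizer_iff]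
    intro y hy
    exact h y hy x hx
  intro x hx y hy
  have h2 := h1 hx
  rw [← Subgroup.centralizer_closure] at h2
  rw [Subgroup.mem_centralizer_iff] at h2
  exact (h2 y hy).symm

theorem comm_mod {D : Subgroup G} {S : Set G} (hN : ∀ x ∈ S, x ∈ normalizer (D : Set G))
    (h : ∀ x ∈ S, ∀ y ∈ S, ⁅x, y⁆ ∈ D) : ∀ a ∈ closure S, ∀ b ∈ closure S, ⁅a, b⁆ ∈ D := by
  have hcl : closure S ≤ normalizer (D : Set G) := (closure_le _).2 hN
  have key : ∀ c ∈ closure S, (∀ y ∈ S, ⁅y, c⁆ ∈ D) → ∀ a ∈ closure S, ⁅a, c⁆ ∈ D := by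
    intro c _ hc a ha
    induction ha using closure_induction with
    | mem x hx => exact hc x hx
    | one => rw [commutatorElement_one_left]; exact D.one_mem
    | mul a b ha hb iha ihb =>
      have h1 : ⁅a * b, c⁆ = a * ⁅b, c⁆ * a⁻¹ * ⁅a, c⁆ := by
        simp only [commutatorElement_def]; group
      rw [h1]
      exact D.mul_mem ((mem_normalizer_iff.1 (hcl ha) _).1 ihb) iha
    | inv a ha iha =>
      have h1 : ⁅a⁻¹, c⁆ = a⁻¹ * ⁅a, c⁆⁻¹ * a⁻¹⁻¹ := by
        simp only [commutatorElement_def]; group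
      rw [h1]
      exact (mem_normalizer_iff.1 (hcl (inv_mem ha)) _).1 (D.inv_mem iha)
  have hinv : ∀ x y : G, ⁅x, y⁆ ∈ D → ⁅y, x⁆ ∈ D := by
    intro x y hxy
    rw [← commutatorElement_inv]
    exact D.inv_mem hxy
  intro a ha b hb
  refine key b hb (fun y hy => ?_) a ha
  refine hinv _ _ (key y (subset_closure hy) (fun x hx => h x hx y hy) b hb)

theorem mul_pow_mod {D : Subgroup G} {x y : G} (hx : x ∈ normalizer (D : Set G))
    (hy : y ∈ normalizer (D : Set G)) (h : ⁅x, y⁆ ∈ D) (n : ℕ) :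
    ∃ d ∈ D, (x * y) ^ n = d * (x ^ n * y ^ n) := by
  let X : normalizer (D : Set G) := ⟨x, hx⟩
  let Y : normalizer (D : Set G) := ⟨y, hy⟩
  let π := QuotientGroup.mk' (D.subgroupOf (normalizer (D : Set G)))
  have hc : Commute (π X) (π Y) := by
    rw [← commutatorElement_eq_one_iff_commute, ← map_commutatorElement]
    rw [← MonoidHom.mem_ker, QuotientGroup.ker_mk']
    exact h
  have h1 : π ((X * Y) ^ n * (X ^ n * Y ^ n)⁻¹) = 1 := by
    rw [map_mul, map_inv, map_pow, map_mul, hc.mul_pow, map_mul, map_pow, map_pow, mul_inv_cancel]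
  rw [← MonoidHom.mem_ker, QuotientGroup.ker_mk'] at h1
  exact ⟨(x * y) ^ n * (x ^ n * y ^ n)⁻¹, h1, by group⟩

/-- a finite group which is a `p`-group modulo a finite subgroup is abelian modulo it -/
theorem Cls.quot_comm (hG : Cls G) {p : ℕ} (hp : p.Prime) {O K : Subgroup G}
    (hO : (O : Set G).Finite) (hK : (K : Set G).Finite) (hKN : K ≤ normalizer (O : Set G))
    (h : ∀ k ∈ K, ∃ j : ℕ, k ^ p ^ j ∈ O) : ∀ a ∈ K, ∀ b ∈ K, ⁅a, b⁆ ∈ O := by
  have hQ := hG.section O hO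
  let π := QuotientGroup.mk' (O.subgroupOf (normalizer (O : Set G)))
  have hfin : (((K.subgroupOf (normalizer (O : Set G))).map π :
      Subgroup ((normalizer (O : Set G)) ⧸ (O.subgroupOf (normalizer (O : Set G))))) :
      Set ((normalizer (O : Set G)) ⧸ (O.subgroupOf (normalizer (O : Set G))))).Finite := by
    rw [Subgroup.coe_map]
    refine Set.Finite.image _ ?_
    exact hK.preimage (f := (Subtype.val : normalizer (O : Set G) → G))
      (Subtype.val_injective.injOn)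
  intro a ha b hb
  have h1 := hQ.abp p hp _ hfin (by
    rintro _ ⟨x, hx, rfl⟩
    obtain ⟨j, hj⟩ := h x.1 hx
    refine ⟨j, ?_⟩
    rw [← map_pow, ← MonoidHom.mem_ker, QuotientGroup.ker_mk']
    exact hj) (π ⟨a, hKN ha⟩) ⟨⟨a, hKN ha⟩, ha, rfl⟩ (π ⟨b, hKN hb⟩) ⟨⟨b, hKN hb⟩, hb, rfl⟩
  have h2 : π ⁅(⟨a, hKN ha⟩ : normalizer (O : Set G)), ⟨b, hKN hb⟩⁆ = 1 := by
    rw [map_commutatorElement]
    exact commutatorElement_eq_one_iff_mul_comm.2 h1
  rw [← MonoidHom.mem_ker, QuotientGroup.ker_mk'] at h2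
  exact h2

/-! ### the derived subgroup of a finite subgroup -/

theorem Cls.der_comm (hG : Cls G) {K : Subgroup G} (hK : (K : Set G).Finite) :
    ∀ x ∈ ⁅K, K⁆, ∀ y ∈ ⁅K, K⁆, x * y = y * x := by
  rw [Subgroup.commutator_def]
  apply closure_comm
  rintro _ ⟨a, ha, b, hb, rfl⟩ _ ⟨c, hc, d, hd, rfl⟩
  exact hG.met K hK a ha b hb c hc d hd

theorem der_le (K : Subgroup G) : ⁅K, K⁆ ≤ K := by
  rw [Subgroup.commutator_le]
  intro a ha b hb
  rw [commutatorElement_def]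
  exact K.mul_mem (K.mul_mem (K.mul_mem ha hb) (K.inv_mem ha)) (K.inv_mem hb)

theorem der_conj {K : Subgroup G} {k d : G} (hk : k ∈ K) (hd : d ∈ ⁅K, K⁆) :
    k * d * k⁻¹ ∈ ⁅K, K⁆ := by
  have h1 : k * d * k⁻¹ = ⁅k, d⁆ * d := by rw [commutatorElement_def]; group
  rw [h1]
  exact mul_mem (Subgroup.commutator_mem_commutator hk (der_le K hd)) hd

theorem le_normalizer_der (K : Subgroup G) : K ≤ normalizer ((⁅K, K⁆ : Subgroup G) : Set G) := by
  rw [Subgroup.le_normalizer_iff]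
  intro h hh k hk
  exact der_conj hh hk

/-- the elements of order prime to `p` of an abelian subgroup -/
def pprime (A : Subgroup G) (hA : ∀ a ∈ A, ∀ b ∈ A, a * b = b * a) (p : ℕ) (hp : p.Prime) :
    Subgroup G where
  carrier := {a | a ∈ A ∧ ∃ m : ℕ, ¬ p ∣ m ∧ a ^ m = 1}
  one_mem' := ⟨A.one_mem, 1, fun h => hp.one_lt.ne' (Nat.dvd_one.1 h), one_pow 1⟩
  mul_mem' := by
    rintro a b ⟨ha, m, hm, ham⟩ ⟨hb, n, hn, hbn⟩
    refine ⟨A.mul_mem ha hb, m * n, fun h => ?_, ?_⟩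
    · rcases hp.dvd_mul.1 h with h | h
      · exact hm h
      · exact hn h
    · have hc : Commute a b := hA a ha b hb
      rw [hc.mul_pow, pow_mul, ham, one_pow, one_mul, mul_comm m n, pow_mul, hbn, one_pow]
  inv_mem' := by
    rintro a ⟨ha, m, hm, ham⟩
    exact ⟨A.inv_mem ha, m, hm, by rw [inv_pow, ham, inv_one]⟩

theorem mem_pprime {A : Subgroup G} {hA : ∀ a ∈ A, ∀ b ∈ A, a * b = b * a} {p : ℕ}
    {hp : p.Prime} {a : G} : a ∈ pprime A hA p hp ↔ a ∈ A ∧ ∃ m : ℕ, ¬ p ∣ m ∧ a ^ m = 1 :=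
  Iff.rfl

theorem Cls.pair (hG : Cls G) {p q : ℕ} (hp : p.Prime) (hq : q.Prime) {x y : G}
    (hx : x ^ p = 1) (hy : y ^ q = 1) : ((closure {x, y} : Subgroup G) : Set G).Finite := by
  by_cases hx1 : x = 1
  · have h1 : closure {x, y} ≤ zpowers y := by
      rw [closure_le]
      rintro z (rfl | hz)
      · rw [hx1]; exact one_mem _
      · rw [Set.mem_singleton_iff] at hz
        rw [hz]; exact mem_zpowers y
    exact (hG.per y).finite_zpowers.subset h1
  by_cases hy1 : y = 1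
  · have h1 : closure {x, y} ≤ zpowers x := by
      rw [closure_le]
      rintro z (rfl | hz)
      · exact mem_zpowers z
      · rw [Set.mem_singleton_iff] at hz
        rw [hz, hy1]; exact one_mem _
    exact (hG.per x).finite_zpowers.subset h1
  have hN : ∀ z : G, z ∈ normalizer ((⊥ : Subgroup G) : Set G) := by
    intro z
    rw [normalizer_eq_top]
    trivial
  have h := hG.bf ⊥ (by simp) x y (hN x) (hN y)
    ⟨p, hp, by simpa using hx1, by simpa using hx⟩ ⟨q, hq, by simpa using hy1, by simpa using hy⟩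
  exact h.subset (closure_mono Set.subset_union_right)

/-- **Step 1.** -/
theorem Cls.step1 (hG : Cls G) {p : ℕ} (hp : p.Prime) {t y : G} (ht : t ^ p = 1)
    (hy : y ^ p = 1) :
    (∀ d ∈ ⁅closure {t, y}, closure {t, y}⁆, ∃ m : ℕ, ¬ p ∣ m ∧ d ^ m = 1) ∧
    Fpf t ⁅closure {t, y}, closure {t, y}⁆ ∧ Fpf y ⁅closure {t, y}, closure {t, y}⁆ ∧
    ∃ n ∈ ⁅closure {t, y}, closure {t, y}⁆, ∃ h ∈ closure {t, y}, y = n * h ∧ h * t = t * h ∧
      h ^ p = 1 := by
  set K : Subgroup G := closure {t, y} with hKdef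
  have hK : (K : Set G).Finite := hG.pair hp hp ht hy
  have hAc := hG.der_comm hK
  have hAle : ⁅K, K⁆ ≤ K := der_le K
  have hAfin : ((⁅K, K⁆ : Subgroup G) : Set G).Finite := hK.subset hAle
  have htK : t ∈ K := subset_closure (by simp)
  have hyK : y ∈ K := subset_closure (by simp)
  have hKN := le_normalizer_der K
  -- p-th powers
  have hpow : ∀ k ∈ K, k ^ p ∈ ⁅K, K⁆ := by
    intro k hk
    induction hk using closure_induction with
    | mem x hx =>
      rcases hx with rfl | hx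
      · rw [ht]; exact one_mem _
      · rw [Set.mem_singleton_iff] at hx
        rw [hx, hy]; exact one_mem _
    | one => rw [one_pow]; exact one_mem _
    | mul a b ha hb iha ihb =>
      obtain ⟨d, hd, h1⟩ := mul_pow_mod (hKN ha) (hKN hb)
        (Subgroup.commutator_mem_commutator ha hb) p
      rw [h1]
      exact mul_mem hd (mul_mem iha ihb)
    | inv a ha iha => rw [inv_pow]; exact inv_mem iha
  -- the p'-part
  let O := pprime ⁅K, K⁆ hAc p hp
  have hOle : O ≤ ⁅K, K⁆ := fun a ha => ha.1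
  have hOfin : (O : Set G).Finite := hAfin.subset hOle
  have hKO : K ≤ normalizer (O : Set G) := by
    rw [Subgroup.le_normalizer_iff]
    rintro h hh k ⟨hk, m, hm, hkm⟩
    refine ⟨der_conj hh hk, m, hm, ?_⟩
    rw [conj_pow, hkm]
    group
  have hO : ∀ a ∈ K, ∀ b ∈ K, ⁅a, b⁆ ∈ O := by
    apply hG.quot_comm hp hOfin hK hKO
    intro k hk
    have h1 := hpow k hk
    obtain ⟨j, m, hm, hjm⟩ := Nat.exists_eq_pow_mul_and_not_dvd
      (n := orderOf (k ^ p)) ((orderOf_pos_iff.2 (hG.per _)).ne') p hp.one_lt.ne'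
    refine ⟨j + 1, ?_⟩
    rw [pow_succ', pow_mul]
    refine ⟨pow_mem h1 _, m, hm, ?_⟩
    rw [← pow_mul, ← hjm, pow_orderOf_eq_one]
  have hpp : ∀ d ∈ ⁅K, K⁆, ∃ m : ℕ, ¬ p ∣ m ∧ d ^ m = 1 := by
    intro d hd
    have h1 : ⁅K, K⁆ ≤ O := by
      rw [Subgroup.commutator_le]
      exact hO
    exact (h1 hd).2
  -- no fixed points, for t and for y
  have hfpf : ∀ u v : G, u ∈ K → v ∈ K → K = closure {u, v} → u ^ p = 1 → Fpf u ⁅K, K⁆ := by
    intro u v hu hv hKuv hup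
    have hinv : ∀ a ∈ ⁅K, K⁆, u * a * u⁻¹ ∈ ⁅K, K⁆ := fun a ha => der_conj hu ha
    let D : Subgroup G :=
      { carrier := {d | ∃ k ∈ ⁅K, K⁆, ⁅k, u⁆ = d}
        one_mem' := ⟨1, one_mem _, commutatorElement_one_left u⟩
        mul_mem' := by
          rintro _ _ ⟨k, hk, rfl⟩ ⟨l, hl, rfl⟩
          exact ⟨k * l, mul_mem hk hl, comm_hom hAc hinv hk hl⟩
        inv_mem' := by
          rintro _ ⟨k, hk, rfl⟩
          refine ⟨k⁻¹, inv_mem hk, ?_⟩
          have h1 := comm_hom hAc hinv hk (inv_mem hk)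
          rw [mul_inv_cancel, commutatorElement_one_left] at h1
          exact eq_inv_of_mul_eq_one_right h1.symm }
    have hDmem : ∀ d, d ∈ D ↔ ∃ k ∈ ⁅K, K⁆, ⁅k, u⁆ = d := fun d => Iff.rfl
    have hKD : K ≤ normalizer (D : Set G) := by
      rw [Subgroup.le_normalizer_iff]
      rintro g hg _ ⟨k, hk, rfl⟩
      rw [hDmem]
      refine ⟨g * k * g⁻¹, der_conj hg hk, ?_⟩
      have hm : ⁅g, u⁆ ∈ ⁅K, K⁆ := Subgroup.commutator_mem_commutator hg hu
      have hk' : g * k * g⁻¹ ∈ ⁅K, K⁆ := der_conj hg hk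
      have h1 : g * ⁅k, u⁆ * g⁻¹ = ⁅g * k * g⁻¹, ⁅g, u⁆ * u⁆ := by
        simp only [commutatorElement_def]; group
      have h2 : ⁅g * k * g⁻¹, ⁅g, u⁆ * u⁆ = ⁅g * k * g⁻¹, u⁆ := by
        have h3 := hAc _ hm _ (mul_mem hk' (hinv _ (inv_mem hk')))
        calc ⁅g * k * g⁻¹, ⁅g, u⁆ * u⁆
            = (g * k * g⁻¹ * ⁅g, u⁆) * (u * (g * k * g⁻¹)⁻¹ * u⁻¹) * ⁅g, u⁆⁻¹ := by
              rw [commutatorElement_def (g * k * g⁻¹)]; group
          _ = (⁅g, u⁆ * (g * k * g⁻¹)) * (u * (g * k * g⁻¹)⁻¹ * u⁻¹) * ⁅g, u⁆⁻¹ := by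
              rw [hAc _ hk' _ hm]
          _ = ⁅g, u⁆ * ((g * k * g⁻¹) * (u * (g * k * g⁻¹)⁻¹ * u⁻¹)) * ⁅g, u⁆⁻¹ := by group
          _ = ((g * k * g⁻¹) * (u * (g * k * g⁻¹)⁻¹ * u⁻¹)) * ⁅g, u⁆ * ⁅g, u⁆⁻¹ := by rw [h3]
          _ = ⁅g * k * g⁻¹, u⁆ := by rw [commutatorElement_def (g * k * g⁻¹)]; group
      rw [h1, h2]
    have hDle : D ≤ ⁅K, K⁆ := by
      rintro _ ⟨k, hk, rfl⟩
      exact comm_mem hinv hk
    -- the commutator of v and u is in D
    have hvu : ⁅v, u⁆ ∈ D := by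
      have hm : ⁅v, u⁆ ∈ ⁅K, K⁆ := Subgroup.commutator_mem_commutator hv hu
      obtain ⟨d, hd, h1⟩ := mul_pow_mod (hKD (hAle hm)) (hKD hu) ⟨⁅v, u⁆, hm, rfl⟩ p
      have h2 : (⁅v, u⁆ * u) ^ p = 1 := by
        have h3 : ⁅v, u⁆ * u = v * u * v⁻¹ := by rw [commutatorElement_def]; group
        rw [h3, conj_pow, hup]
        group
      rw [h2, hup, mul_one] at h1
      have h4 : ⁅v, u⁆ ^ p ∈ D := by
        have h5 : ⁅v, u⁆ ^ p = d⁻¹ := eq_inv_of_mul_eq_one_right h1.symm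
        rw [h5]
        exact inv_mem hd
      obtain ⟨m, hm1, hm2⟩ := hpp _ hm
      refine mem_of_pow_mem h4 (b := m) (by rw [hm2]; exact one_mem _) ?_
      exact (hp.coprime_iff_not_dvd).2 hm1
    have hKle : ⁅K, K⁆ ≤ D := by
      rw [Subgroup.commutator_le]
      intro a ha b hb
      rw [hKuv] at ha hb
      refine comm_mod (S := {u, v}) ?_ ?_ a ha b hb
      · rintro z (rfl | hz)
        · exact hKD hu
        · rw [Set.mem_singleton_iff] at hz
          rw [hz]; exact hKD hv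
      · rintro z (rfl | hz) w (rfl | hw)
        · rw [commutatorElement_self]; exact one_mem _
        · rw [Set.mem_singleton_iff] at hw
          rw [hw, ← commutatorElement_inv]
          exact inv_mem hvu
        · rw [Set.mem_singleton_iff] at hz
          rw [hz]; exact hvu
        · rw [Set.mem_singleton_iff] at hz hw
          rw [hz, hw, commutatorElement_self]; exact one_mem _
    exact ⟨hAfin, hAc, hinv, fix_of_surj hAfin hinv fun a ha => hKle ha⟩
  have hft := hfpf t y htK hyK hKdef ht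
  have hfy := hfpf y t hyK htK (by rw [hKdef, Set.pair_comm]) hy
  refine ⟨hpp, hft, hfy, ?_⟩
  obtain ⟨n, hn, hn1⟩ := hft.surj _ (Subgroup.commutator_mem_commutator hyK htK)
  have hnK := hAle hn
  refine ⟨n, hn, n⁻¹ * y, mul_mem (inv_mem hnK) hyK, by group, ?_, ?_⟩
  · have h1 : n * t * n⁻¹ = y * t * y⁻¹ := by
      have h2 : ⁅n, t⁆ * t = ⁅y, t⁆ * t := by rw [hn1]
      simpa only [commutatorElement_def, inv_mul_cancel_right] using h2
    calc n⁻¹ * y * t = n⁻¹ * (y * t * y⁻¹) * y := by group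
      _ = n⁻¹ * (n * t * n⁻¹) * y := by rw [h1]
      _ = t * (n⁻¹ * y) := by group
  · have hhK : n⁻¹ * y ∈ K := mul_mem (inv_mem hnK) hyK
    apply hft.fix _ (hpow _ hhK)
    have h1 : Commute (n⁻¹ * y) t := by
      have h2 : n * t * n⁻¹ = y * t * y⁻¹ := by
        have h3 : ⁅n, t⁆ * t = ⁅y, t⁆ * t := by rw [hn1]
        simpa only [commutatorElement_def, inv_mul_cancel_right] using h3
      show n⁻¹ * y * t = t * (n⁻¹ * y)
      calc n⁻¹ * y * t = n⁻¹ * (y * t * y⁻¹) * y := by group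
        _ = n⁻¹ * (n * t * n⁻¹) * y := by rw [h2]
        _ = t * (n⁻¹ * y) := by group
    exact (h1.pow_left p).eq

end Pool.Agent.Lib.MP_032401_al
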