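import Pool.Agent.Lib.MP_032401_al.Pair

/-!
# MP_032401_al: reduction to irreducible subgroups
-/

set_option autoImplicit false

namespace Pool.Agent.Lib.MP_032401_al

open Subgroup
open scoped commutatorElement

/-- elementwise commuting subgroups -/
def Comm2 {G : Type} [Group G] (N N' : Subgroup G) : Prop := ∀ a ∈ N, ∀ b ∈ N', a * b = b * a

theorem Comm2.symm {G : Type} [Group G] {N N' : Subgroup G} (h : Comm2 N N') : Comm2 N' N :=
  fun a ha b hb => (h b hb a ha).symm

/-- `N` is not trivial and has no proper nontrivial subgroup normalised by `t` -/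
structure Irr {G : Type} [Group G] (t : G) (N : Subgroup G) : Prop where
  ne : N ≠ ⊥
  irr : ∀ H : Subgroup G, H ≤ N → (∀ a ∈ H, t * a * t⁻¹ ∈ H) → H = ⊥ ∨ H = N

variable {G : Type} [Group G]

theorem sup_finite {A B : Subgroup G} (hA : (A : Set G).Finite) (hB : (B : Set G).Finite)
    (h : B ≤ normalizer (A : Set G)) : ((A ⊔ B : Subgroup G) : Set G).Finite := by
  rw [Subgroup.coe_mul_of_right_le_normalizer_left A B h]
  exact hA.mul hB

theorem zpowers_le_normalizer {A : Subgroup G} {t : G} (hA : (A : Set G).Finite)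
    (h : ∀ a ∈ A, t * a * t⁻¹ ∈ A) : zpowers t ≤ normalizer (A : Set G) := by
  rw [zpowers_le, mem_normalizer_iff]
  intro a
  refine ⟨h a, fun ha => ?_⟩
  have h1 := inv_of_finite hA h _ ha
  have h2 : t⁻¹ * (t * a * t⁻¹) * t = a := by group
  rw [h2] at h1
  exact h1

/-- two fixed point free subgroups in one finite subgroup commute -/
theorem Cls.comm_of_fin (hG : Cls G) {L : Subgroup G} (hL : (L : Set G).Finite) {t : G}
    (ht : t ∈ L) {N N' : Subgroup G} (hN : Fpf t N) (hN' : Fpf t N') (hNL : N ≤ L)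
    (hNL' : N' ≤ L) : Comm2 N N' := by
  intro a ha b hb
  obtain ⟨c, hc, rfl⟩ := hN.surj a ha
  obtain ⟨d, hd, rfl⟩ := hN'.surj b hb
  exact hG.met L hL c (hNL hc) t ht d (hNL' hd) t ht

theorem Cls.comm_of_normalize (hG : Cls G) {t : G} {N N' : Subgroup G}
    (hN : Fpf t N) (hN' : Fpf t N') (h : N' ≤ normalizer (N : Set G)) : Comm2 N N' := by
  have h1 : ((N ⊔ N' : Subgroup G) : Set G).Finite := sup_finite hN.fin hN'.fin h
  have h2 : ∀ a ∈ N ⊔ N', t * a * t⁻¹ ∈ N ⊔ N' := by
    intro a ha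
    have h3 : N ⊔ N' ≤ (N ⊔ N').comap (MulAut.conj t).toMonoidHom := by
      refine sup_le (fun x hx => ?_) (fun x hx => ?_)
      · exact (le_sup_left : N ≤ N ⊔ N') (hN.inv x hx)
      · exact (le_sup_right : N' ≤ N ⊔ N') (hN'.inv x hx)
    exact h3 ha
  have h4 := sup_finite h1 (hG.per t).finite_zpowers (zpowers_le_normalizer h1 h2)
  exact hG.comm_of_fin h4 (le_sup_right (a := N ⊔ N') (mem_zpowers t)) hN hN'
    (le_sup_left.trans le_sup_left) (le_sup_right.trans le_sup_left)

/-- the image of a fixed point free subgroup in a section -/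
theorem Fpf.section {t : G} {N H : Subgroup G} (hN : Fpf t N)
    (hNH : N ≤ normalizer (H : Set G)) (ht : t ∈ normalizer (H : Set G)) :
    Fpf (QuotientGroup.mk' (H.subgroupOf (normalizer (H : Set G))) ⟨t, ht⟩)
      ((N.subgroupOf (normalizer (H : Set G))).map
        (QuotientGroup.mk' (H.subgroupOf (normalizer (H : Set G))))) := by
  set π := QuotientGroup.mk' (H.subgroupOf (normalizer (H : Set G))) with hπ
  have hfin : (((N.subgroupOf (normalizer (H : Set G))).map π :
      Subgroup ((normalizer (H : Set G)) ⧸ (H.subgroupOf (normalizer (H : Set G))))) :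
      Set ((normalizer (H : Set G)) ⧸ (H.subgroupOf (normalizer (H : Set G))))).Finite := by
    rw [Subgroup.coe_map]
    refine Set.Finite.image _ ?_
    exact hN.fin.preimage (f := (Subtype.val : normalizer (H : Set G) → G))
      (Subtype.val_injective.injOn)
  have hinv : ∀ a ∈ (N.subgroupOf (normalizer (H : Set G))).map π,
      π ⟨t, ht⟩ * a * (π ⟨t, ht⟩)⁻¹ ∈ (N.subgroupOf (normalizer (H : Set G))).map π := by
    rintro _ ⟨a, ha, rfl⟩
    refine ⟨⟨t, ht⟩ * a * (⟨t, ht⟩ : normalizer (H : Set G))⁻¹, hN.inv _ ha, ?_⟩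
    rw [map_mul, map_mul, map_inv]
  refine ⟨hfin, ?_, hinv, fix_of_surj hfin hinv ?_⟩
  · rintro _ ⟨a, ha, rfl⟩ _ ⟨b, hb, rfl⟩
    rw [← map_mul, ← map_mul]
    congr 1
    exact Subtype.ext (hN.comm _ ha _ hb)
  · rintro _ ⟨a, ha, rfl⟩
    obtain ⟨b, hb, hba⟩ := hN.surj _ ha
    refine ⟨π ⟨b, hNH hb⟩, ⟨⟨b, hNH hb⟩, hb, rfl⟩, ?_⟩
    rw [← map_commutatorElement]
    congr 1
    exact Subtype.ext hba

theorem card_map_section {N H : Subgroup G} (hN : (N : Set G).Finite)
    (hNH : N ≤ normalizer (H : Set G)) :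
    Nat.card ((N.subgroupOf (normalizer (H : Set G))).map
        (QuotientGroup.mk' (H.subgroupOf (normalizer (H : Set G))))) ∣ Nat.card N ∧
    (H ≤ N → H ≠ ⊥ → Nat.card ((N.subgroupOf (normalizer (H : Set G))).map
        (QuotientGroup.mk' (H.subgroupOf (normalizer (H : Set G))))) < Nat.card N) := by
  set π := QuotientGroup.mk' (H.subgroupOf (normalizer (H : Set G))) with hπ
  have hf : Finite N := hN.to_subtype
  let f : N →* ((normalizer (H : Set G)) ⧸ (H.subgroupOf (normalizer (H : Set G)))) :=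
    π.comp (Subgroup.inclusion hNH)
  have hr : (N.subgroupOf (normalizer (H : Set G))).map π = f.range := by
    ext x
    constructor
    · rintro ⟨a, ha, rfl⟩
      exact ⟨⟨a.1, ha⟩, rfl⟩
    · rintro ⟨a, rfl⟩
      exact ⟨⟨a.1, hNH a.2⟩, a.2, rfl⟩
  rw [hr]
  have hdvd : Nat.card f.range ∣ Nat.card N :=
    Subgroup.card_range_dvd f
  refine ⟨hdvd, fun hHN hH => ?_⟩
  refine lt_of_le_of_ne (Nat.le_of_dvd Nat.card_pos hdvd) fun heq => ?_
  apply hH
  have hbij : Function.Bijective f.rangeRestrict :=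
    (Nat.bijective_iff_surjective_and_card _).2 ⟨f.rangeRestrict_surjective, heq.symm⟩
  rw [eq_bot_iff]
  intro x hx
  have h1 : f.rangeRestrict ⟨x, hHN hx⟩ = f.rangeRestrict 1 := by
    apply Subtype.ext
    show π ⟨x, _⟩ = f 1
    rw [map_one, ← MonoidHom.mem_ker, QuotientGroup.ker_mk']
    exact hx
  have h2 := congrArg Subtype.val (hbij.1 h1)
  exact Subgroup.mem_bot.2 h2

/-- Reduction to irreducible subgroups. -/
theorem reduce (P : ℕ → ℕ → Prop) (hsymm : ∀ a b, P a b → P b a)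
    (hP : ∀ a b a' b', a' ∣ a → b' ∣ b → P a b → P a' b') (p : ℕ)
    (base : ∀ (G : Type) [Group G], Cls G → ∀ t : G, t ^ p = 1 → ∀ N N' : Subgroup G,
      Fpf t N → Fpf t N' → Irr t N → Irr t N' → P (Nat.card N) (Nat.card N') → Comm2 N N')
    (n : ℕ) : ∀ (G : Type) [Group G], Cls G → ∀ t : G, t ^ p = 1 → ∀ N N' : Subgroup G,
      Fpf t N → Fpf t N' → P (Nat.card N) (Nat.card N') → Nat.card N + Nat.card N' ≤ n →
      Comm2 N N' := by
  induction n using Nat.strong_induction_on with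
  | _ n ih =>
    intro G _ hG t ht N N' hN hN' hPN hn
    -- the reducible case
    have step : ∀ A B : Subgroup G, Fpf t A → Fpf t B → P (Nat.card A) (Nat.card B) →
        Nat.card A + Nat.card B ≤ n → ∀ H : Subgroup G, H ≤ A → (∀ a ∈ H, t * a * t⁻¹ ∈ H) →
        H ≠ ⊥ → H ≠ A → Comm2 A B := by
      intro A B hA hB hPA hAB H hHA hHt hH1 hH2
      have hfA : Finite A := hA.fin.to_subtype
      have hfB : Finite B := hB.fin.to_subtype
      have hHfin : (H : Set G).Finite := hA.fin.subset hHA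
      have hHf := hA.of_le hHA hHt
      have hcardH : Nat.card H < Nat.card A := by
        refine lt_of_le_of_ne (Subgroup.card_le_of_le hHA) fun h => hH2 ?_
        exact Subgroup.eq_of_le_of_card_ge hHA h.ge
      have h1 : Comm2 H B := ih _ (by omega) G hG t ht H B hHf hB
        (hP _ _ _ _ (Subgroup.card_dvd_of_le hHA) (dvd_refl _) hPA) (le_refl _)
      have hAN : A ≤ normalizer (H : Set G) := by
        rw [Subgroup.le_normalizer_iff]
        intro a ha h hh
        have h2 := hA.comm a ha h (hHA hh)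
        rw [h2, mul_inv_cancel_right]
        exact hh
      have hBN : B ≤ normalizer (H : Set G) := by
        rw [Subgroup.le_normalizer_iff]
        intro b hb h hh
        have h2 := h1 h hh b hb
        rw [← h2, mul_inv_cancel_right]
        exact hh
      have htN : t ∈ normalizer (H : Set G) :=
        zpowers_le_normalizer hHfin hHt (mem_zpowers t)
      obtain ⟨hd1, hlt⟩ := card_map_section hA.fin hAN
      obtain ⟨hd2, _⟩ := card_map_section hB.fin hBN
      have hlt := hlt hHA hH1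
      have hle := Nat.le_of_dvd Nat.card_pos hd2
      have h2 := ih (Nat.card ((A.subgroupOf (normalizer (H : Set G))).map
        (QuotientGroup.mk' (H.subgroupOf (normalizer (H : Set G))))) +
        Nat.card ((B.subgroupOf (normalizer (H : Set G))).map
        (QuotientGroup.mk' (H.subgroupOf (normalizer (H : Set G)))))) (by omega) _
        (hG.section H hHfin)
        (QuotientGroup.mk' (H.subgroupOf (normalizer (H : Set G))) ⟨t, htN⟩) (by
          rw [← map_pow]
          have h3 : (⟨t, htN⟩ : normalizer (H : Set G)) ^ p = 1 := Subtype.ext ht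
          rw [h3, map_one]) _ _
        (hA.section hAN htN) (hB.section hBN htN) (hP _ _ _ _ hd1 hd2 hPA) (le_refl _)
      apply hG.comm_of_normalize hA hB
      rw [Subgroup.le_normalizer_iff]
      intro b hb a ha
      have h3 := h2 _ ⟨⟨a, hAN ha⟩, ha, rfl⟩ _ ⟨⟨b, hBN hb⟩, hb, rfl⟩
      have h4 : QuotientGroup.mk' (H.subgroupOf (normalizer (H : Set G)))
          ⁅(⟨b, hBN hb⟩ : normalizer (H : Set G)), ⟨a, hAN ha⟩⁆ = 1 := by
        rw [map_commutatorElement]
        exact commutatorElement_eq_one_iff_mul_comm.2 h3.symm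
      rw [← MonoidHom.mem_ker, QuotientGroup.ker_mk'] at h4
      have h5 : ⁅b, a⁆ ∈ H := h4
      have h6 : b * a * b⁻¹ = ⁅b, a⁆ * a := by rw [commutatorElement_def]; group
      rw [h6]
      exact A.mul_mem (hHA h5) ha
    by_cases h1 : N = ⊥
    · intro a ha b _
      rw [h1, Subgroup.mem_bot] at ha
      rw [ha, one_mul, mul_one]
    by_cases h2 : N' = ⊥
    · intro a _ b hb
      rw [h2, Subgroup.mem_bot] at hb
      rw [hb, one_mul, mul_one]
    by_cases h3 : ∃ H : Subgroup G, H ≤ N ∧ (∀ a ∈ H, t * a * t⁻¹ ∈ H) ∧ H ≠ ⊥ ∧ H ≠ N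
    · obtain ⟨H, hH1, hH2, hH3, hH4⟩ := h3
      exact step N N' hN hN' hPN hn H hH1 hH2 hH3 hH4
    by_cases h4 : ∃ H : Subgroup G, H ≤ N' ∧ (∀ a ∈ H, t * a * t⁻¹ ∈ H) ∧ H ≠ ⊥ ∧ H ≠ N'
    · obtain ⟨H, hH1, hH2, hH3, hH4⟩ := h4
      exact (step N' N hN' hN (hsymm _ _ hPN) (by omega) H hH1 hH2 hH3 hH4).symm
    refine base G hG t ht N N' hN hN' ⟨h1, ?_⟩ ⟨h2, ?_⟩ hPN
    · intro H hH hHt
      by_contra hne
      rw [not_or] at hne
      exact h3 ⟨H, hH, hHt, hne.1, hne.2⟩
    · intro H hH hHt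
      by_contra hne
      rw [not_or] at hne
      exact h4 ⟨H, hH, hHt, hne.1, hne.2⟩

/-- An irreducible subgroup is elementary abelian. -/
theorem Irr.exponent {t : G} {N : Subgroup G} (hN : Fpf t N) (hi : Irr t N) {s : ℕ}
    (hs : s.Prime) (hsd : s ∣ Nat.card N) : ∀ a ∈ N, a ^ s = 1 := by
  have hf : Finite N := hN.fin.to_subtype
  have hfact : Fact s.Prime := ⟨hs⟩
  let H : Subgroup G :=
    { carrier := {a | a ∈ N ∧ a ^ s = 1}
      one_mem' := ⟨N.one_mem, one_pow s⟩
      mul_mem' := by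
        rintro a b ⟨ha, has⟩ ⟨hb, hbs⟩
        have hc : Commute a b := hN.comm a ha b hb
        exact ⟨N.mul_mem ha hb, by rw [hc.mul_pow, has, hbs, one_mul]⟩
      inv_mem' := by
        rintro a ⟨ha, has⟩
        exact ⟨N.inv_mem ha, by rw [inv_pow, has, inv_one]⟩ }
  have hH : ∀ a, a ∈ H ↔ a ∈ N ∧ a ^ s = 1 := fun a => Iff.rfl
  rcases hi.irr H (fun a ha => ha.1) (fun a ha => ⟨hN.inv a ha.1, by
    rw [conj_pow, ha.2]; group⟩) with h | h
  · exfalso
    obtain ⟨x, hx⟩ := exists_prime_orderOf_dvd_card' s hsd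
    have h1 : x.1 ∈ H := by
      refine ⟨x.2, ?_⟩
      have h2 := pow_orderOf_eq_one x
      rw [hx] at h2
      exact congrArg Subtype.val h2
    rw [h, Subgroup.mem_bot] at h1
    have h2 : x = 1 := Subtype.ext h1
    rw [h2, orderOf_one] at hx
    exact hs.one_lt.ne hx
  · intro a ha
    rw [← h] at ha
    exact ha.2

theorem Irr.exists_prime {t : G} {N : Subgroup G} (hN : Fpf t N) (hi : Irr t N) :
    ∃ s : ℕ, s.Prime ∧ s ∣ Nat.card N ∧ ∀ a ∈ N, a ^ s = 1 := by
  have hf : Finite N := hN.fin.to_subtype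
  have h1 : Nat.card N ≠ 1 := by
    intro h
    exact hi.ne (Subgroup.card_eq_one.1 h)
  obtain ⟨s, hs, hsd⟩ := Nat.exists_prime_and_dvd h1
  exact ⟨s, hs, hsd, hi.exponent hN hs hsd⟩

end Pool.Agent.Lib.MP_032401_al
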