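import Pool.Agent.Lib.MP_032401_al.Good

/-!
# MP_032401_al: primary parts, Lemma P
-/

set_option autoImplicit false

namespace Pool.Agent.Lib.MP_032401_al

open Subgroup
open scoped commutatorElement

variable {G : Type} [Group G]

/-- the elements of `s`-power order of an abelian subgroup -/
def spart (A : Subgroup G) (hA : ∀ a ∈ A, ∀ b ∈ A, a * b = b * a) (s : ℕ) : Subgroup G where
  carrier := {a | a ∈ A ∧ ∃ k : ℕ, a ^ s ^ k = 1}
  one_mem' := ⟨A.one_mem, 0, one_pow _⟩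
  mul_mem' := by
    rintro a b ⟨ha, k, hk⟩ ⟨hb, l, hl⟩
    refine ⟨A.mul_mem ha hb, k + l, ?_⟩
    have hc : Commute a b := hA a ha b hb
    rw [hc.mul_pow, pow_add, pow_mul, hk, one_pow, one_mul, mul_comm (s ^ k), pow_mul, hl,
      one_pow]
  inv_mem' := by
    rintro a ⟨ha, k, hk⟩
    exact ⟨A.inv_mem ha, k, by rw [inv_pow, hk, inv_one]⟩

theorem mem_spart {A : Subgroup G} {hA : ∀ a ∈ A, ∀ b ∈ A, a * b = b * a} {s : ℕ} {a : G} :
    a ∈ spart A hA s ↔ a ∈ A ∧ ∃ k : ℕ, a ^ s ^ k = 1 := Iff.rfl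

/-- an `s`-group and an `s'`-group have coprime orders -/
theorem coprime_card {A B : Subgroup G} (hA : (A : Set G).Finite) (hB : (B : Set G).Finite)
    {s : ℕ} (hs : s.Prime) (hA' : ∀ a ∈ A, ∃ k : ℕ, a ^ s ^ k = 1)
    (hB' : ∀ b ∈ B, ∃ m : ℕ, ¬ s ∣ m ∧ b ^ m = 1) : Nat.Coprime (Nat.card A) (Nat.card B) := by
  have hfA : Finite A := hA.to_subtype
  have hfB : Finite B := hB.to_subtype
  by_contra hne
  obtain ⟨q, hq, hqA, hqB⟩ := Nat.Prime.not_coprime_iff_dvd.1 hne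
  have hfact : Fact q.Prime := ⟨hq⟩
  obtain ⟨x, hx⟩ := exists_prime_orderOf_dvd_card' q hqA
  obtain ⟨y, hy⟩ := exists_prime_orderOf_dvd_card' q hqB
  obtain ⟨k, hk⟩ := hA' x.1 x.2
  obtain ⟨m, hm, hym⟩ := hB' y.1 y.2
  have h1 : orderOf x ∣ s ^ k := orderOf_dvd_of_pow_eq_one (Subtype.ext (by simpa using hk))
  have h2 : orderOf y ∣ m := orderOf_dvd_of_pow_eq_one (Subtype.ext (by simpa using hym))
  rw [hx] at h1
  rw [hy] at h2
  have h3 : q = s := (Nat.prime_dvd_prime_iff_eq hq hs).1 (hq.dvd_of_dvd_pow h1)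
  rw [h3] at h2
  exact hm h2

/-- decomposition of an element into its primary parts -/
theorem decomp {x : G} (hx : IsOfFinOrder x) {s : ℕ} (hs : s.Prime) :
    ∃ i j k m : ℕ, x = x ^ i * x ^ j ∧ (x ^ i) ^ s ^ k = 1 ∧ ¬ s ∣ m ∧ (x ^ j) ^ m = 1 ∧
      x ^ (s ^ k * m) = 1 := by
  obtain ⟨k, m, hm, hkm⟩ := Nat.exists_eq_pow_mul_and_not_dvd
    (n := orderOf x) ((orderOf_pos_iff.2 hx).ne') s hs.one_lt.ne'
  have hcop : Nat.Coprime (s ^ k) m := Nat.Coprime.pow_left k ((hs.coprime_iff_not_dvd).2 hm)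
  obtain ⟨i, hi1, hi2⟩ := Nat.chineseRemainder hcop 1 0
  have hmi : m ∣ i := (Nat.modEq_zero_iff_dvd).1 hi2
  have hn : x ^ (s ^ k * m) = 1 := by rw [← hkm]; exact pow_orderOf_eq_one x
  -- x ^ i is an s-element
  have e1 : (x ^ i) ^ s ^ k = 1 := by
    obtain ⟨c, rfl⟩ := hmi
    rw [← pow_mul, mul_comm (m * c), ← mul_assoc, pow_mul, hn, one_pow]
  -- x * x ^ (-i) is an s'-element
  have e2 : (x * (x ^ i)⁻¹) ^ m = 1 := by
    have hc : Commute x (x ^ i)⁻¹ := ((Commute.refl x).pow_right i).inv_right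
    rw [hc.mul_pow, inv_pow, ← pow_mul, mul_inv_eq_one]
    rw [pow_eq_pow_iff_modEq, hkm]
    have h1 : i * m ≡ 1 * m [MOD s ^ k * m] := Nat.ModEq.mul_right' m hi1
    rw [one_mul] at h1
    exact h1.symm
  have hpos : 0 < orderOf x := orderOf_pos_iff.2 hx
  have hxinv : x ^ (orderOf x - 1) = x⁻¹ := by
    rw [eq_inv_iff_mul_eq_one, ← pow_succ, Nat.sub_add_cancel hpos, pow_orderOf_eq_one]
  obtain ⟨j, hj⟩ : ∃ j : ℕ, x ^ j = x * (x ^ i)⁻¹ := by
    refine ⟨1 + (orderOf x - 1) * i, ?_⟩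
    rw [pow_add, pow_one, pow_mul, hxinv, inv_pow]
  refine ⟨i, j, k, m, ?_, e1, hm, ?_, hn⟩
  · rw [hj]
    have hc : Commute x (x ^ i)⁻¹ := ((Commute.refl x).pow_right i).inv_right
    rw [hc.eq, mul_inv_cancel_left]
  · rw [hj]; exact e2

/-- if the commutator of the generators is an `s`-element then the derived subgroup is an
`s`-group -/
theorem Cls.der_sgroup (hG : Cls G) {s : ℕ} {x y : G}
    (hfin : ((closure {x, y} : Subgroup G) : Set G).Finite) (h : ∃ k : ℕ, ⁅x, y⁆ ^ s ^ k = 1) :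
    ∀ d ∈ ⁅closure {x, y}, closure {x, y}⁆, ∃ k : ℕ, d ^ s ^ k = 1 := by
  have hAc := hG.der_comm hfin
  have hxK : x ∈ closure {x, y} := subset_closure (by simp)
  have hyK : y ∈ closure {x, y} := subset_closure (by simp)
  have hN : closure {x, y} ≤
      normalizer ((spart ⁅closure {x, y}, closure {x, y}⁆ hAc s : Subgroup G) : Set G) := by
    rw [Subgroup.le_normalizer_iff]
    rintro g hg d ⟨hd, k, hk⟩
    exact ⟨der_conj hg hd, k, by rw [conj_pow, hk]; group⟩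
  have h1 : ⁅x, y⁆ ∈ spart ⁅closure {x, y}, closure {x, y}⁆ hAc s :=
    ⟨Subgroup.commutator_mem_commutator hxK hyK, h⟩
  have h2 : ⁅closure {x, y}, closure {x, y}⁆ ≤
      spart ⁅closure {x, y}, closure {x, y}⁆ hAc s := by
    conv_lhs => rw [Subgroup.commutator_def]
    rw [closure_le]
    rintro _ ⟨a, ha, b, hb, rfl⟩
    refine comm_mod (S := {x, y}) ?_ ?_ a ha b hb
    · rintro z (rfl | hz)
      · exact hN hxK
      · rw [Set.mem_singleton_iff] at hz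
        rw [hz]; exact hN hyK
    · rintro z (rfl | hz) w (rfl | hw)
      · rw [commutatorElement_self]; exact one_mem _
      · rw [Set.mem_singleton_iff] at hw
        rw [hw]; exact h1
      · rw [Set.mem_singleton_iff] at hz
        rw [hz, ← commutatorElement_inv]; exact inv_mem h1
      · rw [Set.mem_singleton_iff] at hz hw
        rw [hz, hw, commutatorElement_self]; exact one_mem _
  intro d hd
  exact (h2 hd).2

/-- **Lemma SG.** -/
theorem Cls.lemmaSG (hG : Cls G) {s : ℕ} (hs : s.Prime) {x y : G}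
    (hfin : ((closure {x, y} : Subgroup G) : Set G).Finite) (h : ∃ k : ℕ, ⁅x, y⁆ ^ s ^ k = 1)
    (hy : ∃ k : ℕ, y ^ s ^ k = 1) : y * (x * y * x⁻¹) = (x * y * x⁻¹) * y := by
  have hxK : x ∈ closure {x, y} := subset_closure (by simp)
  have hyK : y ∈ closure {x, y} := subset_closure (by simp)
  have h1 := hG.pgroup_comm hs (V := ⁅closure {x, y}, closure {x, y}⁆)
    (hfin.subset (der_le _)) (hG.der_sgroup hfin h) hy (fun v hv => der_conj hyK hv) _
    (Subgroup.commutator_mem_commutator hxK hyK)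
  have h2 : x * y * x⁻¹ = ⁅x, y⁆ * y := by rw [commutatorElement_def]; group
  rw [h2, h1]
  calc y * (y * ⁅x, y⁆) = y * (⁅x, y⁆ * y) := by rw [h1]
    _ = y * ⁅x, y⁆ * y := by group

/-- the norm map is a homomorphism -/
theorem nu_hom {D : Subgroup G} (hc : ∀ a ∈ D, ∀ b ∈ D, a * b = b * a) {a : G}
    (hinv : ∀ d ∈ D, a * d * a⁻¹ ∈ D) (n : ℕ) : ∀ k ∈ D, ∀ l ∈ D,
      (k * a) ^ n * (a ^ n)⁻¹ ∈ D ∧
      (k * l * a) ^ n * (a ^ n)⁻¹ = ((k * a) ^ n * (a ^ n)⁻¹) * ((l * a) ^ n * (a ^ n)⁻¹) := by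
  have hrec : ∀ (n : ℕ) (k : G), (k * a) ^ (n + 1) * (a ^ (n + 1))⁻¹ =
      k * (a * ((k * a) ^ n * (a ^ n)⁻¹) * a⁻¹) := by
    intro n k
    rw [pow_succ' (k * a), pow_succ' a]
    group
  have hmem : ∀ (n : ℕ), ∀ k ∈ D, (k * a) ^ n * (a ^ n)⁻¹ ∈ D := by
    intro n
    induction n with
    | zero => intro k _; simp
    | succ n ih =>
      intro k hk
      rw [hrec]
      exact D.mul_mem hk (hinv _ (ih k hk))
  intro k hk l hl
  refine ⟨hmem n k hk, ?_⟩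
  induction n with
  | zero => simp
  | succ n ih =>
    rw [hrec, hrec, hrec, ih]
    have h1 := hinv _ (hmem n k hk)
    generalize (k * a) ^ n * (a ^ n)⁻¹ = X at h1 ⊢
    generalize (l * a) ^ n * (a ^ n)⁻¹ = Y
    calc k * l * (a * (X * Y) * a⁻¹) = k * (l * (a * X * a⁻¹)) * (a * Y * a⁻¹) := by group
      _ = k * ((a * X * a⁻¹) * l) * (a * Y * a⁻¹) := by rw [hc l hl _ h1]
      _ = k * (a * X * a⁻¹) * (l * (a * Y * a⁻¹)) := by group

theorem nu_pow {D : Subgroup G} (hc : ∀ a ∈ D, ∀ b ∈ D, a * b = b * a) {a : G}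
    (hinv : ∀ d ∈ D, a * d * a⁻¹ ∈ D) (n : ℕ) {c : G} (hcD : c ∈ D)
    (h : (c * a) ^ n * (a ^ n)⁻¹ = 1) (j : ℕ) : (c ^ j * a) ^ n * (a ^ n)⁻¹ = 1 := by
  induction j with
  | zero => rw [pow_zero, one_mul, mul_inv_cancel]
  | succ j ih => rw [pow_succ, (nu_hom hc hinv n _ (D.pow_mem hcD j) c hcD).2, ih, h, one_mul]

/-- **Lemma P.** -/
theorem Cls.lemmaP (hG : Cls G) {p : ℕ} (hp : p.Prime) {t g : G} (ht : t ^ p = 1)
    (hg : g ^ p = 1) (htg : t * g = g * t) {s : ℕ} (hs : s.Prime) {N : Subgroup G}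
    (hN : Fpf t N) (he : ∀ b ∈ N, b ^ s = 1) {a : G} (ha : a ∈ N) :
    a * (g * a * g⁻¹) = (g * a * g⁻¹) * a := by
  have hat : (a * t) ^ p = 1 := hN.pow ht ha
  have haN : Fpf (a * t) N := hN.mul_left ha
  obtain ⟨_, hK1, _, _⟩ := hG.step1 hp hat hg
  have haK : a * t ∈ closure {a * t, g} := subset_closure (by simp)
  have hgK : g ∈ closure {a * t, g} := subset_closure (by simp)
  have hAc := hK1.comm
  -- the commutator
  have hc : ⁅g, a * t⁆ = ⁅g, a⁆ := by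
    rw [commutatorElement_def, commutatorElement_def]
    calc g * (a * t) * g⁻¹ * (a * t)⁻¹ = g * a * (t * g⁻¹) * t⁻¹ * a⁻¹ := by group
      _ = g * a * (g⁻¹ * t) * t⁻¹ * a⁻¹ := by
          have h1 : t * g⁻¹ = g⁻¹ * t := (show Commute t g from htg).inv_right.eq
          rw [h1]
      _ = g * a * g⁻¹ * a⁻¹ := by group
  have hcK : ⁅g, a⁆ ∈ ⁅closure {a * t, g}, closure {a * t, g}⁆ := by
    rw [← hc]
    exact Subgroup.commutator_mem_commutator hgK haK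
  -- its s'-part commutes with a
  have hO : Fpf (a * t) (pprime ⁅closure {a * t, g}, closure {a * t, g}⁆ hAc s hs) := by
    refine hK1.of_le (fun x hx => hx.1) ?_
    rintro x ⟨hx, m, hm, hxm⟩
    exact ⟨hK1.inv x hx, m, hm, by rw [conj_pow, hxm]; group⟩
  have hcop := coprime_card haN.fin hO.fin hs (fun b hb => ⟨1, by rw [pow_one]; exact he b hb⟩)
    (fun b hb => hb.2)
  have hcomm := hG.coprime hp hat haN hO hcop
  -- the finite group generated by a and g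
  have hU := hG.pair hs hp (he a ha) hg
  have haU : a ∈ closure {a, g} := subset_closure (by simp)
  have hgU : g ∈ closure {a, g} := subset_closure (by simp)
  have hUc := hG.der_comm hU
  have hcU : ⁅g, a⁆ ∈ ⁅closure {a, g}, closure {a, g}⁆ :=
    Subgroup.commutator_mem_commutator hgU haU
  obtain ⟨k, m, hm, hkm⟩ := Nat.exists_eq_pow_mul_and_not_dvd
    (n := orderOf ⁅g, a⁆) ((orderOf_pos_iff.2 (hG.per _)).ne') s hs.one_lt.ne'
  have hc'm : (⁅g, a⁆ ^ s ^ k) ^ m = 1 := by rw [← pow_mul, ← hkm, pow_orderOf_eq_one]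
  have hc'O : ⁅g, a⁆ ^ s ^ k ∈ pprime ⁅closure {a * t, g}, closure {a * t, g}⁆ hAc s hs :=
    ⟨pow_mem hcK _, m, hm, hc'm⟩
  have hc'a : Commute (⁅g, a⁆ ^ s ^ k) a := (hcomm a ha _ hc'O).symm
  have hnu : (⁅g, a⁆ * a) ^ s * (a ^ s)⁻¹ = 1 := by
    have h1 : ⁅g, a⁆ * a = g * a * g⁻¹ := by rw [commutatorElement_def]; group
    rw [h1, conj_pow, he a ha]
    group
  have hnu' := nu_pow hUc (fun d hd => der_conj haU hd) s hcU hnu (s ^ k)
  rw [he a ha, inv_one, mul_one, hc'a.mul_pow, he a ha, mul_one] at hnu'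
  have hc'1 : ⁅g, a⁆ ^ s ^ k = 1 :=
    eq_one_of_pow hnu' hc'm ((hs.coprime_iff_not_dvd).2 hm)
  have hfin' : ((closure {g, a} : Subgroup G) : Set G).Finite := by
    rw [Set.pair_comm]; exact hU
  exact hG.lemmaSG hs hfin' ⟨k, hc'1⟩ ⟨1, by rw [pow_one]; exact he a ha⟩

end Pool.Agent.Lib.MP_032401_al
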